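import Pool.Agent.W882.Nip3.Bound

/-!
The elliptic relation `g w ^ 2 = (f u ^ 2 - α) ^ 2 - β` and the patterns it defines.
-/

set_option autoImplicit false

open FirstOrder FirstOrder.Language FirstOrder.Ring

namespace Pool.Agent.X237.MF

open Pool.Agent.W882.Nip3

/-- The relation: the twisted curve `g w ^ 2 = (f u ^ 2 - α) ^ 2 - β` has a point. -/
def Rel {K : Type} [Field K] (α β f g : K) : Prop :=
  ∃ u w : K, g * w ^ 2 = (f * u ^ 2 - α) ^ 2 - β

/-- existential formula with a system of polynomial equations -/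
noncomputable def EX {α B ι : Type} [Finite B] [Finite ι] (P : ι → FreeCommRing (α ⊕ B)) :
    FirstOrder.Language.ring.Formula α :=
  Formula.iExs B (Formula.iInf (fun i : ι =>
    Term.equal (termOfFreeCommRing (P i)) (termOfFreeCommRing (0 : FreeCommRing (α ⊕ B)))))

theorem realize_EX {K : Type} [Field K] [FirstOrder.Ring.CompatibleRing K] {α B ι : Type}
    [Finite B] [Finite ι] (P : ι → FreeCommRing (α ⊕ B)) (v : α → K) :
    (EX P).Realize v ↔ ∃ z : B → K, ∀ i, FreeCommRing.lift (Sum.elim v z) (P i) = 0 := by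
  rw [EX, Formula.realize_iExs]
  refine exists_congr fun z => ?_
  rw [Formula.realize_iInf]
  refine forall_congr' fun i => ?_
  rw [Formula.realize_equal, realize_termOfFreeCommRing, realize_termOfFreeCommRing, map_zero]

/-- the formula for `NIP_n` -/
noncomputable def fN (n : ℕ) : FirstOrder.Language.ring.Formula (Fin 3 ⊕ (Fin n × Fin 1)) :=
  EX (B := (Fin n × Fin 3) ⊕ Fin 2) (ι := Fin n ⊕ Fin 2) (Sum.elim
    (fun j => .of (Sum.inl (Sum.inr (j, 0))) * .of (Sum.inr (Sum.inl (j, 2))) ^ 2 -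
      ((.of (Sum.inr (Sum.inl (j, 0))) * .of (Sum.inr (Sum.inl (j, 1))) ^ 2 -
        .of (Sum.inl (Sum.inl 1))) ^ 2 - .of (Sum.inl (Sum.inl 2))))
    (fun k => if k = 0 then
      .of (Sum.inl (Sum.inl 0)) * ∏ j : Fin n, .of (Sum.inr (Sum.inl (j, 0))) -
        .of (Sum.inr (Sum.inr 0)) ^ 2
      else .of (Sum.inr (Sum.inr 0)) * .of (Sum.inr (Sum.inr 1)) - 1))

theorem realize_fN {K : Type} [Field K] [FirstOrder.Ring.CompatibleRing K] (n : ℕ)
    (a : Fin 3 → K) (y : Fin n × Fin 1 → K) :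
    (fN n).Realize (Sum.elim a y) ↔ ∃ (f : Fin n → K) (s : K), s ≠ 0 ∧ a 0 * ∏ j, f j = s ^ 2 ∧
      ∀ j, Rel (a 1) (a 2) (f j) (y (j, 0)) := by
  rw [fN, realize_EX]
  constructor
  · rintro ⟨z, hz⟩
    have h0 := hz (Sum.inr 0)
    have h1 := hz (Sum.inr 1)
    simp only [Sum.elim_inr, if_true, map_sub, map_mul, map_prod, map_pow, FreeCommRing.lift_of,
      Sum.elim_inl, Fin.one_eq_zero_iff, OfNat.ofNat_ne_one, if_false, map_one] at h0 h1
    refine ⟨fun j => z (Sum.inl (j, 0)), z (Sum.inr 0), ?_, sub_eq_zero.1 h0, fun j => ?_⟩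
    · intro h
      rw [h, zero_mul, zero_sub, neg_eq_zero] at h1
      exact one_ne_zero h1
    · have h2 := hz (Sum.inl j)
      simp only [Sum.elim_inl, Sum.elim_inr, map_sub, map_mul, map_pow, FreeCommRing.lift_of] at h2
      exact ⟨z (Sum.inl (j, 1)), z (Sum.inl (j, 2)), sub_eq_zero.1 h2⟩
  · rintro ⟨f, s, hs, h0, h1⟩
    choose u w huw using h1
    refine ⟨Sum.elim (fun p => if p.2 = 0 then f p.1 else if p.2 = 1 then u p.1 else w p.1)
      (fun k => if k = 0 then s else s⁻¹), ?_⟩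
    rintro (j | k)
    · simp only [Sum.elim_inl, Sum.elim_inr, map_sub, map_mul, map_pow, FreeCommRing.lift_of,
        if_true, if_neg (show ¬ (1 : Fin 3) = 0 by decide),
        if_neg (show ¬ (2 : Fin 3) = 0 by decide), if_neg (show ¬ (2 : Fin 3) = 1 by decide)]
      exact sub_eq_zero.2 (huw j)
    · simp only [Sum.elim_inr]
      by_cases hk : k = 0
      · rw [if_pos hk]
        simp only [Sum.elim_inl, Sum.elim_inr, map_sub, map_mul, map_pow, map_prod,
          FreeCommRing.lift_of, if_true]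
        exact sub_eq_zero.2 h0
      · rw [if_neg hk]
        simp only [Sum.elim_inr, map_sub, map_mul, map_one,
          FreeCommRing.lift_of, if_true]
        rw [if_neg (by decide), mul_inv_cancel₀ hs, sub_self]

/-- the formula for `NTP2` -/
noncomputable def fT : FirstOrder.Language.ring.Formula (Fin 1 ⊕ Fin 4) :=
  EX (B := Fin 5) (ι := Fin 3) (fun i =>
    if i = 0 then
      .of (Sum.inl (Sum.inr 0)) * .of (Sum.inr 1) ^ 2 -
        ((.of (Sum.inl (Sum.inl 0)) * .of (Sum.inl (Sum.inr 0)) * .of (Sum.inr 0) ^ 2 -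
          .of (Sum.inl (Sum.inr 2))) ^ 2 - .of (Sum.inl (Sum.inr 3)))
    else if i = 1 then
      .of (Sum.inl (Sum.inr 1)) * .of (Sum.inr 3) ^ 2 -
        ((.of (Sum.inl (Sum.inl 0)) * .of (Sum.inr 2) ^ 2 -
          .of (Sum.inl (Sum.inr 2))) ^ 2 - .of (Sum.inl (Sum.inr 3)))
    else .of (Sum.inl (Sum.inl 0)) * .of (Sum.inr 4) - 1)

theorem realize_fT {K : Type} [Field K] [FirstOrder.Ring.CompatibleRing K]
    (x : Fin 1 → K) (y : Fin 4 → K) :
    fT.Realize (Sum.elim x y) ↔ x 0 ≠ 0 ∧ Rel (y 2) (y 3) (x 0 * y 0) (y 0) ∧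
      Rel (y 2) (y 3) (x 0) (y 1) := by
  rw [fT, realize_EX]
  constructor
  · rintro ⟨z, hz⟩
    have h0 := hz 0
    have h1 := hz 1
    have h2 := hz 2
    simp only [if_true, if_neg (show ¬ (1 : Fin 3) = 0 by decide),
      if_neg (show ¬ (2 : Fin 3) = 0 by decide), if_neg (show ¬ (2 : Fin 3) = 1 by decide),
      map_sub, map_mul, map_pow, FreeCommRing.lift_of,
      Sum.elim_inl, Sum.elim_inr, map_one] at h0 h1 h2
    refine ⟨?_, ⟨z 0, z 1, sub_eq_zero.1 h0⟩, ⟨z 2, z 3, sub_eq_zero.1 h1⟩⟩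
    intro h
    rw [h, zero_mul, zero_sub, neg_eq_zero] at h2
    exact one_ne_zero h2
  · rintro ⟨hx, ⟨u, w, h1⟩, u', w', h2⟩
    refine ⟨![u, w, u', w', (x 0)⁻¹], fun i => ?_⟩
    fin_cases i
    · simp only [Fin.zero_eta, if_true, map_sub, map_mul, map_pow, FreeCommRing.lift_of,
        Sum.elim_inl, Sum.elim_inr]
      exact sub_eq_zero.2 h1
    · simp only [Fin.mk_one, if_true, if_neg (show ¬ (1 : Fin 3) = 0 by decide), map_sub, map_mul,
        map_pow, FreeCommRing.lift_of, Sum.elim_inl, Sum.elim_inr]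
      exact sub_eq_zero.2 h2
    · simp only [Fin.reduceFinMk, if_neg (show ¬ (2 : Fin 3) = 0 by decide),
        if_neg (show ¬ (2 : Fin 3) = 1 by decide), map_sub, map_mul,
        FreeCommRing.lift_of, Sum.elim_inl, Sum.elim_inr, map_one]
      exact sub_eq_zero.2 (mul_inv_cancel₀ hx)

/-- Data on `K` for a pattern of size `N`: elements `t j` of `K` and groups `E j` of `even`
elements, such that only `t j` is odd at `j` and the relation holds for products of `t j` over
disjoint sets. -/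
structure Data (K : Type) [Field K] (J : Type) [Fintype J] [DecidableEq J] where
  α : K
  β : K
  t : J → Kˣ
  E : J → Subgroup Kˣ
  sq : ∀ j (x : Kˣ), x ^ 2 ∈ E j
  odd : ∀ j, t j ∉ E j
  even : ∀ i j, i ≠ j → t i ∈ E j
  obs : ∀ j (f g : Kˣ), Rel α β (f : K) (g : K) → f ∈ E j ∨ g ∈ E j
  sol : ∀ S T : Finset J, Disjoint S T → Rel α β ((∏ j ∈ S, t j : Kˣ) : K) ((∏ j ∈ T, t j : Kˣ) : K)

namespace Data

variable {K : Type} [Field K] {J : Type} [Fintype J] [DecidableEq J] (D : Data K J)

theorem prod_even {j : J} {S : Finset J} (h : j ∉ S) : (∏ i ∈ S, D.t i) ∈ D.E j :=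
  Subgroup.prod_mem _ fun i hi => D.even i j (fun h' => h (h' ▸ hi))

theorem prod_odd {j : J} {S : Finset J} (h : j ∈ S) : (∏ i ∈ S, D.t i) ∉ D.E j := by
  intro h1
  rw [← Finset.mul_prod_erase S D.t h] at h1
  have h2 : (∏ i ∈ S.erase j, D.t i) ∈ D.E j := D.prod_even (Finset.notMem_erase j S)
  exact D.odd j ((Subgroup.mul_mem_cancel_right _ h2).1 h1)

end Data

theorem patN_of_data {K : Type} [Field K] [FirstOrder.Ring.CompatibleRing K] (n m : ℕ)
    (D : Data K (Fin n → Fin m)) : PatN K (fN n) m := by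
  classical
  refine ⟨fun r i _ => ((∏ J ∈ Finset.univ.filter (fun J : Fin n → Fin m => J r = i), D.t J : Kˣ) :
    K), fun S => ?_⟩
  refine ⟨![((∏ J ∈ Finset.univ.filter (fun J : Fin n → Fin m => J ∉ S), D.t J : Kˣ) : K),
    D.α, D.β], fun i => ?_⟩
  rw [realize_fN]
  simp only [Matrix.cons_val_zero, Matrix.cons_val_one, Matrix.cons_val]
  constructor
  · rintro ⟨f, s, hs, h1, h2⟩
    by_contra hi
    have hf : ∀ j, f j ≠ 0 := by
      intro j hj
      rw [Finset.prod_eq_zero (Finset.mem_univ j) hj, mul_zero] at h1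
      exact hs (pow_eq_zero_iff two_ne_zero |>.1 h1.symm)
    have h3 : ∀ j, Units.mk0 (f j) (hf j) ∈ D.E i := by
      intro j
      rcases D.obs i (Units.mk0 (f j) (hf j)) _ (h2 j) with h | h
      · exact h
      · exact absurd h (D.prod_odd (by simp))
    have h4 : (∏ J ∈ Finset.univ.filter (fun J : Fin n → Fin m => J ∉ S), D.t J) *
        ∏ j, Units.mk0 (f j) (hf j) = Units.mk0 s hs ^ 2 := by
      ext
      rw [Units.val_mul, Units.coe_prod (s := Finset.univ), Units.val_pow_eq_pow_val]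
      exact h1
    have h5 : (∏ J ∈ Finset.univ.filter (fun J : Fin n → Fin m => J ∉ S), D.t J) ∉ D.E i :=
      D.prod_odd (by simp [hi])
    apply h5
    have h6 : (∏ j, Units.mk0 (f j) (hf j)) ∈ D.E i := Subgroup.prod_mem _ fun j _ => h3 j
    refine (Subgroup.mul_mem_cancel_right _ h6).1 ?_
    rw [h4]
    exact D.sq i _
  · intro hi
    have hne : ∀ J : Fin n → Fin m, J ∉ S → ∃ l, J l ≠ i l := by
      intro J hJ
      by_contra hcon
      push Not at hcon
      exact hJ (by rwa [show J = i from funext hcon])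
    let l : (Fin n → Fin m) → Fin n → Prop := fun J r =>
      ∃ h : J ∉ S, r = (hne J h).choose
    refine ⟨fun r => ((∏ J ∈ Finset.univ.filter (fun J => l J r), D.t J : Kˣ) : K),
      ((∏ J ∈ Finset.univ.filter (fun J : Fin n → Fin m => J ∉ S), D.t J : Kˣ) : K),
      Units.ne_zero _, ?_, fun r => ?_⟩
    · rw [← Units.coe_prod, pow_two, ← Units.val_mul, ← Units.val_mul]
      congr 2
      rw [← Finset.prod_biUnion]
      · refine Finset.prod_congr ?_ fun _ _ => rfl
        ext J
        simp only [Finset.mem_biUnion, Finset.mem_univ, true_and, Finset.mem_filter]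
        constructor
        · rintro ⟨r, h, _⟩
          exact h
        · intro h
          exact ⟨_, h, rfl⟩
      · intro r _ r' _ hrr'
        rw [Function.onFun, Finset.disjoint_left]
        intro J h1 h2
        simp only [Finset.mem_filter, Finset.mem_univ, true_and] at h1 h2
        obtain ⟨h1, h3⟩ := h1
        obtain ⟨h2, h4⟩ := h2
        exact hrr' (h3.trans h4.symm)
    · refine D.sol _ _ ?_
      rw [Finset.disjoint_left]
      intro J h1 h2
      simp only [Finset.mem_filter, Finset.mem_univ, true_and] at h1 h2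
      obtain ⟨h1, h3⟩ := h1
      exact (hne J h1).choose_spec (h3 ▸ h2)

theorem patT_of_data {K : Type} [Field K] [FirstOrder.Ring.CompatibleRing K] (m : ℕ)
    (D : Data K (Fin m × Fin m)) : PatT K fT m := by
  classical
  refine ⟨fun i j => ![(D.t (i, j) : K),
    ((∏ J ∈ Finset.univ.filter (fun J : Fin m × Fin m => J.1 = i ∧ J.2 ≠ j), D.t J : Kˣ) : K),
    D.α, D.β], ?_, ?_⟩
  · rintro i j j' hjj' ⟨x, h1, h2⟩
    rw [realize_fT] at h1 h2
    simp only [Matrix.cons_val_zero, Matrix.cons_val_one, Matrix.cons_val] at h1 h2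
    obtain ⟨hx, -, h1⟩ := h1
    obtain ⟨-, h2, -⟩ := h2
    have h3 : Units.mk0 (x 0) hx ∈ D.E (i, j') := by
      rcases D.obs (i, j') (Units.mk0 (x 0) hx) _ h1 with h | h
      · exact h
      · exact absurd h (D.prod_odd (by simp [hjj'.symm]))
    have h4 : Units.mk0 (x 0) hx * D.t (i, j') ∈ D.E (i, j') := by
      rcases D.obs (i, j') (Units.mk0 (x 0) hx * D.t (i, j')) (D.t (i, j')) h2 with h | h
      · exact h
      · exact absurd h (D.odd _)
    exact D.odd _ ((Subgroup.mul_mem_cancel_left _ h3).1 h4)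
  · intro η
    refine ⟨fun _ => ((∏ J ∈ Finset.univ.filter (fun J : Fin m × Fin m => J.2 = η J.1), D.t J : Kˣ) :
      K), fun i => ?_⟩
    rw [realize_fT]
    simp only [Matrix.cons_val_zero, Matrix.cons_val_one, Matrix.cons_val]
    refine ⟨Units.ne_zero _, ?_, ?_⟩
    · have hmem : (i, η i) ∈ Finset.univ.filter (fun J : Fin m × Fin m => J.2 = η J.1) := by simp
      obtain ⟨u, w, h⟩ := D.sol ((Finset.univ.filter (fun J : Fin m × Fin m => J.2 = η J.1)).erase
        (i, η i)) {(i, η i)} (by simp)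
      rw [Finset.prod_singleton] at h
      refine ⟨u * ((D.t (i, η i))⁻¹ : Kˣ), w, ?_⟩
      rw [h]
      congr 2
      rw [← Finset.mul_prod_erase _ D.t hmem]
      have h0 : (D.t (i, η i) : K) ≠ 0 := Units.ne_zero _
      push_cast
      field_simp
    · refine D.sol _ _ ?_
      rw [Finset.disjoint_left]
      intro J h1 h2
      simp only [Finset.mem_filter, Finset.mem_univ, true_and] at h1 h2
      obtain ⟨rfl, h3⟩ := h2
      exact h3 h1

/-- restriction of the data to a smaller index set -/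
def Data.comap {K : Type} [Field K] {J J' : Type} [Fintype J] [DecidableEq J] [Fintype J']
    [DecidableEq J'] (D : Data K J) (e : J' ↪ J) : Data K J' where
  α := D.α
  β := D.β
  t := fun j => D.t (e j)
  E := fun j => D.E (e j)
  sq := fun j => D.sq (e j)
  odd := fun j => D.odd (e j)
  even := fun i j h => D.even _ _ (e.injective.ne h)
  obs := fun j => D.obs (e j)
  sol := fun S T hST => by
    have h := D.sol (S.map e) (T.map e) (Finset.disjoint_map e |>.2 hST)
    rwa [Finset.prod_map, Finset.prod_map] at h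

/-- The size of the patterns is bounded by the theory of a field which is NIP, `NIP_n` or NTP2. -/
theorem bound_of_tame {K : Type} [Field K] [FirstOrder.Ring.CompatibleRing K]
    (hK : NIPField K ∨ (∃ n, NIPnField n K) ∨ NTP2Field K) :
    ∃ N : ℕ, ∀ (K' : Type) [Field K'] [FirstOrder.Ring.CompatibleRing K'],
      FirstOrder.Language.ring.ElementarilyEquivalent K K' →
      ∀ (J : Type) [Fintype J] [DecidableEq J], N ≤ Fintype.card J → IsEmpty (Data K' J) := by
  classical
  have h1 : ∀ n, NIPnField n K → ∃ N : ℕ, ∀ (K' : Type) [Field K']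
      [FirstOrder.Ring.CompatibleRing K'],
      FirstOrder.Language.ring.ElementarilyEquivalent K K' →
      ∀ (J : Type) [Fintype J] [DecidableEq J], N ≤ Fintype.card J → IsEmpty (Data K' J) := by
    intro n hn
    obtain ⟨m, hm⟩ : ∃ m, ¬ PatN K (fN n) m := by
      by_contra hcon
      push Not at hcon
      exact hn 3 1 (fN n) hcon
    refine ⟨Fintype.card (Fin n → Fin m), fun K' _ _ hKK' J _ _ hJ => ⟨fun D => ?_⟩⟩
    rw [patN_congr hKK'] at hm
    obtain ⟨e⟩ := Function.Embedding.nonempty_of_card_le hJ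
    exact hm (patN_of_data n m (D.comap e))
  rcases hK with hK | ⟨n, hn⟩ | hK
  · exact h1 1 (nip_one hK)
  · exact h1 n hn
  · obtain ⟨m, hm⟩ : ∃ m, ¬ PatT K fT m := by
      obtain ⟨m, hm⟩ := hK 1 4 fT
      refine ⟨m, ?_⟩
      rintro ⟨a, ha, hb⟩
      obtain ⟨η, hη⟩ := hm a ha
      exact hη (hb η)
    refine ⟨Fintype.card (Fin m × Fin m), fun K' _ _ hKK' J _ _ hJ => ⟨fun D => ?_⟩⟩
    rw [patT_congr hKK'] at hm
    obtain ⟨e⟩ := Function.Embedding.nonempty_of_card_le hJ
    exact hm (patT_of_data m (D.comap e))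

end Pool.Agent.X237.MF
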