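import Mathlib

/-!
Elliptic functions: the functions `S` and `W` with `W ^ 2 = (S ^ 2 - α) ^ 2 - β`.
-/

set_option autoImplicit false

open Filter Topology PeriodPair

namespace Pool.Agent.X237.MF

variable (L : PeriodPair)

theorem const_of_periodic (F : ℂ → ℂ) (hF : Meromorphic F)
    (hord : ∀ z, 0 ≤ meromorphicOrderAt F z)
    (hper : ∀ z, ∀ l ∈ L.lattice, F (z + l) = F z) :
    ∃ c, ∀ z, F =ᶠ[𝓝[≠] z] (fun _ => c) := by
  have hF' : MeromorphicOn F Set.univ := fun z _ => hF z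
  set G := toMeromorphicNFOn F Set.univ with hG
  have hNF : MeromorphicNFOn G Set.univ := meromorphicNFOn_toMeromorphicNFOn F Set.univ
  have han : ∀ z, AnalyticAt ℂ G z := by
    intro z
    refine (hNF (Set.mem_univ z)).meromorphicOrderAt_nonneg_iff_analyticAt.1 ?_
    rw [meromorphicOrderAt_toMeromorphicNFOn hF' (Set.mem_univ z)]
    exact hord z
  have hGF : ∀ z, F =ᶠ[𝓝[≠] z] G := fun z => by
    have := hF'.toMeromorphicNFOn_eq_self_on_nhdsNE (Set.mem_univ z)
    exact this.symm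
  have hGper : ∀ z, ∀ l ∈ L.lattice, G (z + l) = G z := by
    intro z l hl
    have h1 : (fun w => G (w + l)) =ᶠ[𝓝[≠] z] G := by
      have h2 : Tendsto (fun w => w + l) (𝓝[≠] z) (𝓝[≠] (z + l)) := by
        refine tendsto_nhdsWithin_of_tendsto_nhds_of_eventually_within _ ?_ ?_
        · exact ((continuous_id.add continuous_const).tendsto z).mono_left nhdsWithin_le_nhds
        · filter_upwards [self_mem_nhdsWithin] with w hw h
          exact hw (add_right_cancel h)
      filter_upwards [h2.eventually (hGF (z + l)), hGF z] with w h3 h4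
      rw [← h3, hper w l hl, h4]
    have h2 : ContinuousAt (fun w => G (w + l)) z :=
      ContinuousAt.comp (g := G) (by exact (han (z + l)).continuousAt)
        (continuous_id.add continuous_const).continuousAt
    have h3 : Tendsto (fun w => G (w + l)) (𝓝[≠] z) (𝓝 (G z)) :=
      (((han z).continuousAt.tendsto).mono_left nhdsWithin_le_nhds).congr' h1.symm
    exact tendsto_nhds_unique (h2.tendsto.mono_left nhdsWithin_le_nhds) h3
  have hdiff : Differentiable ℂ G := fun z => (han z).differentiableAt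
  have hbdd := (IsZLattice.isCompact_range_of_periodic L.lattice _
    hdiff.continuous fun z w hw => hGper z w hw).isBounded
  refine ⟨G 0, fun z => ?_⟩
  filter_upwards [hGF z] with w hw
  rw [hw]
  exact hdiff.apply_eq_apply_of_bounded hbdd w 0

theorem eq_of_continuousAt {F : ℂ → ℂ} {z c : ℂ} (h : F =ᶠ[𝓝[≠] z] (fun _ => c))
    (hc : ContinuousAt F z) : F z = c :=
  tendsto_nhds_unique (hc.tendsto.mono_left nhdsWithin_le_nhds)
    ((tendsto_const_nhds).congr' h.symm)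

section

variable {L} {ω : ℂ} (h2 : 2 * ω ∈ L.lattice)
include h2

theorem P_add_half_neg (z : ℂ) : ℘[L] (z - ω) = ℘[L] (z + ω) := by
  have := L.weierstrassP_add_coe (z - ω) ⟨_, h2⟩
  rw [← this]
  congr 1
  simp only []
  ring

theorem P'_half : ℘'[L] ω = 0 := by
  have h := L.derivWeierstrassP_add_coe (-ω) ⟨_, h2⟩
  rw [L.derivWeierstrassP_neg] at h
  have h3 : -ω + 2 * ω = ω := by ring
  simp only [h3] at h
  have h4 : (2 : ℂ) * ℘'[L] ω = 0 := by linear_combination h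
  exact (mul_eq_zero.1 h4).resolve_left two_ne_zero

omit h2 in
theorem hasDerivAt_P {z : ℂ} (hz : z ∉ L.lattice) : HasDerivAt ℘[L] (℘'[L] z) z := by
  rw [← deriv_weierstrassP]
  exact (L.analyticOnNhd_weierstrassP z hz).differentiableAt.hasDerivAt

omit h2 in
/-- the order of `℘ - e` at a lattice point -/
theorem order_P_sub (e : ℂ) {z : ℂ} (hz : z ∈ L.lattice) :
    meromorphicOrderAt (fun w => ℘[L] w - e) z = -2 := by
  classical
  have h1 : (fun w => ℘[L] w - e) = ℘[L] + fun _ => -e := by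
    funext w
    simp [sub_eq_add_neg]
  rw [h1, meromorphicOrderAt_add_eq_left_of_lt (MeromorphicAt.const _ _), L.order_weierstrassP z hz]
  rw [L.order_weierstrassP z hz, meromorphicOrderAt_const]
  split_ifs
  · exact WithTop.coe_lt_top (-2 : ℤ)
  · exact WithTop.coe_lt_coe.2 (show (-2 : ℤ) < 0 by norm_num)

omit h2 in
theorem two_le_order {f : ℂ → ℂ} {z : ℂ} (hf : AnalyticAt ℂ f z) (h0 : f z = 0)
    (h1 : deriv f z = 0) : 2 ≤ meromorphicOrderAt f z := by
  have h3 := hf.analyticOrderAt_deriv_add_one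
  have h4 : (fun w => f w - f z) = f := by
    funext w
    rw [h0, sub_zero]
  rw [h4] at h3
  have h5 : analyticOrderAt (deriv f) z ≠ 0 := by
    rw [Ne, hf.deriv.analyticOrderAt_eq_zero, h1, not_not]
  rw [hf.meromorphicOrderAt_eq, ← h3]
  have h6 : 1 ≤ analyticOrderAt (deriv f) z := Order.one_le_iff_ne_zero.2 h5
  cases hn : analyticOrderAt (deriv f) z with
  | top => simp
  | coe n =>
    rw [hn] at h6
    have h7 : 1 ≤ n := by exact_mod_cast h6
    change (2 : WithTop ℤ) ≤ (((n + 1 : ℕ) : ℤ) : WithTop ℤ)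
    exact WithTop.coe_le_coe.2 (show (2 : ℤ) ≤ ((n + 1 : ℕ) : ℤ) by omega)

/-- the product -/
theorem exists_product (hω : ω ∉ L.lattice) : ∃ c, ∀ z, z ∉ L.lattice → z + ω ∉ L.lattice →
    (℘[L] z - ℘[L] ω) * (℘[L] (z + ω) - ℘[L] ω) = c := by
  set e := ℘[L] ω with he
  let F : ℂ → ℂ := fun z => (℘[L] z - e) * (℘[L] (z + ω) - e)
  have hm1 : ∀ z, MeromorphicAt (fun w => ℘[L] w - e) z := fun z =>
    (L.meromorphic_weierstrassP z).sub (MeromorphicAt.const _ _)
  have hm2 : ∀ z, MeromorphicAt (fun w => ℘[L] (w + ω) - e) z := fun z =>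
    meromorphicAt_comp_add_const_iff_meromorphicAt.2 (hm1 (z + ω))
  have hF : Meromorphic F := fun z => (hm1 z).mul (hm2 z)
  have hadd : ∀ z : ℂ, ∀ l ∈ L.lattice, (z + l ∈ L.lattice ↔ z ∈ L.lattice) := fun z l hl =>
    Submodule.add_mem_iff_left _ hl
  have hP : ∀ z : ℂ, ∀ l ∈ L.lattice, ℘[L] (z + l) = ℘[L] z := fun z l hl =>
    L.weierstrassP_add_coe z ⟨l, hl⟩
  have hP' : ∀ z : ℂ, ∀ l ∈ L.lattice, ℘'[L] (z + l) = ℘'[L] z := fun z l hl =>
    L.derivWeierstrassP_add_coe z ⟨l, hl⟩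
  -- double zero of `℘ - e` at the points congruent to `ω`
  have hzero : ∀ z, z + ω ∈ L.lattice → 2 ≤ meromorphicOrderAt (fun w => ℘[L] w - e) z := by
    intro z hz
    have hz' : z ∉ L.lattice := fun h => hω ((Submodule.add_mem_iff_right _ h).1 hz)
    have h3 : z = ω + ((z + ω) - 2 * ω) := by ring
    have hl : (z + ω) - 2 * ω ∈ L.lattice := Submodule.sub_mem _ hz h2
    refine two_le_order ((L.analyticOnNhd_weierstrassP z hz').sub analyticAt_const) ?_ ?_
    · rw [h3, hP _ _ hl, sub_self]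
    · rw [((hasDerivAt_P hz').sub_const e).deriv, h3, hP' _ _ hl, P'_half h2]
  have hord1 : ∀ z, z ∈ L.lattice → 0 ≤ meromorphicOrderAt F z := by
    intro z hz
    rw [show F = (fun w => ℘[L] w - e) * (fun w => ℘[L] (w + ω) - e) from rfl,
      meromorphicOrderAt_mul (hm1 z) (hm2 z), order_P_sub e hz]
    have h3 : meromorphicOrderAt (fun w => ℘[L] (w + ω) - e) z =
        meromorphicOrderAt (fun w => ℘[L] w - e) (z + ω) :=
      meromorphicOrderAt_comp_add_const_eq_meromorphicOrderAt (f := fun w => ℘[L] w - e)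
    rw [h3]
    have h4 := hzero (z + ω) (by
      rw [show z + ω + ω = z + 2 * ω by ring]
      exact Submodule.add_mem _ hz h2)
    calc (0 : WithTop ℤ) = -2 + 2 := rfl
      _ ≤ _ := add_le_add le_rfl h4
  have hper1 : ∀ z, F (z + ω) = F z := by
    intro z
    change (℘[L] (z + ω) - e) * (℘[L] (z + ω + ω) - e) = _
    rw [show z + ω + ω = z + 2 * ω by ring, hP _ _ h2, mul_comm]
  have hord : ∀ z, 0 ≤ meromorphicOrderAt F z := by
    intro z
    by_cases hz : z ∈ L.lattice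
    · exact hord1 z hz
    by_cases hzω : z + ω ∈ L.lattice
    · have h3 : meromorphicOrderAt F z = meromorphicOrderAt F (z + ω) := by
        rw [← meromorphicOrderAt_comp_add_const_eq_meromorphicOrderAt (f := F)]
        congr 1
        funext w
        exact (hper1 w).symm
      rw [h3]
      exact hord1 _ hzω
    · have h3 : AnalyticAt ℂ F z := by
        refine AnalyticAt.mul ((L.analyticOnNhd_weierstrassP z hz).sub analyticAt_const) ?_
        refine AnalyticAt.sub ?_ analyticAt_const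
        exact (L.analyticOnNhd_weierstrassP (z + ω) hzω).comp_of_eq
          (analyticAt_id.add analyticAt_const) rfl
      exact h3.meromorphicOrderAt_nonneg
  obtain ⟨c, hc⟩ := const_of_periodic L F hF hord (fun z l hl => by
    change (℘[L] (z + l) - e) * (℘[L] (z + l + ω) - e) = _
    rw [hP _ _ hl, show z + l + ω = z + ω + l by ring, hP _ _ hl])
  refine ⟨c, fun z hz hzω => eq_of_continuousAt (F := F) (hc z) ?_⟩
  have h3 : AnalyticAt ℂ F z := by
    refine AnalyticAt.mul ((L.analyticOnNhd_weierstrassP z hz).sub analyticAt_const) ?_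
    refine AnalyticAt.sub ?_ analyticAt_const
    exact (L.analyticOnNhd_weierstrassP (z + ω) hzω).comp_of_eq
      (analyticAt_id.add analyticAt_const) rfl
  exact h3.continuousAt

end

section

variable {L}

theorem eventually_notMem (x : ℂ) : ∀ᶠ z in 𝓝[≠] x, z ∉ L.lattice := by
  have h1 := L.compl_lattice_sdiff_singleton_mem_nhds x
  filter_upwards [mem_nhdsWithin_of_mem_nhds h1, self_mem_nhdsWithin] with z h2 h3 h4
  exact h2 ⟨h4, h3⟩

theorem eventually_notMem_add (ω x : ℂ) : ∀ᶠ z in 𝓝[≠] x, z + ω ∉ L.lattice := by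
  have h2 : Tendsto (fun w => w + ω) (𝓝[≠] x) (𝓝[≠] (x + ω)) := by
    refine tendsto_nhdsWithin_of_tendsto_nhds_of_eventually_within _ ?_ ?_
    · exact ((continuous_id.add continuous_const).tendsto x).mono_left nhdsWithin_le_nhds
    · filter_upwards [self_mem_nhdsWithin] with w hw h
      exact hw (add_right_cancel h)
  exact h2.eventually (eventually_notMem (x + ω))

theorem half_distinct {a b : ℂ} (h2a : 2 * a ∈ L.lattice) (ha : a ∉ L.lattice)
    (hb : b ∉ L.lattice) (hab : b + a ∉ L.lattice) : ℘[L] b ≠ ℘[L] a := by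
  intro heq
  obtain ⟨c, hc⟩ := exists_product h2a ha
  have hc0 : c = 0 := by
    rw [← hc b hb hab, heq, sub_self, zero_mul]
  have h1 : ∀ᶠ z in 𝓝[≠] (0 : ℂ), ℘[L] z - ℘[L] a ≠ 0 := by
    have hm : MeromorphicAt (fun w => ℘[L] w - ℘[L] a) 0 :=
      (L.meromorphic_weierstrassP 0).sub (MeromorphicAt.const _ _)
    refine (meromorphicOrderAt_ne_top_iff_eventually_ne_zero hm).1 ?_
    rw [order_P_sub _ (Submodule.zero_mem _)]
    exact WithTop.coe_ne_top (a := (-2 : ℤ))
  have h2 : meromorphicOrderAt (fun w => ℘[L] (w + a) - ℘[L] a) 0 = ⊤ := by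
    rw [meromorphicOrderAt_eq_top_iff]
    filter_upwards [h1, eventually_notMem (L := L) 0, eventually_notMem_add (L := L) a 0] with z
      h3 h4 h5
    have h6 := hc z h4 h5
    rw [hc0] at h6
    exact (mul_eq_zero.1 h6).resolve_left h3
  have h3 : meromorphicOrderAt (fun w => ℘[L] (w + a) - ℘[L] a) 0 =
      meromorphicOrderAt (fun w => ℘[L] w - ℘[L] a) (0 + a) :=
    meromorphicOrderAt_comp_add_const_eq_meromorphicOrderAt (f := fun w => ℘[L] w - ℘[L] a)
  have hm : MeromorphicOn (fun w => ℘[L] w - ℘[L] a) Set.univ := fun z _ =>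
    (L.meromorphic_weierstrassP z).sub (MeromorphicAt.const _ _)
  have h4 := hm.meromorphicOrderAt_ne_top_of_isPreconnected (y := 0 + a) isPreconnected_univ
    (Set.mem_univ (0 : ℂ)) (Set.mem_univ _) (by
      rw [order_P_sub _ (Submodule.zero_mem _)]
      exact WithTop.coe_ne_top (a := (-2 : ℤ)))
  exact h4 (h3.symm.trans h2)

end

/-! ### The functions `S` and `W` -/

/-- half period -/
noncomputable def hf : ℂ := L.ω₁ / 2

/-- other half period -/
noncomputable def hg : ℂ := L.ω₂ / 2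

noncomputable def e₁ : ℂ := ℘[L] (hf L)
noncomputable def e₂ : ℂ := ℘[L] (hg L)
noncomputable def e₃ : ℂ := ℘[L] (hg L + hf L)

noncomputable def Sf (z : ℂ) : ℂ := ℘'[L] z / 2 / (℘[L] z - e₁ L)
noncomputable def Wf (z : ℂ) : ℂ := ℘[L] z - ℘[L] (z + hf L)

theorem two_hf : 2 * hf L ∈ L.lattice := by
  rw [hf, mul_div_cancel₀ _ (two_ne_zero)]
  exact L.ω₁_mem_lattice

theorem two_hg : 2 * hg L ∈ L.lattice := by
  rw [hg, mul_div_cancel₀ _ (two_ne_zero)]
  exact L.ω₂_mem_lattice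

theorem hf_notMem : hf L ∉ L.lattice := L.ω₁_div_two_notMem_lattice
theorem hg_notMem : hg L ∉ L.lattice := L.ω₂_div_two_notMem_lattice

theorem hgf_notMem : hg L + hf L ∉ L.lattice := by
  have h := (L.mul_ω₁_add_mul_ω₂_mem_lattice (α := 1 / 2) (β := 1 / 2)).not.mpr (by norm_num)
  intro h'
  apply h
  have e : hg L + hf L = ((1 / 2 : ℚ) : ℂ) * L.ω₁ + ((1 / 2 : ℚ) : ℂ) * L.ω₂ := by
    rw [hg, hf]
    push_cast
    ring
  rwa [← e]

theorem e21 : e₂ L ≠ e₁ L :=
  half_distinct (two_hf L) (hf_notMem L) (hg_notMem L) (hgf_notMem L)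

theorem e31 : e₃ L ≠ e₁ L := by
  refine half_distinct (two_hf L) (hf_notMem L) (hgf_notMem L) ?_
  intro h
  apply hg_notMem L
  rw [show hg L + hf L + hf L = hg L + 2 * hf L by ring] at h
  exact (Submodule.add_mem_iff_left _ (two_hf L)).1 h

theorem e32 : e₃ L ≠ e₂ L := by
  refine half_distinct (two_hg L) (hg_notMem L) (hgf_notMem L) ?_
  intro h
  apply hf_notMem L
  rw [show hg L + hf L + hg L = hf L + 2 * hg L by ring] at h
  exact (Submodule.add_mem_iff_left _ (two_hg L)).1 h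

/-- the cubic at a half period -/
theorem cubic_half {a : ℂ} (h2a : 2 * a ∈ L.lattice) (ha : a ∉ L.lattice) :
    4 * ℘[L] a ^ 3 - L.g₂ * ℘[L] a - L.g₃ = 0 := by
  rw [← L.derivWeierstrassP_sq a ha, P'_half h2a, zero_pow two_ne_zero]

/-- the sum and the products of the roots -/
theorem roots_sum : (e₂ L - e₁ L) + (e₃ L - e₁ L) = -3 * e₁ L := by
  have h1 := cubic_half L (two_hf L) (hf_notMem L)
  have h2 := cubic_half L (two_hg L) (hg_notMem L)
  have h3 := cubic_half L (a := hg L + hf L) (by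
    rw [mul_add]; exact Submodule.add_mem _ (two_hg L) (two_hf L)) (hgf_notMem L)
  change 4 * e₁ L ^ 3 - L.g₂ * e₁ L - L.g₃ = 0 at h1
  change 4 * e₂ L ^ 3 - L.g₂ * e₂ L - L.g₃ = 0 at h2
  change 4 * e₃ L ^ 3 - L.g₂ * e₃ L - L.g₃ = 0 at h3
  have h21 := sub_ne_zero.2 (e21 L)
  have h31 := sub_ne_zero.2 (e31 L)
  have h32 := sub_ne_zero.2 (e32 L)
  have h4 : 4 * (e₂ L ^ 2 + e₂ L * e₁ L + e₁ L ^ 2) - L.g₂ = 0 := by
    apply mul_left_cancel₀ h21
    linear_combination h2 - h1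
  have h5 : 4 * (e₃ L ^ 2 + e₃ L * e₁ L + e₁ L ^ 2) - L.g₂ = 0 := by
    apply mul_left_cancel₀ h31
    linear_combination h3 - h1
  have h6 : 4 * (e₃ L + e₂ L + e₁ L) = 0 := by
    apply mul_left_cancel₀ h32
    linear_combination h5 - h4
  linear_combination h6 / 4

theorem roots_prod : (e₂ L - e₁ L) * (e₃ L - e₁ L) = 3 * e₁ L ^ 2 - L.g₂ / 4 := by
  have h1 := cubic_half L (two_hf L) (hf_notMem L)
  have h2 := cubic_half L (two_hg L) (hg_notMem L)
  change 4 * e₁ L ^ 3 - L.g₂ * e₁ L - L.g₃ = 0 at h1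
  change 4 * e₂ L ^ 3 - L.g₂ * e₂ L - L.g₃ = 0 at h2
  have h21 := sub_ne_zero.2 (e21 L)
  have h4 : 4 * (e₂ L ^ 2 + e₂ L * e₁ L + e₁ L ^ 2) - L.g₂ = 0 := by
    apply mul_left_cancel₀ h21
    linear_combination h2 - h1
  have h5 := roots_sum L
  linear_combination (e₂ L - e₁ L) * h5 - h4 / 4

/-- the product of the two translates -/
theorem prod_eq {z : ℂ} (hz : z ∉ L.lattice) (hz' : z + hf L ∉ L.lattice) :
    (℘[L] z - e₁ L) * (℘[L] (z + hf L) - e₁ L) = (e₂ L - e₁ L) * (e₃ L - e₁ L) := by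
  obtain ⟨c, hc⟩ := exists_product (two_hf L) (hf_notMem L)
  have h1 := hc z hz hz'
  have h2 := hc (hg L) (hg_notMem L) (hgf_notMem L)
  exact h1.trans h2.symm

theorem x_ne {z : ℂ} (hz : z ∉ L.lattice) (hz' : z + hf L ∉ L.lattice) :
    ℘[L] z - e₁ L ≠ 0 := by
  intro h
  have h1 := prod_eq L hz hz'
  rw [h, zero_mul] at h1
  exact (mul_ne_zero (sub_ne_zero.2 (e21 L)) (sub_ne_zero.2 (e31 L))) h1.symm

theorem ell_rel {z : ℂ} (hz : z ∉ L.lattice) (hz' : z + hf L ∉ L.lattice) :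
    Wf L z ^ 2 = (Sf L z ^ 2 - 3 * e₁ L) ^ 2 - 4 * ((e₂ L - e₁ L) * (e₃ L - e₁ L)) := by
  have h1 := L.derivWeierstrassP_sq z hz
  have h2 := cubic_half L (two_hf L) (hf_notMem L)
  change 4 * e₁ L ^ 3 - L.g₂ * e₁ L - L.g₃ = 0 at h2
  have h3 := prod_eq L hz hz'
  have h4 := roots_prod L
  have hx := x_ne L hz hz'
  have h5 : Sf L z ^ 2 = (℘[L] z - e₁ L) + 3 * e₁ L + (℘[L] (z + hf L) - e₁ L) := by
    rw [Sf, div_pow, div_pow, h1, div_eq_iff (pow_ne_zero 2 hx)]
    rw [← h3] at h4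
    linear_combination (-1 / 4) * h2 * 0 + (℘[L] z - e₁ L) * (-h4) + h2 / 4
  rw [h5, Wf, ← h3]
  ring

theorem alpha_beta : (3 * e₁ L) ^ 2 - 4 * ((e₂ L - e₁ L) * (e₃ L - e₁ L)) ≠ 0 := by
  have h1 := roots_sum L
  have h2 : (3 * e₁ L) ^ 2 - 4 * ((e₂ L - e₁ L) * (e₃ L - e₁ L)) = (e₃ L - e₂ L) ^ 2 := by
    have h3 : 3 * e₁ L = -((e₂ L - e₁ L) + (e₃ L - e₁ L)) := by rw [h1]; ring
    rw [h3]
    ring
  rw [h2]
  exact pow_ne_zero 2 (sub_ne_zero.2 (e32 L))

theorem Sf_neg (z : ℂ) : Sf L (-z) = -Sf L z := by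
  rw [Sf, Sf, L.weierstrassP_neg, L.derivWeierstrassP_neg]
  ring

theorem Wf_neg (z : ℂ) : Wf L (-z) = Wf L z := by
  rw [Wf, Wf, L.weierstrassP_neg, ← P_add_half_neg (two_hf L) z, ← L.weierstrassP_neg (z - hf L)]
  congr 2
  ring

theorem Wf_add (z : ℂ) : Wf L (z + hf L) = -Wf L z := by
  rw [Wf, Wf, show z + hf L + hf L = z + 2 * hf L by ring,
    L.weierstrassP_add_coe z ⟨_, two_hf L⟩]
  ring

theorem Sf_add (z : ℂ) : Sf L (z + hf L) = -Sf L z := by
  by_cases hz : z ∈ L.lattice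
  · have h1 : ℘'[L] z = 0 := L.derivWeierstrassP_coe ⟨z, hz⟩
    have h2 : ℘'[L] (z + hf L) = 0 := by
      rw [add_comm, L.derivWeierstrassP_add_coe (hf L) ⟨z, hz⟩]
      exact P'_half (two_hf L)
    rw [Sf, Sf, h1, h2]
    simp
  by_cases hz' : z + hf L ∈ L.lattice
  · have h1 : ℘'[L] (z + hf L) = 0 := L.derivWeierstrassP_coe ⟨_, hz'⟩
    have h2 : ℘'[L] z = 0 := by
      have hl : (z + hf L) - 2 * hf L ∈ L.lattice := Submodule.sub_mem _ hz' (two_hf L)
      have h3 : z = hf L + ((z + hf L) - 2 * hf L) := by ring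
      rw [h3, L.derivWeierstrassP_add_coe (hf L) ⟨_, hl⟩]
      exact P'_half (two_hf L)
    rw [Sf, Sf, h1, h2]
    simp
  have hx := x_ne L hz hz'
  have hx' : ℘[L] (z + hf L) - e₁ L ≠ 0 := by
    intro h
    have h1 := prod_eq L hz hz'
    rw [h, mul_zero] at h1
    exact (mul_ne_zero (sub_ne_zero.2 (e21 L)) (sub_ne_zero.2 (e31 L))) h1.symm
  -- differentiate the product
  have h1 : HasDerivAt (fun w => (℘[L] w - e₁ L) * (℘[L] (w + hf L) - e₁ L))
      (℘'[L] z * (℘[L] (z + hf L) - e₁ L) + (℘[L] z - e₁ L) * ℘'[L] (z + hf L)) z := by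
    refine HasDerivAt.mul ((hasDerivAt_P hz).sub_const _) ?_
    exact ((hasDerivAt_P hz').comp_add_const z (hf L)).sub_const _
  have h2 : (fun w => (℘[L] w - e₁ L) * (℘[L] (w + hf L) - e₁ L)) =ᶠ[𝓝 z]
      fun _ => (e₂ L - e₁ L) * (e₃ L - e₁ L) := by
    have ho : IsOpen {w : ℂ | w ∉ L.lattice} := L.isClosed_lattice.isOpen_compl
    have ho' : IsOpen {w : ℂ | w + hf L ∉ L.lattice} :=
      ho.preimage (continuous_id.add continuous_const)
    filter_upwards [ho.mem_nhds hz, ho'.mem_nhds hz'] with w hw hw'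
    exact prod_eq L hw hw'
  have h3 := (h1.congr_of_eventuallyEq h2.symm).unique (hasDerivAt_const z _)
  rw [Sf, Sf]
  field_simp
  linear_combination h3

end Pool.Agent.X237.MF
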