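import Pool.Agent.X237.MF.Mer

/-!
Concrete fields of functions on an open set of the plane which contain all functions meromorphic on
the plane.
-/

set_option autoImplicit false

open Filter Topology

namespace Pool.Agent.X237.MF

theorem isField_mero : IsField Mero where
  exists_pair_ne := by
    refine ⟨mc 0, mc 1, fun h => ?_⟩
    have h2 : (mc 0).1 = (mc 1).1 := congrArg Subtype.val h
    have h3 := le_codisc isOpen_univ (Set.mem_univ (0 : ℂ)) (Germ.coe_eq.1 h2)
    have hne : (𝓝[≠] (0 : ℂ)).NeBot := inferInstance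
    obtain ⟨z, hz⟩ := (Filter.Eventually.exists h3)
    exact zero_ne_one hz
  mul_comm := mul_comm
  mul_inv_cancel := by
    rintro ⟨_, f, hf, rfl⟩ h0
    have hfm : MeromorphicOn f Set.univ := fun z _ => hf z
    have hex : ∃ z : ℂ, meromorphicOrderAt f z ≠ ⊤ := by
      by_contra hcon
      push Not at hcon
      apply h0
      apply Subtype.ext
      refine Germ.coe_eq.2 ?_
      refine mem_codiscreteWithin_iff_forall_mem_nhdsNE.2 fun x _ => ?_
      filter_upwards [meromorphicOrderAt_eq_top_iff.1 (hcon x)] with z hz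
      exact Or.inl hz
    have hall : ∀ z : ℂ, meromorphicOrderAt f z ≠ ⊤ := by
      have h1 := (Meromorphic.exists_meromorphicOrderAt_ne_top_iff_forall (f := f) hf).1
      obtain ⟨z, hz⟩ := hex
      exact fun w => h1 ⟨z, hz⟩ w
    refine ⟨cls (fun z => (f z)⁻¹) fun z => (hf z).inv, ?_⟩
    apply Subtype.ext
    change ((f * fun z => (f z)⁻¹ : ℂ → ℂ) : (codiscreteWithin (Set.univ : Set ℂ)).Germ ℂ) =
      ((fun _ => 1 : ℂ → ℂ) : (codiscreteWithin (Set.univ : Set ℂ)).Germ ℂ)
    refine Germ.coe_eq.2 ?_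
    refine mem_codiscreteWithin_iff_forall_mem_nhdsNE.2 fun x _ => ?_
    filter_upwards [(meromorphicOrderAt_ne_top_iff_eventually_ne_zero (hf x)).1 (hall x)] with z hz
    left
    change f z * (f z)⁻¹ = 1
    exact mul_inv_cancel₀ hz

/-- the translation -/
def shift (b : ℝ) (z : ℂ) : ℂ := z - b * Complex.I

theorem tendsto_shift {U : Set ℂ} (b : ℝ) :
    Tendsto (shift b) (codiscreteWithin U) (codiscreteWithin Set.univ) := by
  intro s hs
  rw [mem_map]
  refine mem_codiscreteWithin_iff_forall_mem_nhdsNE.2 fun x _ => ?_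
  have h1 := mem_codiscreteWithin_iff_forall_mem_nhdsNE.1 hs (shift b x) (Set.mem_univ _)
  have h2 : Tendsto (shift b) (𝓝[≠] x) (𝓝[≠] (shift b x)) := by
    refine tendsto_nhdsWithin_iff.2 ⟨?_, ?_⟩
    · have h3 : Continuous (shift b) := continuous_id.sub continuous_const
      exact (h3.tendsto x).mono_left nhdsWithin_le_nhds
    · filter_upwards [self_mem_nhdsWithin] with z hz
      intro h4
      apply hz
      have h5 : z - b * Complex.I = x - b * Complex.I := h4
      exact sub_left_inj.1 h5
  have h3 := h2 h1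
  rw [mem_map] at h3
  filter_upwards [h3] with z hz
  rcases hz with h | h
  · exact Or.inl h
  · exact absurd (Set.mem_univ _) h

/-- composition with the translation as a homomorphism -/
noncomputable def shiftHom (U : Set ℂ) (b : ℝ) :
    (codiscreteWithin (Set.univ : Set ℂ)).Germ ℂ →+* (codiscreteWithin U).Germ ℂ where
  toFun := fun f => f.compTendsto (shift b) (tendsto_shift b)
  map_one' := rfl
  map_mul' := fun f g => Germ.inductionOn₂ f g fun _ _ => rfl
  map_zero' := rfl
  map_add' := fun f g => Germ.inductionOn₂ f g fun _ _ => rfl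

theorem shiftHom_coe (U : Set ℂ) (b : ℝ) (f : ℂ → ℂ) :
    shiftHom U b (f : (codiscreteWithin (Set.univ : Set ℂ)).Germ ℂ) =
      ((fun z => f (z - b * Complex.I) : ℂ → ℂ) : (codiscreteWithin U).Germ ℂ) := rfl

theorem mero_shift (b : ℝ) (f : ℂ → ℂ) (hf : ∀ z, MeromorphicAt f z) (z : ℂ) :
    MeromorphicAt (fun z => f (z - b * Complex.I)) z := by
  have h1 : AnalyticAt ℂ (fun z : ℂ => z - b * Complex.I) z := analyticAt_id.sub analyticAt_const
  exact MeromorphicAt.comp_analyticAt (f := f) (g := fun z : ℂ => z - b * Complex.I)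
    (hf (z - b * Complex.I)) h1

theorem exists_hom {U : Set ℂ} (hU : IsOpen U) (hne : U.Nonempty) {K : Type} [Field K]
    (ι : K →+* (codiscreteWithin U).Germ ℂ)
    (hι : ∀ x, ∃ f : ℂ → ℂ, MeromorphicOn f U ∧ ι x = (f : (codiscreteWithin U).Germ ℂ))
    (hM : ∀ f : ℂ → ℂ, (∀ z, MeromorphicAt f z) →
      ∃ y : K, ι y = (f : (codiscreteWithin U).Germ ℂ)) :
    ∃ τ : Mero →+* K, {a : ℝ | OddM τ (a : ℂ)}.Infinite := by
  classical
  obtain ⟨p, hp⟩ := hne
  have hnb := neBot_codisc hU hp
  have hinj : Function.Injective ι := ι.injective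
  have hb : Function.Bijective ι.rangeRestrict :=
    ⟨fun x y hxy => hinj (congrArg Subtype.val hxy), ι.rangeRestrict_surjective⟩
  let e : K ≃+* ι.range := RingEquiv.ofBijective _ hb
  let B : Mero →+* ι.range := ((shiftHom U p.im).comp Mero.subtype).codRestrict ι.range (by
    rintro ⟨_, f, hf, rfl⟩
    obtain ⟨y, hy⟩ := hM _ (mero_shift p.im f hf)
    exact ⟨y, hy⟩)
  let τ : Mero →+* K := e.symm.toRingHom.comp B
  have hτ : ∀ g : Mero, ι (τ g) = shiftHom U p.im g.1 := by
    intro g
    have h1 : e (e.symm (B g)) = B g := e.apply_symm_apply _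
    exact congrArg Subtype.val h1
  have hodd : ∀ a : ℝ, (a : ℂ) + p.im * Complex.I ∈ U → OddM τ (a : ℂ) := by
    intro a ha
    refine ⟨Multiplicative (WithTop ℤ)ᵒᵈ, inferInstance,
      AddValuation.toValuation (valK hU ι hι ha), ?_, ?_⟩
    · intro c hc0
      rw [AddValuation.toValuation_apply, valK_apply hU ι hι ha (τ (mc c)) (fun _ => c) (hτ (mc c)),
        meromorphicOrderAt_const, if_neg hc0]
      rfl
    · have h1 : valK hU ι hι ha (τ mz - τ (mc a)) = 1 := by
        rw [valK_apply hU ι hι ha (τ mz - τ (mc a)) (fun z => z - (a + p.im * Complex.I)) (by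
          rw [map_sub, hτ, hτ]
          change (((fun z => z - p.im * Complex.I) - (fun _ => (a : ℂ)) : ℂ → ℂ) :
            (codiscreteWithin U).Germ ℂ) = _
          congr 1
          funext z
          simp only [Pi.sub_apply]
          ring)]
        exact meromorphicOrderAt_id_sub_const
      rw [AddValuation.toValuation_apply, h1]
      constructor
      · change Multiplicative.ofAdd (OrderDual.toDual (1 : WithTop ℤ)) <
          Multiplicative.ofAdd (OrderDual.toDual (0 : WithTop ℤ))
        rw [Multiplicative.ofAdd_lt, OrderDual.toDual_lt_toDual]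
        exact zero_lt_one
      · rintro ⟨y, hy⟩
        have h2 : (1 : WithTop ℤ) = (OrderDual.ofDual (Multiplicative.toAdd y) : WithTop ℤ) +
            OrderDual.ofDual (Multiplicative.toAdd y) := congrArg
          (fun z : Multiplicative (WithTop ℤ)ᵒᵈ => OrderDual.ofDual (Multiplicative.toAdd z)) hy
        exact not_one_eq _ h2
  refine ⟨τ, ?_⟩
  have hc : Continuous fun a : ℝ => (a : ℂ) + p.im * Complex.I :=
    Complex.continuous_ofReal.add continuous_const
  have hopen : IsOpen {a : ℝ | (a : ℂ) + p.im * Complex.I ∈ U} := hU.preimage hc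
  have hmem : p.re ∈ {a : ℝ | (a : ℂ) + p.im * Complex.I ∈ U} := by
    change (p.re : ℂ) + p.im * Complex.I ∈ U
    rw [Complex.re_add_im]
    exact hp
  exact (infinite_of_mem_nhds p.re (hopen.mem_nhds hmem)).mono fun a ha => hodd a ha

end Pool.Agent.X237.MF
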