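import Pool.Agent.X237.MF.Half

/-!
Fields of meromorphic functions on an open set `U` of the plane: fields with a homomorphism to the
ring of functions on `U` up to equality outside a discrete subset of `U`.
-/

set_option autoImplicit false

open Filter Topology

namespace Pool.Agent.X237.MF

theorem not_one_eq (t : WithTop ℤ) : ¬ (1 : WithTop ℤ) = t + t := by
  intro h
  cases t with
  | top =>
    rw [top_add] at h
    exact WithTop.one_ne_top h
  | coe n =>
    have h3 : ((1 : ℤ) : WithTop ℤ) = ((n + n : ℤ) : WithTop ℤ) := h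
    have h4 : (1 : ℤ) = n + n := WithTop.coe_injective h3
    omega

theorem le_codisc {U : Set ℂ} (hU : IsOpen U) {a : ℂ} (ha : a ∈ U) :
    𝓝[≠] a ≤ codiscreteWithin U := by
  intro s hs
  have h1 := mem_codiscreteWithin_iff_forall_mem_nhdsNE.1 hs a ha
  have h2 : U ∈ 𝓝[≠] a := mem_nhdsWithin_of_mem_nhds (hU.mem_nhds ha)
  filter_upwards [h1, h2] with z h3 h4
  rcases h3 with h | h
  · exact h
  · exact absurd h4 h

theorem neBot_codisc {U : Set ℂ} (hU : IsOpen U) {a : ℂ} (ha : a ∈ U) :
    (codiscreteWithin U).NeBot := neBot_of_le (le_codisc hU ha)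

section

variable {U : Set ℂ} (hU : IsOpen U) {K : Type} [Field K] (ι : K →+* (codiscreteWithin U).Germ ℂ)
  (hι : ∀ x, ∃ f : ℂ → ℂ, MeromorphicOn f U ∧ ι x = (f : (codiscreteWithin U).Germ ℂ))

/-- a representing function -/
noncomputable def rep (x : K) : ℂ → ℂ := (hι x).choose

theorem rep_mero (x : K) : MeromorphicOn (rep ι hι x) U := (hι x).choose_spec.1

theorem rep_eq (x : K) : ι x = (rep ι hι x : (codiscreteWithin U).Germ ℂ) := (hι x).choose_spec.2

/-- order of an element at a point -/
noncomputable def ordK (a : ℂ) (x : K) : WithTop ℤ := meromorphicOrderAt (rep ι hι x) a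

include hU in
theorem ordK_eq {a : ℂ} (ha : a ∈ U) (x : K) (f : ℂ → ℂ)
    (h : ι x = (f : (codiscreteWithin U).Germ ℂ)) : ordK ι hι a x = meromorphicOrderAt f a := by
  unfold ordK
  apply meromorphicOrderAt_congr
  exact (le_codisc hU ha) (Germ.coe_eq.1 ((rep_eq ι hι x).symm.trans h))

/-- the valuation given by the order at a point -/
noncomputable def valK {a : ℂ} (ha : a ∈ U) : AddValuation K (WithTop ℤ) :=
  AddValuation.of (ordK ι hι a)
    (by
      rw [ordK_eq hU ι hι ha 0 (fun _ => 0) (by rw [map_zero]; rfl)]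
      rw [meromorphicOrderAt_eq_top_iff]
      exact Eventually.of_forall fun _ => rfl)
    (by
      classical
      rw [ordK_eq hU ι hι ha 1 (fun _ => 1) (by rw [map_one]; rfl), meromorphicOrderAt_const,
        if_neg one_ne_zero])
    (by
      intro x y
      rw [ordK_eq hU ι hι ha (x + y) (rep ι hι x + rep ι hι y) (by
        rw [map_add, rep_eq ι hι x, rep_eq ι hι y]; rfl)]
      exact meromorphicOrderAt_add (rep_mero ι hι x a ha) (rep_mero ι hι y a ha))
    (by
      intro x y
      rw [ordK_eq hU ι hι ha (x * y) (rep ι hι x * rep ι hι y) (by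
        rw [map_mul, rep_eq ι hι x, rep_eq ι hι y]; rfl)]
      exact meromorphicOrderAt_mul (rep_mero ι hι x a ha) (rep_mero ι hι y a ha))

theorem valK_apply {a : ℂ} (ha : a ∈ U) (x : K) (f : ℂ → ℂ)
    (h : ι x = (f : (codiscreteWithin U).Germ ℂ)) :
    valK hU ι hι ha x = meromorphicOrderAt f a := ordK_eq hU ι hι ha x f h

include hU hι in
/-- Points of `U` are odd points of the coordinate. -/
theorem oddAt_coord [Algebra ℂ K] (x : K)
    (hx : ι x = ((fun z => z : ℂ → ℂ) : (codiscreteWithin U).Germ ℂ))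
    (hc : ∀ c : ℂ, ι (algebraMap ℂ K c) = ((fun _ => c : ℂ → ℂ) : (codiscreteWithin U).Germ ℂ))
    {a : ℂ} (ha : a ∈ U) : OddAt x a := by
  classical
  refine ⟨Multiplicative (WithTop ℤ)ᵒᵈ, inferInstance,
    AddValuation.toValuation (valK hU ι hι ha), ?_, ?_⟩
  · intro c hc0
    rw [AddValuation.toValuation_apply, valK_apply hU ι hι ha _ _ (hc c),
      meromorphicOrderAt_const, if_neg hc0]
    rfl
  · have h1 : valK hU ι hι ha (x - algebraMap ℂ K a) = 1 := by
      rw [valK_apply hU ι hι ha (x - algebraMap ℂ K a) (fun z => z - a) (by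
        rw [map_sub, hx, hc]; rfl)]
      exact meromorphicOrderAt_id_sub_const
    rw [AddValuation.toValuation_apply, h1]
    constructor
    · change Multiplicative.ofAdd (OrderDual.toDual (1 : WithTop ℤ)) <
        Multiplicative.ofAdd (OrderDual.toDual (0 : WithTop ℤ))
      rw [Multiplicative.ofAdd_lt, OrderDual.toDual_lt_toDual]
      exact zero_lt_one
    · rintro ⟨y, hy⟩
      have h2 : (1 : WithTop ℤ) = (OrderDual.ofDual (Multiplicative.toAdd y) : WithTop ℤ) +
          OrderDual.ofDual (Multiplicative.toAdd y) := congrArg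
        (fun z : Multiplicative (WithTop ℤ)ᵒᵈ => OrderDual.ofDual (Multiplicative.toAdd z)) hy
      exact not_one_eq _ h2

end

/-- the germ of a constant function -/
noncomputable def cst (U : Set ℂ) : ℂ →+* (codiscreteWithin U).Germ ℂ :=
  (Germ.coeRingHom (codiscreteWithin U)).comp (Pi.constRingHom ℂ ℂ)

theorem cst_apply (U : Set ℂ) (c : ℂ) :
    cst U c = ((fun _ => c : ℂ → ℂ) : (codiscreteWithin U).Germ ℂ) := rfl

/-- constants in a field of functions -/
theorem exists_const {U : Set ℂ} (hU : (codiscreteWithin U).NeBot) {K : Type} [Field K]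
    (ι : K →+* (codiscreteWithin U).Germ ℂ) (h : ∀ c : ℂ, ∃ y : K, ι y = cst U c) :
    ∃ A : ℂ →+* K, ∀ c, ι (A c) = cst U c := by
  have hinj : Function.Injective ι := ι.injective
  have hb : Function.Bijective ι.rangeRestrict :=
    ⟨fun x y hxy => hinj (congrArg Subtype.val hxy), ι.rangeRestrict_surjective⟩
  let e : K ≃+* ι.range := RingEquiv.ofBijective _ hb
  let B : ℂ →+* ι.range := (cst U).codRestrict ι.range fun c => h c
  refine ⟨e.symm.toRingHom.comp B, fun c => ?_⟩
  have h1 : e (e.symm (B c)) = B c := e.apply_symm_apply _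
  exact congrArg Subtype.val h1

/-- The coordinate and the constants in a field of functions on the right half plane which contains
square roots of `z - c` for `Re c < 0`. -/
theorem exists_coord {U : Set ℂ} (hU : (codiscreteWithin U).NeBot) {K : Type} [Field K]
    (ι : K →+* (codiscreteWithin U).Germ ℂ)
    (h : ∀ c : ℂ, c.re < 0 → ∃ y : K,
      ι y ^ 2 = ((fun z => z - c : ℂ → ℂ) : (codiscreteWithin U).Germ ℂ)) :
    ∃ (A : ℂ →+* K) (x : K), (∀ c, ι (A c) = cst U c) ∧
      ι x = ((fun z => z : ℂ → ℂ) : (codiscreteWithin U).Germ ℂ) ∧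
      ∀ c : ℂ, c.re < 0 → IsSquare (x - A c) := by
  choose! y hy using h
  obtain ⟨A, hA⟩ := exists_const hU ι (fun w => by
    have h1 : (-((|w.re| + 1 : ℝ) : ℂ)).re < 0 := by
      rw [Complex.neg_re, Complex.ofReal_re]
      have := abs_nonneg w.re
      linarith
    have h2 : (-((|w.re| + 1 : ℝ) : ℂ) + w).re < 0 := by
      rw [Complex.add_re, Complex.neg_re, Complex.ofReal_re]
      have := le_abs_self w.re
      linarith
    refine ⟨y (-((|w.re| + 1 : ℝ) : ℂ)) ^ 2 - y (-((|w.re| + 1 : ℝ) : ℂ) + w) ^ 2, ?_⟩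
    rw [map_sub, map_pow, map_pow, hy _ h1, hy _ h2, cst_apply]
    change (((fun z => z - -((|w.re| + 1 : ℝ) : ℂ)) - (fun z => z - (-((|w.re| + 1 : ℝ) : ℂ) + w)) :
      ℂ → ℂ) : (codiscreteWithin U).Germ ℂ) = _
    congr 1
    funext z
    simp only [Pi.sub_apply]
    ring)
  have hinj : Function.Injective ι := ι.injective
  have hx : ι (y (-1) ^ 2 + A (-1)) = ((fun z => z : ℂ → ℂ) : (codiscreteWithin U).Germ ℂ) := by
    rw [map_add, map_pow, hy _ (by simp), hA, cst_apply]
    change (((fun z => z - -1) + (fun _ => -1) : ℂ → ℂ) : (codiscreteWithin U).Germ ℂ) = _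
    congr 1
    funext z
    simp only [Pi.add_apply]
    ring
  refine ⟨A, y (-1) ^ 2 + A (-1), hA, hx, fun c hc => ⟨y c, ?_⟩⟩
  apply hinj
  rw [map_sub, hx, hA, cst_apply, ← pow_two, map_pow, hy c hc]
  rfl

end Pool.Agent.X237.MF
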