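import Pool.Agent.X237.MF.RealPts

/-!
Rational functions which map the right half plane to a thin strip.
-/

set_option autoImplicit false

open Polynomial

namespace Pool.Agent.X237.MF

theorem im_bound (z : ℂ) (hz : 0 ≤ z.re) (s : ℝ) (hs : 0 < s) :
    |((z - s) / (z + s)).im| ≤ 2 * s * ‖z‖ / (s ^ 2 + ‖z‖ ^ 2) := by
  have hne : z + s ≠ 0 := by
    intro h
    have := congrArg Complex.re h
    simp at this
    linarith
  have hn : 0 < Complex.normSq (z + s) := Complex.normSq_pos.2 hne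
  have h1 : ((z - s) / (z + s)).im = 2 * s * z.im / Complex.normSq (z + s) := by
    rw [Complex.div_im]
    simp only [Complex.sub_im, Complex.ofReal_im, sub_zero, Complex.add_re, Complex.ofReal_re,
      Complex.sub_re, Complex.add_im, add_zero]
    field_simp
    ring
  have h2 : s ^ 2 + ‖z‖ ^ 2 ≤ Complex.normSq (z + s) := by
    rw [← Complex.normSq_eq_norm_sq, Complex.normSq_apply, Complex.normSq_apply]
    simp only [Complex.add_re, Complex.ofReal_re, Complex.add_im, Complex.ofReal_im, add_zero]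
    nlinarith [mul_nonneg hz hs.le]
  have h3 : 0 < s ^ 2 + ‖z‖ ^ 2 := by positivity
  rw [h1, abs_div, abs_of_pos hn]
  have h4 : |2 * s * z.im| ≤ 2 * s * ‖z‖ := by
    rw [abs_mul, abs_of_pos (by positivity : 0 < 2 * s)]
    exact mul_le_mul_of_nonneg_left (Complex.abs_im_le_norm z) (by positivity)
  exact div_le_div₀ (by positivity) h4 h3 h2

theorem sum_bound (ρ : ℝ) (hρ : 0 ≤ ρ) (M : ℕ) :
    ∑ i ∈ Finset.range M, 2 * (2 ^ i : ℝ) * ρ / ((2 ^ i : ℝ) ^ 2 + ρ ^ 2) ≤ 8 := by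
  have key : ∀ M : ℕ, ∑ i ∈ Finset.range M, 2 * (2 ^ i : ℝ) * ρ / ((2 ^ i : ℝ) ^ 2 + ρ ^ 2) ≤
      4 * (((2 ^ M : ℝ) - ρ) / (2 ^ M + ρ) - (1 - ρ) / (1 + ρ)) := by
    intro M
    induction M with
    | zero => simp
    | succ M ih =>
      rw [Finset.sum_range_succ]
      have hs : (0 : ℝ) < 2 ^ M := by positivity
      set s : ℝ := 2 ^ M
      have h1 : 2 * s * ρ / (s ^ 2 + ρ ^ 2) ≤
          4 * ((2 * s - ρ) / (2 * s + ρ) - (s - ρ) / (s + ρ)) := by
        have e1 : (2 * s - ρ) / (2 * s + ρ) - (s - ρ) / (s + ρ) =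
            2 * s * ρ / ((2 * s + ρ) * (s + ρ)) := by
          rw [div_sub_div _ _ (by positivity) (by positivity)]
          congr 1
          ring
        rw [e1, ← mul_div_assoc, div_le_div_iff₀ (by positivity) (by positivity)]
        have h2 : (2 * s + ρ) * (s + ρ) ≤ 4 * (s ^ 2 + ρ ^ 2) := by nlinarith [sq_nonneg (s - ρ)]
        have h3 : 0 ≤ 2 * s * ρ := by positivity
        calc 2 * s * ρ * ((2 * s + ρ) * (s + ρ)) ≤ 2 * s * ρ * (4 * (s ^ 2 + ρ ^ 2)) :=
              mul_le_mul_of_nonneg_left h2 h3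
          _ = 4 * (2 * s * ρ) * (s ^ 2 + ρ ^ 2) := by ring
      have e2 : (2 : ℝ) ^ (M + 1) = 2 * s := by rw [pow_succ, mul_comm]
      rw [e2]
      linarith
  refine (key M).trans ?_
  have hs : (0 : ℝ) < 2 ^ M := by positivity
  have h1 : ((2 ^ M : ℝ) - ρ) / (2 ^ M + ρ) ≤ 1 := by
    rw [div_le_one (by positivity)]
    linarith
  have h2 : -1 ≤ (1 - ρ) / (1 + ρ) := by
    rw [le_div_iff₀ (by positivity)]
    linarith
  linarith

/-- the function `ψ` -/
noncomputable def psi (M : ℕ) (z : ℂ) : ℂ :=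
  ∑ i ∈ Finset.range M, (z - ((2 ^ i : ℝ) : ℂ)) / (z + ((2 ^ i : ℝ) : ℂ))

theorem psi_im (M : ℕ) (z : ℂ) (hz : 0 ≤ z.re) : |(psi M z).im| ≤ 8 := by
  rw [psi, Complex.im_sum]
  refine (Finset.abs_sum_le_sum_abs _ _).trans ?_
  refine (Finset.sum_le_sum fun i _ => im_bound z hz (2 ^ i) (by positivity)).trans ?_
  exact sum_bound ‖z‖ (norm_nonneg _) M

/-- the real function -/
noncomputable def psiR (M : ℕ) (x : ℝ) : ℝ := ∑ i ∈ Finset.range M, (x - 2 ^ i) / (x + 2 ^ i)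

theorem psi_ofReal (M : ℕ) (x : ℝ) : psi M x = psiR M x := by
  rw [psi, psiR]
  push_cast
  rfl

theorem exists_psiR (M : ℕ) (b : ℝ) (h0 : 0 ≤ b) (hb : b < M) : ∃ x : ℝ, 0 < x ∧ psiR M x = b := by
  have hM : 0 < M := by
    rcases Nat.eq_zero_or_pos M with h | h
    · subst h
      simp only [Nat.cast_zero] at hb
      linarith
    · exact h
  have hcont : ContinuousOn (psiR M) (Set.Ioi 0) := by
    unfold psiR
    refine continuousOn_finsetSum _ fun i _ => ?_
    refine ContinuousOn.div (by fun_prop) (by fun_prop) fun x hx => ?_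
    have : (0 : ℝ) < 2 ^ i := by positivity
    have : 0 < x := hx
    positivity
  -- small at one
  have h1 : psiR M 1 ≤ 0 := by
    unfold psiR
    refine Finset.sum_nonpos fun i _ => ?_
    have : (1 : ℝ) ≤ 2 ^ i := one_le_pow₀ (by norm_num)
    exact div_nonpos_of_nonpos_of_nonneg (by linarith) (by positivity)
  -- large at infinity
  have h2 : Filter.Tendsto (psiR M) Filter.atTop (nhds (M : ℝ)) := by
    have h3 : Filter.Tendsto (fun x : ℝ => ∑ i ∈ Finset.range M, (x - 2 ^ i) / (x + 2 ^ i))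
        Filter.atTop (nhds (∑ i ∈ Finset.range M, (1 : ℝ))) := by
      refine tendsto_finsetSum _ fun i _ => ?_
      have h4 : Filter.Tendsto (fun x : ℝ => 1 - (2 * 2 ^ i) / (x + 2 ^ i)) Filter.atTop
          (nhds (1 - 0)) := by
        refine Filter.Tendsto.sub tendsto_const_nhds ?_
        refine Filter.Tendsto.div_atTop tendsto_const_nhds ?_
        exact Filter.tendsto_atTop_add_const_right _ _ Filter.tendsto_id
      rw [sub_zero] at h4
      refine h4.congr' ?_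
      filter_upwards [Filter.eventually_gt_atTop 0] with x hx
      have : x + 2 ^ i ≠ 0 := by positivity
      field_simp
      ring
    simp only [Finset.sum_const, Finset.card_range, nsmul_eq_mul, mul_one] at h3
    exact h3
  obtain ⟨R, hR⟩ := (h2.eventually (lt_mem_nhds hb)).and (Filter.eventually_gt_atTop 1) |>.exists
  have h5 : b ∈ Set.Icc (psiR M 1) (psiR M R) := ⟨h1.trans h0, hR.1.le⟩
  obtain ⟨x, hx, hxb⟩ := intermediate_value_Icc hR.2.le
    (hcont.mono fun y hy => lt_of_lt_of_le one_pos hy.1) h5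
  exact ⟨x, lt_of_lt_of_le one_pos hx.1, hxb⟩

/-- the numerator of `δ ψ - c` -/
noncomputable def num (δ : ℝ) (M : ℕ) (c : ℂ) : ℂ[X] :=
  C (δ : ℂ) * ∑ i ∈ Finset.range M, (X - C ((2 ^ i : ℝ) : ℂ)) *
    ∏ l ∈ (Finset.range M).erase i, (X + C ((2 ^ l : ℝ) : ℂ)) -
  C c * ∏ l ∈ Finset.range M, (X + C ((2 ^ l : ℝ) : ℂ))

theorem aeval_num {K : Type} [Field K] [Algebra ℂ K] (x : K) (δ : ℝ) (M : ℕ) (c : ℂ)
    (hx : ∀ i ∈ Finset.range M, x + algebraMap ℂ K ((2 ^ i : ℝ) : ℂ) ≠ 0) :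
    aeval x (num δ M c) = (algebraMap ℂ K δ * ∑ i ∈ Finset.range M,
      (x - algebraMap ℂ K ((2 ^ i : ℝ) : ℂ)) / (x + algebraMap ℂ K ((2 ^ i : ℝ) : ℂ)) -
        algebraMap ℂ K c) * ∏ l ∈ Finset.range M, (x + algebraMap ℂ K ((2 ^ l : ℝ) : ℂ)) := by
  rw [num]
  simp only [map_sub, map_mul, map_sum, map_prod, map_add, aeval_C, aeval_X]
  rw [sub_mul, mul_assoc, Finset.sum_mul]
  congr 2
  refine Finset.sum_congr rfl fun i hi => ?_
  rw [← Finset.mul_prod_erase _ _ hi, ← mul_assoc, div_mul_cancel₀ _ (hx i hi)]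

theorem num_root (δ ε : ℝ) (hδ : 0 < δ) (hε : 8 * δ < ε) (M : ℕ) (c : ℂ) (hc : ε ≤ |c.im|) (z : ℂ)
    (hz : (num δ M c).eval z = 0) : z.re < 0 := by
  by_contra hre
  push Not at hre
  have hx : ∀ i ∈ Finset.range M, z + algebraMap ℂ ℂ ((2 ^ i : ℝ) : ℂ) ≠ 0 := by
    intro i _ h
    have h1 := congrArg Complex.re h
    rw [Algebra.algebraMap_self, RingHom.id_apply, Complex.add_re, Complex.ofReal_re,
      Complex.zero_re] at h1
    have : (0 : ℝ) < 2 ^ i := by positivity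
    linarith
  have h1 := aeval_num z δ M c hx
  rw [coe_aeval_eq_eval, hz] at h1
  rcases mul_eq_zero.1 h1.symm with h2 | h2
  · have h3 : (δ : ℂ) * psi M z = c := by
      rw [psi]
      exact sub_eq_zero.1 h2
    have h4 := psi_im M z hre
    have h5 : |c.im| = δ * |(psi M z).im| := by
      rw [← h3, Complex.im_ofReal_mul, abs_mul, abs_of_pos hδ]
    rw [h5] at hc
    nlinarith
  · obtain ⟨i, hi, h3⟩ := Finset.prod_eq_zero_iff.1 h2
    exact hx i hi h3

/-- a polynomial without real zeros has no zeros close to the real line -/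
theorem exists_eps (Q : ℂ[X]) (hQ : ∀ b : ℝ, Q.eval (b : ℂ) ≠ 0) :
    ∃ ε : ℝ, 0 < ε ∧ ∀ c : ℂ, Q.eval c = 0 → ε ≤ |c.im| := by
  classical
  have hQ0 : Q ≠ 0 := by
    rintro rfl
    exact hQ 0 (by simp)
  by_cases hne : Q.roots.toFinset.Nonempty
  · obtain ⟨c₀, hc₀, hmin⟩ := Finset.exists_min_image Q.roots.toFinset (fun c => |c.im|) hne
    refine ⟨|c₀.im|, ?_, fun c hc => hmin c ?_⟩
    · rw [abs_pos]
      intro h
      refine hQ c₀.re ?_
      have h1 : (c₀.re : ℂ) = c₀ := by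
        apply Complex.ext
        · simp
        · simp [h]
      rw [h1]
      exact (mem_roots hQ0).1 (Multiset.mem_toFinset.1 hc₀)
    · exact Multiset.mem_toFinset.2 ((mem_roots hQ0).2 hc)
  · refine ⟨1, one_pos, fun c hc => ?_⟩
    exact absurd ⟨c, Multiset.mem_toFinset.2 ((mem_roots hQ0).2 hc)⟩ hne

theorem frac_aux {K : Type} [Field K] (a s x : K) (h1 : a + s ≠ 0) (h2 : x + s ≠ 0) :
    2 * s / (a + s) / (x + s) - 2 * s / (a + s) ^ 2 =
      -((x - a) * (2 * s / (a + s) ^ 2 / (x + s))) := by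
  field_simp
  ring

/-- transfer of odd points to the function `δ ψ` -/
theorem oddAt_psi {K : Type} [Field K] [Algebra ℂ K] (x : K) (δ b q : ℝ) (hδ : 0 < δ) (M : ℕ)
    (hM : 0 < M) (hq0 : 0 < q) (hq : psiR M q = b / δ) (h : OddAt x ((q : ℝ) : ℂ)) :
    OddAt (algebraMap ℂ K δ * ∑ i ∈ Finset.range M,
      (x - algebraMap ℂ K ((2 ^ i : ℝ) : ℂ)) / (x + algebraMap ℂ K ((2 ^ i : ℝ) : ℂ)))
      ((b : ℝ) : ℂ) := by
  obtain ⟨Γ, _, v, hv1, hv2, hv3⟩ := h
  refine ⟨Γ, inferInstance, v, hv1, ?_⟩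
  let A : ℝ →+* K := (algebraMap ℂ K).comp Complex.ofRealHom
  have hA : ∀ r : ℝ, algebraMap ℂ K (r : ℂ) = A r := fun _ => rfl
  have hvA : ∀ r : ℝ, r ≠ 0 → v (A r) = 1 := fun r hr =>
    hv1 _ (show (r : ℂ) ≠ 0 by exact_mod_cast hr)
  simp only [hA] at hv2 hv3 ⊢
  let σ : ℕ → ℝ := fun i => 2 ^ i
  have hσ : ∀ i, 0 < σ i := fun i => by positivity
  change v (A δ * ∑ i ∈ Finset.range M, (x - A (σ i)) / (x + A (σ i)) - A b) < 1 ∧
    ¬ IsSquare (v (A δ * ∑ i ∈ Finset.range M, (x - A (σ i)) / (x + A (σ i)) - A b))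
  have hqs0 : ∀ i, q + σ i ≠ 0 := fun i => by
    have := hσ i
    positivity
  have hx1 : ∀ i, v (x + A (σ i)) = 1 := by
    intro i
    have e1 : x + A (σ i) = (x - A q) + A (q + σ i) := by
      rw [map_add]
      ring
    have e2 : v (A (q + σ i)) = 1 := hvA _ (hqs0 i)
    rw [e1, Valuation.map_add_eq_of_lt_right _ (by rw [e2]; exact hv2), e2]
  have hx0 : ∀ i, x + A (σ i) ≠ 0 := by
    intro i h
    have := hx1 i
    rw [h, map_zero] at this
    exact zero_ne_one this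
  have hqs : ∀ i, A q + A (σ i) ≠ 0 := by
    intro i
    rw [← map_add, Ne, map_eq_zero]
    exact hqs0 i
  let R : K := ∑ i ∈ Finset.range M, A (2 * σ i / (q + σ i)) / (x + A (σ i))
  have hy : A δ * ∑ i ∈ Finset.range M, (x - A (σ i)) / (x + A (σ i)) - A b =
      A δ * ((x - A q) * R) := by
    have e1 : b = δ * psiR M q := by
      rw [hq]
      field_simp
    have e2 : A b = A δ * ∑ i ∈ Finset.range M, (A q - A (σ i)) / (A q + A (σ i)) := by
      rw [e1, psiR, map_mul, map_sum]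
      congr 1
      refine Finset.sum_congr rfl fun i _ => ?_
      rw [map_div₀, map_sub, map_add]
    rw [e2, ← mul_sub, ← Finset.sum_sub_distrib]
    congr 1
    simp only [R]
    rw [Finset.mul_sum]
    refine Finset.sum_congr rfl fun i _ => ?_
    have e3 := hx0 i
    have e4 := hqs i
    rw [map_div₀, map_mul, map_add, map_ofNat]
    field_simp
    ring
  -- the value of the second factor
  have hR : v R = 1 := by
    have e1 : R = (R - A (∑ i ∈ Finset.range M, 2 * σ i / (q + σ i) ^ 2))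
        + A (∑ i ∈ Finset.range M, 2 * σ i / (q + σ i) ^ 2) := by ring
    have e2 : v (A (∑ i ∈ Finset.range M, 2 * σ i / (q + σ i) ^ 2)) = 1 := by
      refine hvA _ (ne_of_gt ?_)
      refine Finset.sum_pos (fun i _ => ?_) ⟨0, Finset.mem_range.2 hM⟩
      have := hσ i
      positivity
    have e3 : v (R - A (∑ i ∈ Finset.range M, 2 * σ i / (q + σ i) ^ 2)) < 1 := by
      have e4 : R - A (∑ i ∈ Finset.range M, 2 * σ i / (q + σ i) ^ 2) =
          - ((x - A q) * ∑ i ∈ Finset.range M,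
            A (2 * σ i / (q + σ i) ^ 2) / (x + A (σ i))) := by
        simp only [R]
        rw [map_sum, ← Finset.sum_sub_distrib, Finset.mul_sum, ← Finset.sum_neg_distrib]
        refine Finset.sum_congr rfl fun i _ => ?_
        have e5 : A (2 * σ i / (q + σ i)) = 2 * A (σ i) / (A q + A (σ i)) := by
          rw [map_div₀, map_mul, map_add, map_ofNat]
        have e6 : A (2 * σ i / (q + σ i) ^ 2) = 2 * A (σ i) / (A q + A (σ i)) ^ 2 := by
          rw [map_div₀, map_mul, map_pow A (q + σ i), map_add, map_ofNat]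
        rw [e5, e6]
        exact frac_aux _ _ _ (hqs i) (hx0 i)
      rw [e4, Valuation.map_neg, map_mul]
      refine mul_lt_one_of_lt_of_le hv2 ?_
      refine Valuation.map_sum_le v fun i _ => ?_
      rw [map_div₀, hx1, div_one]
      refine (hvA _ ?_).le
      have := hσ i
      positivity
    rw [e1, Valuation.map_add_eq_of_lt_right _ (by rw [e2]; exact e3), e2]
  have hval : v (A δ * ∑ i ∈ Finset.range M, (x - A (σ i)) / (x + A (σ i)) - A b) =
      v (x - A q) := by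
    rw [hy, map_mul, map_mul, hR, mul_one, hvA _ hδ.ne', one_mul]
  rw [hval]
  exact ⟨hv2, hv3⟩

theorem isSquare_psi {K : Type} [Field K] [Algebra ℂ K] (x : K) (δ ε : ℝ) (hδ : 0 < δ)
    (hε : 8 * δ < ε) (M : ℕ) (hsq : ∀ c : ℂ, c.re < 0 → IsSquare (x - algebraMap ℂ K c)) (c : ℂ)
    (hc : ε ≤ |c.im|) :
    IsSquare (algebraMap ℂ K δ * ∑ i ∈ Finset.range M,
      (x - algebraMap ℂ K ((2 ^ i : ℝ) : ℂ)) / (x + algebraMap ℂ K ((2 ^ i : ℝ) : ℂ)) -
        algebraMap ℂ K c) := by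
  have hs : ∀ i : ℕ, IsSquare (x + algebraMap ℂ K ((2 ^ i : ℝ) : ℂ)) := by
    intro i
    have h := hsq (-((2 ^ i : ℝ) : ℂ)) (by
      rw [Complex.neg_re, Complex.ofReal_re]
      have : (0 : ℝ) < 2 ^ i := by positivity
      linarith)
    rwa [map_neg, sub_neg_eq_add] at h
  by_cases hx0 : ∀ i ∈ Finset.range M, x + algebraMap ℂ K ((2 ^ i : ℝ) : ℂ) ≠ 0
  · have h5 := aeval_num x δ M c hx0
    have h6 : IsSquare (aeval x (num δ M c)) :=
      isSquare_aeval x _ fun z hz => hsq z (num_root δ ε hδ hε M c hc z hz)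
    have h7 : IsSquare (∏ l ∈ Finset.range M, (x + algebraMap ℂ K ((2 ^ l : ℝ) : ℂ))) :=
      Finset.prod_induction _ (fun z => IsSquare z) (fun _ _ => IsSquare.mul) IsSquare.one
        fun i _ => hs i
    have h8 : (∏ l ∈ Finset.range M, (x + algebraMap ℂ K ((2 ^ l : ℝ) : ℂ))) ≠ 0 :=
      Finset.prod_ne_zero_iff.2 hx0
    rw [eq_div_of_mul_eq h8 h5.symm]
    exact h6.div h7
  · -- degenerate case: `x` is a constant
    push Not at hx0
    obtain ⟨i, -, hi⟩ := hx0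
    have hx : x = algebraMap ℂ K (-((2 ^ i : ℝ) : ℂ)) := by
      rw [map_neg]
      exact eq_neg_of_add_eq_zero_left hi
    have hall : ∀ z : ℂ, IsSquare (algebraMap ℂ K z) := by
      intro z
      obtain ⟨r, hr⟩ := IsAlgClosed.exists_pow_nat_eq z zero_lt_two
      exact ⟨algebraMap ℂ K r, by rw [← map_mul, ← pow_two, hr]⟩
    have hy : algebraMap ℂ K δ * ∑ i ∈ Finset.range M,
      (x - algebraMap ℂ K ((2 ^ i : ℝ) : ℂ)) / (x + algebraMap ℂ K ((2 ^ i : ℝ) : ℂ)) =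
      algebraMap ℂ K (δ * ∑ j ∈ Finset.range M,
        ((-((2 ^ i : ℝ) : ℂ)) - ((2 ^ j : ℝ) : ℂ)) / ((-((2 ^ i : ℝ) : ℂ)) +
          ((2 ^ j : ℝ) : ℂ))) := by
      rw [hx, map_mul, map_sum]
      simp only [map_div₀, map_sub, map_add]
    rw [hy, ← map_sub]
    exact hall _

/-- Finitely many positive numbers which are not all odd points. -/
theorem data_of_half (N : ℕ) : ∃ P : Finset ℝ, (∀ p ∈ P, 0 < p) ∧
    ∀ (K : Type) [Field K] [Algebra ℂ K] (x : K),
      (∀ c : ℂ, c.re < 0 → IsSquare (x - algebraMap ℂ K c)) →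
      (∀ p ∈ P, OddAt x ((p : ℝ) : ℂ)) → Nonempty (Data K (Fin N)) := by
  classical
  -- the polynomials
  let b : Fin N → ℝ := fun j => (j : ℕ)
  have hb : Function.Injective b := fun i j h => Fin.ext (by
    have h' : ((i : ℕ) : ℝ) = ((j : ℕ) : ℝ) := h
    exact_mod_cast h')
  have h1 : ∀ S T : Finset (Fin N), ∃ s Q : ℂ[X], Disjoint S T →
      (((∏ a ∈ S, (X - C (b a : ℂ))) * s ^ 2) ^ 2 - 1 =
      (∏ a ∈ T, (X - C (b a : ℂ))) * Q ∧ ∀ b : ℝ, Q.eval (b : ℂ) ≠ 0) := by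
    intro S T
    by_cases hST : Disjoint S T
    · obtain ⟨s, Q, h1, h2⟩ := exists_real_sol (S.image b) (T.image b)
        ((Finset.disjoint_image hb).2 hST)
      rw [Finset.prod_image (fun i _ j _ h => hb h), Finset.prod_image (fun i _ j _ h => hb h)] at h1
      exact ⟨s, Q, fun _ => ⟨h1, h2⟩⟩
    · exact ⟨0, 0, fun h => absurd h hST⟩
  choose s Q hsQ using h1
  have h2 : ∀ p : Finset (Fin N) × Finset (Fin N), ∃ ε : ℝ, 0 < ε ∧
      (Disjoint p.1 p.2 → ∀ c : ℂ, (Q p.1 p.2).eval c = 0 → ε ≤ |c.im|) := by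
    rintro ⟨S, T⟩
    by_cases hST : Disjoint S T
    · obtain ⟨ε, h1, h2⟩ := exists_eps (Q S T) (hsQ S T hST).2
      exact ⟨ε, h1, fun _ => h2⟩
    · exact ⟨1, one_pos, fun h => absurd h hST⟩
  choose ε hε hεQ using h2
  obtain ⟨p₀, -, hp₀⟩ := Finset.exists_min_image (Finset.univ : Finset (Finset (Fin N) ×
    Finset (Fin N))) ε Finset.univ_nonempty
  obtain ⟨δ, hδ0, hδ⟩ : ∃ δ : ℝ, 0 < δ ∧ 8 * δ < ε p₀ := by
    have := hε p₀
    exact ⟨ε p₀ / 9, by positivity, by linarith⟩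
  obtain ⟨M, hM⟩ := exists_nat_gt ((N : ℝ) / δ)
  have hM0 : 0 < M := by
    rcases Nat.eq_zero_or_pos M with h | h
    · subst h
      have : (0 : ℝ) ≤ (N : ℝ) / δ := by positivity
      simp only [Nat.cast_zero] at hM
      linarith
    · exact h
  have h3 : ∀ j : Fin N, ∃ q : ℝ, 0 < q ∧ psiR M q = b j / δ := by
    intro j
    refine exists_psiR M _ (by positivity) (lt_of_le_of_lt ?_ hM)
    refine div_le_div_of_nonneg_right ?_ hδ0.le
    have : ((j : ℕ) : ℝ) ≤ N := by exact_mod_cast j.2.le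
    exact this
  choose q hq0 hq using h3
  refine ⟨Finset.univ.image q, ?_, fun K _ _ x hsq hodd => ?_⟩
  · intro p hp
    obtain ⟨j, -, rfl⟩ := Finset.mem_image.1 hp
    exact hq0 j
  refine data_of_oddAt (algebraMap ℂ K δ * ∑ i ∈ Finset.range M,
    (x - algebraMap ℂ K ((2 ^ i : ℝ) : ℂ)) / (x + algebraMap ℂ K ((2 ^ i : ℝ) : ℂ)))
    (fun j => ((b j : ℝ) : ℂ)) (fun i j h => hb (Complex.ofReal_injective h)) (fun j =>
      oddAt_psi x δ (b j) (q j) hδ0 M hM0 (hq0 j) (hq j)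
        (hodd (q j) (Finset.mem_image_of_mem _ (Finset.mem_univ _)))) fun S T hST => ?_
  obtain ⟨h4, -⟩ := hsQ S T hST
  exact ⟨s S T, Q S T, h4, isSquare_aeval _ _ fun c hc =>
    isSquare_psi x δ (ε p₀) hδ0 hδ M hsq c
      ((hp₀ (S, T) (Finset.mem_univ _)).trans (hεQ (S, T) hST c hc))⟩

end Pool.Agent.X237.MF
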