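import Pool.Agent.X237.MF.Sol
import Pool.Agent.X237.MF.Germ

/-!
The field of meromorphic functions on the plane and its homomorphisms to other fields.
-/

set_option autoImplicit false

open Filter Topology

namespace Pool.Agent.X237.MF

/-- the ring of the functions on the plane which are meromorphic at every point -/
def merFun : Subring (ℂ → ℂ) where
  carrier := {f | ∀ z, MeromorphicAt f z}
  mul_mem' := fun ha hb z => (ha z).mul (hb z)
  one_mem' := fun z => MeromorphicAt.const 1 z
  add_mem' := fun ha hb z => (ha z).add (hb z)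
  zero_mem' := fun z => MeromorphicAt.const 0 z
  neg_mem' := fun ha z => (ha z).neg

/-- the field of meromorphic functions on the plane: functions which are meromorphic at every point,
up to equality outside a closed discrete set -/
noncomputable def Mero : Subring ((codiscreteWithin (Set.univ : Set ℂ)).Germ ℂ) :=
  merFun.map (Germ.coeRingHom (codiscreteWithin Set.univ))

/-- the class of a meromorphic function -/
noncomputable def cls (f : ℂ → ℂ) (hf : ∀ z, MeromorphicAt f z) : Mero :=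
  ⟨(f : (codiscreteWithin (Set.univ : Set ℂ)).Germ ℂ), f, hf, rfl⟩

/-- constant functions -/
noncomputable def mc (c : ℂ) : Mero := cls (fun _ => c) fun z => MeromorphicAt.const c z

/-- the coordinate -/
noncomputable def mz : Mero := cls (fun z => z) fun z => MeromorphicAt.id z

theorem cls_congr {f g : ℂ → ℂ} (hf : ∀ z, MeromorphicAt f z) (hg : ∀ z, MeromorphicAt g z)
    (h : ∀ z₀, ∀ᶠ z in 𝓝[≠] z₀, f z = g z) : cls f hf = cls g hg := by
  apply Subtype.ext
  refine Germ.coe_eq.2 ?_
  refine mem_codiscreteWithin_iff_forall_mem_nhdsNE.2 fun x _ => ?_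
  filter_upwards [h x] with z hz
  exact Or.inl hz

/-- the class map as a ring homomorphism -/
noncomputable def clsHom : merFun →+* Mero where
  toFun := fun f => cls f.1 f.2
  map_one' := rfl
  map_mul' := fun _ _ => rfl
  map_zero' := rfl
  map_add' := fun _ _ => rfl

/-- constant functions as a ring homomorphism -/
noncomputable def mcHom : ℂ →+* Mero where
  toFun := mc
  map_one' := rfl
  map_mul' := fun _ _ => rfl
  map_zero' := rfl
  map_add' := fun _ _ => rfl

/-- odd points of a homomorphism from the field of meromorphic functions -/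
def OddM {K : Type} [Field K] (τ : Mero →+* K) (a : ℂ) : Prop :=
  ∃ (Γ : Type) (_ : LinearOrderedCommGroupWithZero Γ) (v : Valuation K Γ),
    (∀ c : ℂ, c ≠ 0 → v (τ (mc c)) = 1) ∧ v (τ mz - τ (mc a)) < 1 ∧
      ¬ IsSquare (v (τ mz - τ (mc a)))

/-- a period pair -/
noncomputable def L₀ : PeriodPair where
  ω₁ := 1
  ω₂ := Complex.I
  indep := by
    have h := Complex.basisOneI.linearIndependent
    have h2 : (![1, Complex.I] : Fin 2 → ℂ) = Complex.basisOneI := by
      rw [Complex.coe_basisOneI]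
    rw [h2]
    exact h

theorem sol_mero {J : Type} [DecidableEq J] (a : J → ℝ)
    (ha : Function.Injective a) (S T : Finset J) (hST : Disjoint S T) :
    ∃ u w : Mero, (∏ j ∈ T, (mz - mc (a j))) * w ^ 2 =
      ((∏ j ∈ S, (mz - mc (a j))) * u ^ 2 - mc (3 * e₁ L₀)) ^ 2 -
        mc (4 * ((e₂ L₀ - e₁ L₀) * (e₃ L₀ - e₁ L₀))) := by
  obtain ⟨u, w, hu, hw, h⟩ := exists_mero L₀ (S.map ⟨a, ha⟩) (T.map ⟨a, ha⟩)
    (Finset.disjoint_map _ |>.2 hST)
  simp only [Finset.prod_map, Function.Embedding.coeFn_mk] at h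
  have hz : ∀ z, MeromorphicAt (fun z : ℂ => z) z := fun z => MeromorphicAt.id z
  have hc : ∀ c : ℂ, ∀ z, MeromorphicAt (fun _ : ℂ => c) z := fun c z => MeromorphicAt.const c z
  let Z : merFun := ⟨fun z => z, hz⟩
  let C : ℂ → merFun := fun c => ⟨fun _ => c, hc c⟩
  let U : merFun := ⟨u, hu⟩
  let W : merFun := ⟨w, hw⟩
  let A : merFun := (∏ j ∈ T, (Z - C (a j))) * W ^ 2
  let B : merFun := ((∏ j ∈ S, (Z - C (a j))) * U ^ 2 - C (3 * e₁ L₀)) ^ 2 -
    C (4 * ((e₂ L₀ - e₁ L₀) * (e₃ L₀ - e₁ L₀)))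
  have hAB : clsHom A = clsHom B := by
    refine cls_congr A.2 B.2 fun z₀ => ?_
    filter_upwards [h z₀] with z hz
    let ev : merFun →+* ℂ := (Pi.evalRingHom (fun _ : ℂ => ℂ) z).comp merFun.subtype
    change ev A = ev B
    simp only [A, B, map_sub, map_mul, map_pow, map_prod]
    exact hz
  refine ⟨clsHom U, clsHom W, ?_⟩
  simp only [A, B, map_sub, map_mul, map_pow, map_prod] at hAB
  exact hAB

theorem data_of_mero {K : Type} [Field K] (τ : Mero →+* K)
    {J : Type} [Fintype J] [DecidableEq J] (a : J → ℝ) (ha : Function.Injective a)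
    (hv : ∀ j, OddM τ (a j)) : Nonempty (Data K J) := by
  classical
  choose Γ oΓ v h1 h2 h3 using hv
  have hne : ∀ j, τ mz - τ (mc (a j)) ≠ 0 := by
    intro j h
    apply h3 j
    rw [h, map_zero]
    exact ⟨0, by rw [mul_zero]⟩
  have hval : ∀ i j, i ≠ j → v j (τ mz - τ (mc (a i))) = 1 := by
    intro i j hij
    have e1 : τ mz - τ (mc (a i)) = (τ mz - τ (mc (a j))) + τ (mc ((a j : ℂ) - a i)) := by
      have : mc ((a j : ℂ) - a i) = mc (a j) - mc (a i) := map_sub mcHom _ _
      rw [this, map_sub]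
      ring
    have e2 : v j (τ (mc ((a j : ℂ) - a i))) = 1 :=
      h1 j _ (sub_ne_zero.2 fun h => hij (ha (Complex.ofReal_injective h)).symm)
    rw [e1, Valuation.map_add_eq_of_lt_right _ (by rw [e2]; exact h2 j), e2]
  have hle : ∀ j (c : ℂ), v j (τ (mc c)) ≤ 1 := by
    intro j c
    by_cases hc : c = 0
    · have : mc c = 0 := by rw [hc]; rfl
      rw [this, map_zero, map_zero]
      exact zero_le_one
    · exact (h1 j c hc).le
  refine ⟨⟨τ (mc (3 * e₁ L₀)), τ (mc (4 * ((e₂ L₀ - e₁ L₀) * (e₃ L₀ - e₁ L₀)))),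
    fun j => Units.mk0 _ (hne j), fun j => Ev (v j), ?_, ?_, ?_, ?_, ?_⟩⟩
  · intro j y
    rw [mem_Ev, Units.val_pow_eq_pow_val, map_pow]
    exact ⟨_, pow_two _⟩
  · intro j h
    exact h3 j ((mem_Ev _ _).1 h)
  · intro i j hij
    rw [mem_Ev, Units.val_mk0, hval i j hij]
    exact IsSquare.one
  · intro j f g h
    refine obs_of_valuation (v j) (hle j _) (hle j _) ?_ f g h
    rw [← map_pow, ← map_sub]
    have : mc (3 * e₁ L₀) ^ 2 - mc (4 * ((e₂ L₀ - e₁ L₀) * (e₃ L₀ - e₁ L₀))) =
        mc ((3 * e₁ L₀) ^ 2 - 4 * ((e₂ L₀ - e₁ L₀) * (e₃ L₀ - e₁ L₀))) := by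
      change mcHom _ ^ 2 - mcHom _ = mcHom _
      rw [← map_pow, ← map_sub]
    rw [this]
    exact h1 j _ (alpha_beta L₀)
  · intro S T hST
    obtain ⟨u, w, h⟩ := sol_mero a ha S T hST
    refine ⟨τ u, τ w, ?_⟩
    have h6 := congrArg τ h
    simp only [map_sub, map_mul, map_pow, map_prod] at h6
    rw [Units.coe_prod, Units.coe_prod]
    simp only [Units.val_mk0]
    exact h6

end Pool.Agent.X237.MF
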