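import Pool.Agent.X237.MF.Small

/-!
Solutions of the elliptic relation with polynomials which have no real zeros.
-/

set_option autoImplicit false

open Polynomial

namespace Pool.Agent.X237.MF

/-- real interpolation of square roots -/
theorem exists_real_sol (S T : Finset ℝ) (hST : Disjoint S T) :
    ∃ s Q : ℂ[X], ((∏ a ∈ S, (X - C (a : ℂ))) * s ^ 2) ^ 2 - 1 =
      (∏ a ∈ T, (X - C (a : ℂ))) * Q ∧ ∀ b : ℝ, Q.eval (b : ℂ) ≠ 0 := by
  classical
  set f : ℝ[X] := ∏ a ∈ S, (X - C a) with hf
  set g : ℝ[X] := ∏ a ∈ T, (X - C a) with hg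
  have hf0 : ∀ a ∈ T, f.eval a ≠ 0 := by
    intro a ha
    rw [hf, eval_prod, Finset.prod_ne_zero_iff]
    intro b hb
    rw [eval_sub, eval_X, eval_C, sub_ne_zero]
    rintro rfl
    exact Finset.disjoint_left.1 hST hb ha
  let s₀ : ℝ[X] := Lagrange.interpolate T id (fun a => (Real.sqrt |f.eval a|)⁻¹)
  have hs₀ : ∀ a ∈ T, s₀.eval a = (Real.sqrt |f.eval a|)⁻¹ := fun a ha =>
    Lagrange.eval_interpolate_at_node _ (Set.injOn_id _) ha
  set p : ℝ[X] := f * s₀ ^ 2 with hp
  have hp1 : ∀ a ∈ T, p.eval a ^ 2 = 1 := by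
    intro a ha
    have h1 : 0 < |f.eval a| := abs_pos.2 (hf0 a ha)
    rw [hp, eval_mul, eval_pow, hs₀ a ha, inv_pow, Real.sq_sqrt h1.le, mul_pow, inv_pow, sq_abs]
    exact mul_inv_cancel₀ (pow_ne_zero 2 (hf0 a ha))
  have hg0 : ∀ b : ℝ, g.eval b = 0 ↔ b ∈ T := by
    intro b
    rw [hg, eval_prod, Finset.prod_eq_zero_iff]
    constructor
    · rintro ⟨a, ha, h⟩
      rw [eval_sub, eval_X, eval_C, sub_eq_zero] at h
      rwa [h]
    · intro hb
      exact ⟨b, hb, by rw [eval_sub, eval_X, eval_C, sub_self]⟩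
  -- complexify
  let φ : ℝ[X] →+* ℂ[X] := mapRingHom (algebraMap ℝ ℂ)
  have hφ : ∀ (q : ℝ[X]) (b : ℝ), (φ q).eval (b : ℂ) = ((q.eval b : ℝ) : ℂ) := by
    intro q b
    rw [show φ q = q.map (algebraMap ℝ ℂ) from rfl, eval_map]
    exact eval₂_at_apply (algebraMap ℝ ℂ) b
  have hφd : ∀ (q : ℝ[X]) (b : ℝ), (derivative (φ q)).eval (b : ℂ) =
      (((derivative q).eval b : ℝ) : ℂ) := by
    intro q b
    rw [show derivative (φ q) = φ (derivative q) from (Polynomial.derivative_map q _)]
    exact hφ _ b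
  have hfφ : φ f = ∏ a ∈ S, (X - C (a : ℂ)) := by
    rw [hf, map_prod]
    refine Finset.prod_congr rfl fun a _ => ?_
    simp [φ]
  have hgφ : φ g = ∏ a ∈ T, (X - C (a : ℂ)) := by
    rw [hg, map_prod]
    refine Finset.prod_congr rfl fun a _ => ?_
    simp [φ]
  let s : ℂ[X] := φ s₀ * (1 + C Complex.I * φ g)
  let P : ℂ[X] := (φ f * s ^ 2) ^ 2 - 1
  have hP : P = (φ p * (1 + C Complex.I * φ g) ^ 2) ^ 2 - 1 := by
    simp only [P, s, hp, map_mul, map_pow]
    ring
  have hPe : ∀ b : ℝ, P.eval (b : ℂ) =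
      ((p.eval b : ℝ) * (1 + Complex.I * (g.eval b : ℝ)) ^ 2) ^ 2 - 1 := by
    intro b
    rw [hP]
    simp only [eval_sub, eval_pow, eval_mul, eval_add, eval_one, eval_C, hφ]
  have hroot : ∀ b : ℝ, b ∉ T → P.eval (b : ℂ) ≠ 0 := by
    intro b hb h
    have hgb : g.eval b ≠ 0 := fun h' => hb ((hg0 b).1 h')
    rw [hPe] at h
    set y : ℝ := g.eval b
    set q : ℝ := p.eval b
    have h1 : ((q : ℂ) * (1 + Complex.I * y) ^ 2 - 1) * ((q : ℂ) * (1 + Complex.I * y) ^ 2 + 1) = 0 := by
      linear_combination h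
    have him : ((q : ℂ) * (1 + Complex.I * y) ^ 2).im = q * (2 * y) := by
      have h2 : (q : ℂ) * (1 + Complex.I * y) ^ 2 =
          ((q * (1 - y ^ 2) : ℝ) : ℂ) + ((q * (2 * y) : ℝ) : ℂ) * Complex.I := by
        push_cast
        linear_combination ((q : ℂ) * y ^ 2) * Complex.I_sq
      rw [h2, Complex.add_im, Complex.ofReal_im, Complex.im_ofReal_mul, Complex.I_im, mul_one, zero_add]
    have h2 : q * (2 * y) = 0 := by
      rcases mul_eq_zero.1 h1 with h3 | h3
      · rw [← him, show (q : ℂ) * (1 + Complex.I * y) ^ 2 = 1 by linear_combination h3]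
        simp
      · rw [← him, show (q : ℂ) * (1 + Complex.I * y) ^ 2 = -1 by linear_combination h3]
        simp
    have h4 : q = 0 := by
      rcases mul_eq_zero.1 h2 with h5 | h5
      · exact h5
      · exact absurd (by linarith : y = 0) hgb
    rw [h4] at h1
    simp at h1
  have hdvd : φ g ∣ P := by
    rw [hgφ]
    refine Finset.prod_dvd_of_coprime ?_ ?_
    · intro a _ b _ hab
      have h1 := Polynomial.pairwise_coprime_X_sub_C (K := ℂ) (s := fun a : ℝ => (a : ℂ))
        Complex.ofReal_injective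
      exact h1 hab
    · intro a ha
      rw [Polynomial.dvd_iff_isRoot, IsRoot, hPe, (hg0 a).2 ha]
      have := hp1 a ha
      simp only [Complex.ofReal_zero, mul_zero, add_zero, one_pow, mul_one]
      exact_mod_cast sub_eq_zero.2 this
  obtain ⟨Q, hQ⟩ := hdvd
  refine ⟨s, Q, ?_, fun b hb => ?_⟩
  · rw [← hfφ, ← hgφ]
    exact hQ
  · by_cases hbT : b ∈ T
    · -- simple zero
      have h1 : (derivative P).eval (b : ℂ) = 0 := by
        rw [hQ, derivative_mul, eval_add, eval_mul, eval_mul, hb, hφ, (hg0 b).2 hbT]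
        simp
      have h2 : (derivative P).eval (b : ℂ) = 2 * (p.eval b : ℝ) *
          (((derivative p).eval b : ℝ) + 2 * (p.eval b : ℝ) * Complex.I *
            ((derivative g).eval b : ℝ)) := by
        rw [hP]
        simp only [derivative_sub, derivative_pow, derivative_mul, derivative_add, derivative_one,
          derivative_C, eval_sub, eval_mul, eval_add, eval_pow, eval_C, eval_one, hφ, hφd,
          eval_zero, (hg0 b).2 hbT]
        simp [-mul_eq_mul_left_iff, -mul_eq_mul_right_iff]
        ring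
      rw [h2] at h1
      have hp0 : p.eval b ≠ 0 := by
        intro h
        have := hp1 b hbT
        rw [h] at this
        simp at this
      have hg' : (derivative g).eval b ≠ 0 := by
        intro h3
        have h4 : g.Separable := by
          rw [hg]
          exact separable_prod_X_sub_C_iff'.2 (Set.injOn_id _)
        obtain ⟨u, v, huv⟩ := h4
        have h5 := congrArg (eval b) huv
        rw [eval_add, eval_mul, eval_mul, (hg0 b).2 hbT, h3] at h5
        simp at h5
      have h3 : (((derivative p).eval b : ℝ) : ℂ) + 2 * (p.eval b : ℝ) * Complex.I *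
            ((derivative g).eval b : ℝ) = 0 := by
        rcases mul_eq_zero.1 h1 with h4 | h4
        · exfalso
          rcases mul_eq_zero.1 h4 with h5 | h5
          · exact two_ne_zero h5
          · exact hp0 (by exact_mod_cast h5)
        · exact h4
      have h4 := congrArg Complex.im h3
      simp at h4
      rcases h4 with h5 | h5
      · exact hp0 h5
      · exact hg' h5
    · apply hroot b hbT
      rw [hQ, eval_mul, hb, mul_zero]

/-- only real nonsquares -/
theorem data_of_real {K : Type} [Field K] [Algebra ℂ K] (x : K)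
    (hB : ∀ c : ℂ, c.im ≠ 0 → IsSquare (x - algebraMap ℂ K c))
    {J : Type} [Fintype J] [DecidableEq J] (a : J → ℂ) (ha : Function.Injective a)
    (hv : ∀ j, OddAt x (a j)) : Nonempty (Data K J) := by
  classical
  have hre : ∀ j, ((a j).re : ℂ) = a j := by
    intro j
    have h1 : (a j).im = 0 := by
      by_contra h
      obtain ⟨Γ, _, v, -, -, h3⟩ := hv j
      obtain ⟨y, hy⟩ := hB (a j) h
      exact h3 ⟨v y, by rw [hy, map_mul]⟩
    apply Complex.ext
    · simp
    · simp [h1]
  have hinj : Function.Injective (fun j => (a j).re) := by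
    intro i j hij
    apply ha
    rw [← hre i, ← hre j]
    exact congrArg _ hij
  refine data_of_oddAt x a ha hv fun S T hST => ?_
  obtain ⟨s, Q, h4, h5⟩ := exists_real_sol (S.image fun j => (a j).re) (T.image fun j => (a j).re)
    (by
      rw [Finset.disjoint_left]
      intro b hb1 hb2
      obtain ⟨i, hi, rfl⟩ := Finset.mem_image.1 hb1
      obtain ⟨j, hj, h⟩ := Finset.mem_image.1 hb2
      exact Finset.disjoint_left.1 hST hi ((hinj h) ▸ hj))
  rw [Finset.prod_image (fun i _ j _ h => hinj h), Finset.prod_image (fun i _ j _ h => hinj h)] at h4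
  simp only [hre] at h4
  refine ⟨s, Q, h4, isSquare_aeval x Q (fun c hc => hB c fun h => ?_)⟩
  refine h5 c.re ?_
  have h6 : (c.re : ℂ) = c := by
    apply Complex.ext
    · simp
    · simp [h]
  rw [h6]
  exact hc

end Pool.Agent.X237.MF
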