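import Pool.Agent.X237.MF.Val

/-!
Solutions of the elliptic relation with polynomials which have no zeros in a small set.
-/

set_option autoImplicit false

open Polynomial

namespace Pool.Agent.X237.MF

section poly

variable {k : Type} [Field k] [IsAlgClosed k]

/-- interpolation of square roots -/
theorem exists_interp (f : k[X]) (T : Finset k) (hT : ∀ a ∈ T, f.eval a ≠ 0) :
    ∃ s₀ m : k[X], f * s₀ ^ 2 - 1 = (∏ a ∈ T, (X - C a)) * m := by
  classical
  choose! r hr using fun a : k => IsAlgClosed.exists_pow_nat_eq (f.eval a)⁻¹ (zero_lt_two)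
  have h1 : (∏ a ∈ T, (X - C a)) ∣ f * (Lagrange.interpolate T id r) ^ 2 - 1 := by
    refine Finset.prod_dvd_of_coprime ?_ ?_
    · intro a _ b _ hab
      exact Polynomial.pairwise_coprime_X_sub_C Function.injective_id hab
    · intro a ha
      rw [Polynomial.dvd_iff_isRoot, IsRoot, eval_sub, eval_mul, eval_pow, eval_one]
      rw [show eval a ((Lagrange.interpolate T id) r) = r a from
        Lagrange.eval_interpolate_at_node r (Set.injOn_id _) ha, hr, mul_inv_cancel₀ (hT a ha),
        sub_self]
  obtain ⟨m, hm⟩ := h1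
  exact ⟨_, m, hm⟩

variable (hk : (2 : k) ≠ 0)
include hk

/-- The key step: `(f s ^ 2) ^ 2 - 1 = g Q` where `Q` has no zero in the small set `B`. -/
theorem exists_sol (f : k[X]) (T : Finset k) (hT : ∀ a ∈ T, f.eval a ≠ 0) (B : Set k)
    (hB : Cardinal.mk B < Cardinal.mk k) :
    ∃ s Q : k[X], (f * s ^ 2) ^ 2 - 1 = (∏ a ∈ T, (X - C a)) * Q ∧ ∀ b ∈ B, Q.eval b ≠ 0 := by
  classical
  obtain ⟨s₀, m, hm⟩ := exists_interp f T hT
  set g : k[X] := ∏ a ∈ T, (X - C a) with hg
  let Φ : k → k[X] := fun b => C (m.eval b) + C (2 * f.eval b * s₀.eval b) * X +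
    C (f.eval b * g.eval b) * X ^ 2
  let Ψ : k → k[X] := fun b => C (f.eval b) * (C (s₀.eval b) + C (g.eval b) * X) ^ 2 + 1
  have hm' : ∀ b, f.eval b * s₀.eval b ^ 2 - 1 = g.eval b * m.eval b := by
    intro b
    have := congrArg (eval b) hm
    simpa using this
  have hΦ : ∀ b, Φ b ≠ 0 := by
    intro b h
    have h0 : m.eval b = 0 := by
      have := congrArg (fun p : k[X] => p.coeff 0) h
      simpa [Φ, coeff_X_pow] using this
    have h1 : 2 * f.eval b * s₀.eval b = 0 := by
      have := congrArg (fun p : k[X] => p.coeff 1) h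
      simp only [Φ, coeff_add, coeff_C_mul, coeff_X_one, coeff_X_pow, coeff_C, coeff_zero] at this
      rw [if_neg (by decide), if_neg (by decide), mul_zero, add_zero, zero_add, mul_one] at this
      exact this
    have h2 := hm' b
    rw [h0, mul_zero] at h2
    have h3 : f.eval b * s₀.eval b = 0 := by
      rcases mul_eq_zero.1 h1 with h4 | h4
      · rcases mul_eq_zero.1 h4 with h5 | h5
        · exact absurd h5 hk
        · rw [h5, zero_mul]
      · rw [h4, mul_zero]
    rw [pow_two, ← mul_assoc, h3, zero_mul, zero_sub] at h2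
    exact one_ne_zero (neg_eq_zero.1 h2)
  have hΨ : ∀ b, Ψ b ≠ 0 := by
    intro b h
    have h0 : f.eval b * s₀.eval b ^ 2 + 1 = 0 := by
      have := congrArg (eval 0) h
      simpa [Ψ] using this
    have h1 : ∀ c, f.eval b * (s₀.eval b + g.eval b * c) ^ 2 + 1 = 0 := by
      intro c
      have := congrArg (eval c) h
      simpa [Ψ] using this
    have hf : f.eval b ≠ 0 := by
      intro h2
      rw [h2, zero_mul, zero_add] at h0
      exact one_ne_zero h0
    by_cases h2 : g.eval b = 0
    · have h3 := hm' b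
      rw [h2, zero_mul] at h3
      apply hk
      linear_combination h0 - h3
    · have h3 := h1 (-(s₀.eval b) / g.eval b)
      rw [mul_div_cancel₀ _ h2, add_neg_cancel, zero_pow two_ne_zero, mul_zero, zero_add] at h3
      exact one_ne_zero h3
  -- choose the constant
  obtain ⟨c, hc⟩ : ∃ c : k, ∀ b ∈ B, (Φ b).eval c ≠ 0 ∧ (Ψ b).eval c ≠ 0 := by
    by_contra hcon
    push Not at hcon
    have hcov : (Set.univ : Set k) ⊆ ⋃ b : B, (((Φ b * Ψ b).roots.toFinset : Finset k) : Set k) := by
      intro c _
      obtain ⟨b, hb, h⟩ := hcon c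
      refine Set.mem_iUnion.2 ⟨⟨b, hb⟩, ?_⟩
      rw [Finset.mem_coe, Multiset.mem_toFinset, mem_roots (mul_ne_zero (hΦ b) (hΨ b)), IsRoot,
        eval_mul]
      by_cases h1 : (Φ b).eval c = 0
      · rw [h1, zero_mul]
      · rw [h h1, mul_zero]
    have h1 : Cardinal.mk (Set.univ : Set k) ≤ Cardinal.mk B * Cardinal.aleph0 := by
      refine (Cardinal.mk_le_mk_of_subset hcov).trans ?_
      refine (Cardinal.mk_iUnion_le_sum_mk).trans ?_
      refine (Cardinal.sum_le_sum _ (fun _ => Cardinal.aleph0) fun i => ?_).trans ?_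
      · exact (Set.Finite.lt_aleph0 (Finset.finite_toSet _)).le
      · rw [Cardinal.sum_const]
        simp
    rw [Cardinal.mk_univ] at h1
    have h2 : Cardinal.aleph0 ≤ Cardinal.mk k := by
      have : Infinite k := IsAlgClosed.instInfinite
      exact Cardinal.infinite_iff.1 this
    rcases le_or_gt Cardinal.aleph0 (Cardinal.mk B) with h3 | h3
    · rw [Cardinal.mul_eq_left h3 h3 (Cardinal.aleph0_ne_zero)] at h1
      exact absurd hB (not_lt.2 h1)
    · -- `B` finite: the union is finite
      have hfin : Finite B := Cardinal.lt_aleph0_iff_finite.1 h3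
      have h4 : (Set.univ : Set k).Finite :=
        (Set.finite_iUnion fun b : B => Finset.finite_toSet _).subset hcov
      have : Infinite k := IsAlgClosed.instInfinite
      exact Set.infinite_univ h4
  refine ⟨s₀ + C c * g, (m + 2 * C c * f * s₀ + C c ^ 2 * f * g) *
    (f * (s₀ + C c * g) ^ 2 + 1), ?_, fun b hb => ?_⟩
  · have h1 : (f * (s₀ + C c * g) ^ 2) ^ 2 - 1 =
        (f * (s₀ + C c * g) ^ 2 - 1) * (f * (s₀ + C c * g) ^ 2 + 1) := by ring
    rw [h1, ← mul_assoc]
    congr 1
    linear_combination hm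
  · obtain ⟨h1, h2⟩ := hc b hb
    rw [eval_mul]
    refine mul_ne_zero ?_ ?_
    · intro h
      apply h1
      simp only [Φ, eval_add, eval_mul, eval_C, eval_X, eval_pow]
      simp only [eval_add, eval_mul, eval_C, eval_pow, eval_ofNat] at h
      linear_combination h
    · intro h
      apply h2
      simp only [Ψ, eval_add, eval_mul, eval_C, eval_X, eval_pow, eval_one]
      simp only [eval_add, eval_mul, eval_C, eval_pow, eval_one] at h
      linear_combination h

end poly

/-- a polynomial all of whose roots are at squares is a square -/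
theorem isSquare_aeval {k K : Type} [Field k] [IsAlgClosed k] [Field K] [Algebra k K] (x : K)
    (Q : k[X]) (hQ : ∀ c, Q.eval c = 0 → IsSquare (x - algebraMap k K c)) :
    IsSquare (aeval x Q) := by
  by_cases hQ0 : Q = 0
  · rw [hQ0, map_zero]
    exact IsSquare.zero
  have h1 := (IsAlgClosed.splits Q).eq_prod_roots
  rw [h1, map_mul, aeval_C]
  obtain ⟨r, hr⟩ := IsAlgClosed.exists_pow_nat_eq Q.leadingCoeff zero_lt_two
  refine IsSquare.mul ⟨algebraMap k K r, by rw [← map_mul, ← pow_two, hr]⟩ ?_
  rw [map_multiset_prod, Multiset.map_map]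
  refine Multiset.prod_induction (fun y : K => IsSquare y) _ (fun _ _ => IsSquare.mul)
    IsSquare.one ?_
  intro y hy
  obtain ⟨c, hc, rfl⟩ := Multiset.mem_map.1 hy
  simp only [Function.comp_apply, map_sub, aeval_X, aeval_C]
  exact hQ c ((mem_roots hQ0).1 hc)

/-- `x - a` has a value which is positive and not divisible by two, for a valuation of `K` which is
trivial on `k` (multiplicative notation: the value is less than one and not a square). -/
def OddAt {k K : Type} [Field k] [Field K] [Algebra k K] (x : K) (a : k) : Prop :=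
  ∃ (Γ : Type) (_ : LinearOrderedCommGroupWithZero Γ) (v : Valuation K Γ),
    (∀ c : k, c ≠ 0 → v (algebraMap k K c) = 1) ∧ v (x - algebraMap k K a) < 1 ∧
      ¬ IsSquare (v (x - algebraMap k K a))

/-- The data of a family of odd points. -/
theorem data_of_oddAt {k K : Type} [Field k] [Field K] [Algebra k K] (x : K)
    {J : Type} [Fintype J] [DecidableEq J] (a : J → k) (ha : Function.Injective a)
    (hv : ∀ j, OddAt x (a j))
    (hsol : ∀ S T : Finset J, Disjoint S T → ∃ s Q : k[X],
      ((∏ j ∈ S, (X - C (a j))) * s ^ 2) ^ 2 - 1 = (∏ j ∈ T, (X - C (a j))) * Q ∧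
        IsSquare (aeval x Q)) :
    Nonempty (Data K J) := by
  classical
  choose Γ oΓ v h1 h2 h3 using hv
  have hne : ∀ j, x - algebraMap k K (a j) ≠ 0 := by
    intro j h
    apply h3 j
    rw [h, map_zero]
    exact ⟨0, by rw [mul_zero]⟩
  have hval : ∀ i j, i ≠ j → v j (x - algebraMap k K (a i)) = 1 := by
    intro i j hij
    have e1 : x - algebraMap k K (a i) = (x - algebraMap k K (a j)) +
        algebraMap k K (a j - a i) := by
      rw [map_sub]
      ring
    have e2 : v j (algebraMap k K (a j - a i)) = 1 :=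
      h1 j _ (sub_ne_zero.2 fun h => hij (ha h).symm)
    rw [e1, Valuation.map_add_eq_of_lt_right _ (by rw [e2]; exact h2 j), e2]
  refine ⟨⟨0, 1, fun j => Units.mk0 _ (hne j), fun j => Ev (v j), ?_, ?_, ?_, ?_, ?_⟩⟩
  · intro j y
    rw [mem_Ev, Units.val_pow_eq_pow_val, map_pow]
    exact ⟨_, pow_two _⟩
  · intro j h
    exact h3 j ((mem_Ev _ _).1 h)
  · intro i j hij
    rw [mem_Ev, Units.val_mk0, hval i j hij]
    exact IsSquare.one
  · intro j f g h
    refine obs_of_valuation (v j) ?_ ?_ ?_ f g h
    · rw [map_zero]; exact zero_le_one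
    · rw [map_one]
    · rw [zero_pow two_ne_zero, zero_sub, Valuation.map_neg, map_one]
  · intro S T hST
    obtain ⟨s, Q, h4, w, hw⟩ := hsol S T hST
    refine ⟨aeval x s, w, ?_⟩
    have h6 := congrArg (aeval x) h4
    simp only [map_sub, map_mul, map_pow, map_prod, map_one, aeval_X, aeval_C] at h6
    rw [Units.coe_prod, Units.coe_prod]
    simp only [Units.val_mk0]
    rw [sub_zero, h6, pow_two, ← hw]

/-- small set of nonsquares -/
theorem data_of_small {k K : Type} [Field k] [IsAlgClosed k] (hk : (2 : k) ≠ 0) [Field K]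
    [Algebra k K] (x : K)
    (hB : Cardinal.mk {c : k | ¬ IsSquare (x - algebraMap k K c)} < Cardinal.mk k)
    {J : Type} [Fintype J] [DecidableEq J] (a : J → k) (ha : Function.Injective a)
    (hv : ∀ j, OddAt x (a j)) : Nonempty (Data K J) := by
  classical
  refine data_of_oddAt x a ha hv fun S T hST => ?_
  obtain ⟨s, Q, h4, h5⟩ := exists_sol hk (∏ j ∈ S, (X - C (a j))) (T.image a) (by
    intro b hb
    obtain ⟨i, hi, rfl⟩ := Finset.mem_image.1 hb
    rw [eval_prod, Finset.prod_ne_zero_iff]
    intro j hj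
    rw [eval_sub, eval_X, eval_C, sub_ne_zero]
    intro h
    exact Finset.disjoint_left.1 hST hj ((ha h) ▸ hi)) _ hB
  rw [Finset.prod_image (fun i _ j _ h => ha h)] at h4
  exact ⟨s, Q, h4, isSquare_aeval x Q (fun c hc => by_contra fun hcB => h5 c hcB hc)⟩

end Pool.Agent.X237.MF
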