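import Pool.Agent.X237.MF.Surj

/-!
Solutions of the elliptic relation by meromorphic functions on the plane.
-/

set_option autoImplicit false

open Filter Topology MeasureTheory PeriodPair

namespace Pool.Agent.X237.MF

/-- points which are no poles of `S`, `W` -/
def Good (L : PeriodPair) (x : ℂ) : Prop := x ∉ L.lattice ∧ x + hf L ∉ L.lattice

theorem good_neg {L : PeriodPair} {x : ℂ} (h : Good L x) : Good L (-x) := by
  refine ⟨fun h1 => h.1 (by simpa using Submodule.neg_mem _ h1), fun h1 => h.2 ?_⟩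
  have h2 := Submodule.sub_mem _ (two_hf L) h1
  rwa [show 2 * hf L - (-x + hf L) = x + hf L by ring] at h2

theorem good_add {L : PeriodPair} {x l : ℂ} (hl : l ∈ L.lattice) (h : Good L x) :
    Good L (x + l) := by
  refine ⟨fun h1 => h.1 ((Submodule.add_mem_iff_left _ hl).1 h1), fun h1 => h.2 ?_⟩
  rw [show x + l + hf L = x + hf L + l by ring] at h1
  exact (Submodule.add_mem_iff_left _ hl).1 h1

theorem good_half {L : PeriodPair} {x : ℂ} (h : Good L x) : Good L (x + hf L) := by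
  refine ⟨h.2, fun h1 => h.1 ?_⟩
  rw [show x + hf L + hf L = x + 2 * hf L by ring] at h1
  exact (Submodule.add_mem_iff_left _ (two_hf L)).1 h1

theorem Sf_lat (L : PeriodPair) {l : ℂ} (hl : l ∈ L.lattice) (z : ℂ) : Sf L (z + l) = Sf L z := by
  rw [Sf, Sf, L.weierstrassP_add_coe z ⟨l, hl⟩, L.derivWeierstrassP_add_coe z ⟨l, hl⟩]

theorem Wf_lat (L : PeriodPair) {l : ℂ} (hl : l ∈ L.lattice) (z : ℂ) : Wf L (z + l) = Wf L z := by
  rw [Wf, Wf, L.weierstrassP_add_coe z ⟨l, hl⟩, show z + l + hf L = z + hf L + l by ring,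
    L.weierstrassP_add_coe (z + hf L) ⟨l, hl⟩]

theorem mero_Sf (L : PeriodPair) (z : ℂ) : MeromorphicAt (Sf L) z := by
  unfold Sf
  have h1 := L.meromorphic_weierstrassP z
  have h2 := L.meromorphic_derivWeierstrassP z
  fun_prop

theorem mero_Wf (L : PeriodPair) (z : ℂ) : MeromorphicAt (Wf L) z := by
  unfold Wf
  have h1 := L.meromorphic_weierstrassP z
  have h2 : MeromorphicAt (fun z => ℘[L] (z + hf L)) z :=
    meromorphicAt_comp_add_const_iff_meromorphicAt.2 (L.meromorphic_weierstrassP (z + hf L))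
  exact h1.sub h2

section

variable (L : PeriodPair) {n : ℕ} (e : Fin (n + 1) → ℝ) (F : Finset (Fin (n + 1)))

/-- the values at the branch points -/
noncomputable def cc (k : Fin (n + 1)) : ℂ := (if k ∈ F then 0 else hf L / 2) + (k : ℕ) * L.ω₂

theorem lat_mem (k : ℕ) : (k : ℂ) * L.ω₂ ∈ L.lattice := by
  have := Submodule.smul_mem L.lattice (k : ℤ) L.ω₂_mem_lattice
  simpa using this

theorem Sf_even_in {k : Fin (n + 1)} (hk : k ∈ F) (o : ℂ) :
    Sf L (cc L F k + -o) = -Sf L (cc L F k + o) := by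
  rw [cc, if_pos hk, zero_add, add_comm, add_comm _ o, Sf_lat L (lat_mem L k),
    Sf_lat L (lat_mem L k), Sf_neg]

theorem Sf_even_out {k : Fin (n + 1)} (hk : k ∉ F) (o : ℂ) :
    Sf L (cc L F k + -o) = Sf L (cc L F k + o) := by
  rw [cc, if_neg hk]
  have h1 : hf L / 2 + (k : ℕ) * L.ω₂ + -o = (-(hf L / 2 + o) + hf L) + (k : ℕ) * L.ω₂ := by ring
  have h2 : hf L / 2 + (k : ℕ) * L.ω₂ + o = (hf L / 2 + o) + (k : ℕ) * L.ω₂ := by ring
  rw [h1, h2, Sf_lat L (lat_mem L k), Sf_lat L (lat_mem L k), Sf_add, Sf_neg, neg_neg]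

theorem Wf_even_in {k : Fin (n + 1)} (hk : k ∈ F) (o : ℂ) :
    Wf L (cc L F k + -o) = Wf L (cc L F k + o) := by
  rw [cc, if_pos hk, zero_add, add_comm, add_comm _ o, Wf_lat L (lat_mem L k),
    Wf_lat L (lat_mem L k), Wf_neg]

theorem Wf_even_out {k : Fin (n + 1)} (hk : k ∉ F) (o : ℂ) :
    Wf L (cc L F k + -o) = -Wf L (cc L F k + o) := by
  rw [cc, if_neg hk]
  have h1 : hf L / 2 + (k : ℕ) * L.ω₂ + -o = (-(hf L / 2 + o) + hf L) + (k : ℕ) * L.ω₂ := by ring
  have h2 : hf L / 2 + (k : ℕ) * L.ω₂ + o = (hf L / 2 + o) + (k : ℕ) * L.ω₂ := by ring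
  rw [h1, h2, Wf_lat L (lat_mem L k), Wf_lat L (lat_mem L k), Wf_add, Wf_neg]

theorem good_cc {k : Fin (n + 1)} {o : ℂ} (h : Good L (cc L F k + o)) :
    Good L (cc L F k + -o) := by
  have hneg := good_neg h
  have h2l : (2 : ℂ) * ((k : ℕ) * L.ω₂) ∈ L.lattice := by
    have := Submodule.add_mem _ (lat_mem L k) (lat_mem L k)
    rwa [← two_mul] at this
  by_cases hk : k ∈ F
  · have h1 := good_add h2l hneg
    have h2 : -(cc L F k + o) + 2 * ((k : ℕ) * L.ω₂) = cc L F k + -o := by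
      rw [cc, if_pos hk]; ring
    rwa [h2] at h1
  · have h1 := good_half (good_add h2l hneg)
    have h2 : -(cc L F k + o) + 2 * ((k : ℕ) * L.ω₂) + hf L = cc L F k + -o := by
      rw [cc, if_neg hk]; ring
    rwa [h2] at h1

theorem cc_ne (i : Fin n) : cc L F i.succ ≠ cc L F i.castSucc := by
  intro h
  have h1 : ∃ r : ℝ, (r : ℂ) * L.ω₁ + L.ω₂ = 0 := by
    unfold cc at h
    simp only [Fin.val_succ, Fin.val_castSucc] at h
    push_cast at h
    unfold hf at h
    split_ifs at h with h2 h3 h3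
    · exact ⟨0, by push_cast; linear_combination h⟩
    · exact ⟨-1 / 4, by push_cast; linear_combination h⟩
    · exact ⟨1 / 4, by push_cast; linear_combination h⟩
    · exact ⟨0, by push_cast; linear_combination h⟩
  obtain ⟨r, hr⟩ := h1
  have h2 := (LinearIndependent.pair_iff.1 L.indep) r 1 (by
    rw [Complex.real_smul, one_smul]
    exact hr)
  exact one_ne_zero h2.2

/-- the polynomial -/
theorem exists_p (he : StrictMono e) : ∃ p : Polynomial ℂ, p ≠ 0 ∧
    ∀ i : Fin n, Ji e i (mid e i) (fun x => p.eval (x : ℂ)) =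
      cc L F i.succ - cc L F i.castSucc := by
  rcases Nat.eq_zero_or_pos n with h | h
  · subst h
    exact ⟨1, one_ne_zero, fun i => i.elim0⟩
  · obtain ⟨p, hp⟩ := surjective_Amap he fun i => cc L F i.succ - cc L F i.castSucc
    refine ⟨p, ?_, fun i => congrFun hp i⟩
    rintro rfl
    rw [map_zero] at hp
    have h1 := congrFun hp ⟨0, h⟩
    exact cc_ne L F ⟨0, h⟩ (sub_eq_zero.1 h1.symm)

/-- product of square roots in the local coordinate -/
noncomputable def BB (F : Finset (Fin (n + 1))) (k : Fin (n + 1)) (ζ : ℂ) : ℂ :=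
  (if k ∈ F then ζ else 1) * ∏ j ∈ F.erase k, sg (e j) ((e k : ℂ) + ζ ^ 2)

theorem BB_neg_in {k : Fin (n + 1)} (hk : k ∈ F) (ζ : ℂ) : BB e F k (-ζ) = -BB e F k ζ := by
  rw [BB, BB, if_pos hk, if_pos hk, neg_sq, neg_mul]

theorem BB_neg_out {k : Fin (n + 1)} (hk : k ∉ F) (ζ : ℂ) : BB e F k (-ζ) = BB e F k ζ := by
  rw [BB, BB, if_neg hk, if_neg hk, neg_sq]

theorem BB_sg (k : Fin (n + 1)) (z : ℂ) : BB e F k (sg (e k) z) = ∏ j ∈ F, sg (e j) z := by
  have h1 : (e k : ℂ) + sg (e k) z ^ 2 = z := by rw [sg_sq, add_sub_cancel]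
  rw [BB, h1]
  by_cases hk : k ∈ F
  · rw [if_pos hk, Finset.mul_prod_erase F (fun j => sg (e j) z) hk]
  · rw [if_neg hk, one_mul, Finset.erase_eq_of_notMem hk]

theorem analyticAt_BB {k : Fin (n + 1)} {ζ : ℂ} (hζ : ζ ∈ Om e k) : AnalyticAt ℂ (BB e F k) ζ := by
  have h1 : AnalyticAt ℂ (fun ζ : ℂ => (e k : ℂ) + ζ ^ 2) ζ := by fun_prop
  have h2 : AnalyticAt ℂ (fun ζ : ℂ => if k ∈ F then ζ else 1) ζ := by
    split_ifs
    · exact analyticAt_id
    · exact analyticAt_const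
  refine h2.mul (Finset.analyticAt_fun_prod _ fun j hj => ?_)
  exact AnalyticAt.comp (g := sg (e j)) (analyticAt_sg (re_ne e (Finset.ne_of_mem_erase hj) hζ)) h1

variable (p : Polynomial ℂ)

/-- the integral in the local coordinate -/
noncomputable def Xk (k : Fin (n + 1)) (ζ : ℂ) : ℂ := cc L F k + ray (Rk e p k) ζ

theorem Xk_neg (k : Fin (n + 1)) (ζ : ℂ) :
    Xk L e F p k (-ζ) = cc L F k + -ray (Rk e p k) ζ := by
  rw [Xk, ray_neg _ (Rk_neg e p k)]

theorem analyticAt_Xk (he : StrictMono e) {k : Fin (n + 1)} {ζ : ℂ} (hζ : ζ ∈ Om e k) :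
    AnalyticAt ℂ (Xk L e F p k) ζ := by
  have h1 : DifferentiableOn ℂ (ray (Rk e p k)) (Om e k) := fun z hz =>
    (hasDerivAt_Ok e p he hz).differentiableAt.differentiableWithinAt
  exact analyticAt_const.add (h1.analyticAt ((isOpen_Om e k).mem_nhds hζ))

theorem Xk_nonconst (he : StrictMono e) (hp : p ≠ 0) {k : Fin (n + 1)} {ζ₀ : ℂ}
    (hζ : ζ₀ ∈ Om e k) : ∀ᶠ ζ in 𝓝[≠] ζ₀, Xk L e F p k ζ ≠ Xk L e F p k ζ₀ := by
  rcases (analyticAt_Xk L e F p he hζ).eventually_eq_or_eventually_ne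
    (analyticAt_const (v := Xk L e F p k ζ₀)) with h | h
  · exfalso
    -- the derivative vanishes near `ζ₀`
    have h1 : ∀ᶠ ζ in 𝓝 ζ₀, (p.comp (Polynomial.X ^ 2 + Polynomial.C (e k : ℂ))).eval ζ = 0 := by
      filter_upwards [h.eventually_nhds, (isOpen_Om e k).mem_nhds hζ] with ζ h2 h3
      have h4 : HasDerivAt (Xk L e F p k) (Rk e p k ζ) ζ :=
        (hasDerivAt_Ok e p he h3).const_add (cc L F k)
      have h5 : HasDerivAt (Xk L e F p k) 0 ζ :=
        (hasDerivAt_const ζ (Xk L e F p k ζ₀)).congr_of_eventuallyEq h2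
      have h6 := h4.unique h5
      rw [Rk, div_eq_zero_iff] at h6
      have h7 := (mul_eq_zero.1 (h6.resolve_right (Dk_ne e h3))).resolve_left two_ne_zero
      rw [Polynomial.eval_comp]
      simp only [Polynomial.eval_add, Polynomial.eval_pow, Polynomial.eval_X, Polynomial.eval_C]
      rwa [add_comm]
    have h2 : (p.comp (Polynomial.X ^ 2 + Polynomial.C (e k : ℂ))) = 0 := by
      refine Polynomial.eq_zero_of_infinite_isRoot _ ?_
      exact infinite_of_mem_nhds ζ₀ h1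
    rw [Polynomial.comp_eq_zero_iff] at h2
    rcases h2 with h2 | ⟨-, h2⟩
    · exact hp h2
    · have h3 := congrArg Polynomial.natDegree h2
      rw [Polynomial.natDegree_C] at h3
      have h4 : (Polynomial.X ^ 2 + Polynomial.C (e k : ℂ)).natDegree = 2 :=
        Polynomial.natDegree_X_pow_add_C
      omega
  · exact h

theorem good_Xk (he : StrictMono e) (hp : p ≠ 0) {k : Fin (n + 1)} {ζ₀ : ℂ}
    (hζ : ζ₀ ∈ Om e k) : ∀ᶠ ζ in 𝓝[≠] ζ₀, Good L (Xk L e F p k ζ) := by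
  have h1 : Tendsto (Xk L e F p k) (𝓝[≠] ζ₀) (𝓝[≠] (Xk L e F p k ζ₀)) := by
    refine tendsto_nhdsWithin_of_tendsto_nhds_of_eventually_within _
      ((analyticAt_Xk L e F p he hζ).continuousAt.tendsto.mono_left nhdsWithin_le_nhds) ?_
    exact Xk_nonconst L e F p he hp hζ
  filter_upwards [h1.eventually (eventually_notMem (L := L) _),
    h1.eventually (eventually_notMem_add (L := L) (hf L) _)] with ζ h2 h3
  exact ⟨h2, h3⟩

/-- `u` in the local coordinate -/
noncomputable def Uk (k : Fin (n + 1)) (ζ : ℂ) : ℂ := Sf L (Xk L e F p k ζ) / BB e F k ζ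

/-- `w` in the local coordinate -/
noncomputable def Wk (k : Fin (n + 1)) (ζ : ℂ) : ℂ := Wf L (Xk L e F p k ζ) / BB e Fᶜ k ζ

theorem Uk_even (k : Fin (n + 1)) (ζ : ℂ) : Uk L e F p k (-ζ) = Uk L e F p k ζ := by
  rw [Uk, Uk, Xk_neg, Xk]
  by_cases hk : k ∈ F
  · rw [Sf_even_in L F hk, BB_neg_in e F hk, neg_div_neg_eq]
  · rw [Sf_even_out L F hk, BB_neg_out e F hk]

theorem Wk_even (k : Fin (n + 1)) (ζ : ℂ) : Wk L e F p k (-ζ) = Wk L e F p k ζ := by
  rw [Wk, Wk, Xk_neg, Xk]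
  by_cases hk : k ∈ F
  · rw [Wf_even_in L F hk, BB_neg_out e Fᶜ (by simpa using hk)]
  · rw [Wf_even_out L F hk, BB_neg_in e Fᶜ (by simpa using hk), neg_div_neg_eq]

theorem mero_Uk (he : StrictMono e) {k : Fin (n + 1)} {ζ : ℂ} (hζ : ζ ∈ Om e k) :
    MeromorphicAt (Uk L e F p k) ζ := by
  refine MeromorphicAt.div ?_ (analyticAt_BB e F hζ).meromorphicAt
  exact MeromorphicAt.comp_analyticAt (mero_Sf L _) (analyticAt_Xk L e F p he hζ)

theorem mero_Wk (he : StrictMono e) {k : Fin (n + 1)} {ζ : ℂ} (hζ : ζ ∈ Om e k) :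
    MeromorphicAt (Wk L e F p k) ζ := by
  refine MeromorphicAt.div ?_ (analyticAt_BB e Fᶜ hζ).meromorphicAt
  exact MeromorphicAt.comp_analyticAt (mero_Wf L _) (analyticAt_Xk L e F p he hζ)

theorem Hk_any (he : StrictMono e) (hJ : ∀ i : Fin n, Ji e i (mid e i)
    (fun x => p.eval (x : ℂ)) = cc L F i.succ - cc L F i.castSucc) {k l : Fin (n + 1)} {z : ℂ}
    (hk : z ∈ V e k) (hl : z ∈ V e l) : Hk e p (cc L F) k z = Hk e p (cc L F) l z := by
  have key : ∀ {k l : Fin (n + 1)}, k < l → z ∈ V e k → z ∈ V e l →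
      Hk e p (cc L F) k z = Hk e p (cc L F) l z := by
    intro k l hkl hk hl
    obtain ⟨i, rfl, rfl⟩ := succ_of_mem hkl hk hl
    refine Hk_match e p he (cc L F) i (mid e i) (mid_lt he i).1 (mid_lt he i).2 (hJ i) ?_ ?_
    · exact hl.1 _ hkl
    · exact hk.2 _ hkl
  rcases lt_trichotomy k l with h | h | h
  · exact key h hk hl
  · rw [h]
  · exact (key h hl hk).symm

/-- The existence of `u` and `w`. -/
theorem exists_uw (he : StrictMono e) : ∃ u w : ℂ → ℂ, (∀ z, MeromorphicAt u z) ∧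
    (∀ z, MeromorphicAt w z) ∧ ∀ z₀, ∀ᶠ z in 𝓝[≠] z₀,
      (∏ j ∈ Fᶜ, (z - (e j : ℂ))) * w z ^ 2 =
        ((∏ j ∈ F, (z - (e j : ℂ))) * u z ^ 2 - 3 * e₁ L) ^ 2 -
          4 * ((e₂ L - e₁ L) * (e₃ L - e₁ L)) := by
  classical
  obtain ⟨p, hp0, hJ⟩ := exists_p L e F he
  choose κ hκ using exists_V he
  let u : ℂ → ℂ := fun z => Uk L e F p (κ z) (sg (e (κ z)) z)
  let w : ℂ → ℂ := fun z => Wk L e F p (κ z) (sg (e (κ z)) z)
  have hu : ∀ k, ∀ z ∈ V e k, u z = Uk L e F p k (sg (e k) z) := by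
    intro k z hz
    have h1 := Hk_any L e F p he hJ (hκ z) hz
    simp only [u, Uk, BB_sg]
    unfold Hk at h1
    rw [Xk, Xk, h1]
  have hw : ∀ k, ∀ z ∈ V e k, w z = Wk L e F p k (sg (e k) z) := by
    intro k z hz
    have h1 := Hk_any L e F p he hJ (hκ z) hz
    simp only [w, Wk, BB_sg]
    unfold Hk at h1
    rw [Xk, Xk, h1]
  refine ⟨u, w, fun z₀ => ?_, fun z₀ => ?_, fun z₀ => ?_⟩
  · have h1 : MeromorphicAt (fun z => Uk L e F p (κ z₀) (sg (e (κ z₀)) z)) z₀ :=
      mero_even (sg_sq (e (κ z₀))) (Uk_even L e F p (κ z₀))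
        (mero_Uk L e F p he (sg_mem_Om e (hκ z₀)))
    refine h1.congr ?_
    filter_upwards [mem_nhdsWithin_of_mem_nhds ((isOpen_V e (κ z₀)).mem_nhds (hκ z₀))] with z hz
    exact (hu _ z hz).symm
  · have h1 : MeromorphicAt (fun z => Wk L e F p (κ z₀) (sg (e (κ z₀)) z)) z₀ :=
      mero_even (sg_sq (e (κ z₀))) (Wk_even L e F p (κ z₀))
        (mero_Wk L e F p he (sg_mem_Om e (hκ z₀)))
    refine h1.congr ?_
    filter_upwards [mem_nhdsWithin_of_mem_nhds ((isOpen_V e (κ z₀)).mem_nhds (hκ z₀))] with z hz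
    exact (hw _ z hz).symm
  · have h1 := tendsto_root (sg_sq (e (κ z₀))) (z₀ := z₀)
      (p := fun ζ => Good L (Xk L e F p (κ z₀) ζ))
      (good_Xk L e F p he hp0 (sg_mem_Om e (hκ z₀))) (fun ζ h => by
        rw [Xk_neg]
        exact good_cc L F h)
    have h2 : ∀ᶠ z in 𝓝[≠] z₀, ∀ j, z ≠ (e j : ℂ) := by
      rw [eventually_all]
      intro j
      by_cases hj : z₀ = (e j : ℂ)
      · rw [← hj]
        exact self_mem_nhdsWithin
      · exact mem_nhdsWithin_of_mem_nhds (isOpen_ne.mem_nhds hj)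
    filter_upwards [h1, h2, mem_nhdsWithin_of_mem_nhds ((isOpen_V e (κ z₀)).mem_nhds (hκ z₀))]
      with z h3 h4 h5
    have h6 := ell_rel L h3.1 h3.2
    have hsq : ∀ G : Finset (Fin (n + 1)), ∏ j ∈ G, (z - (e j : ℂ)) = (∏ j ∈ G, sg (e j) z) ^ 2 := by
      intro G
      rw [← Finset.prod_pow]
      exact Finset.prod_congr rfl fun j _ => (sg_sq _ _).symm
    have hne : ∀ G : Finset (Fin (n + 1)), ∏ j ∈ G, sg (e j) z ≠ 0 := by
      intro G
      refine Finset.prod_ne_zero_iff.2 fun j _ h => h4 j ?_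
      have h7 := sg_sq (e j) z
      rw [h, zero_pow two_ne_zero] at h7
      exact sub_eq_zero.1 h7.symm
    rw [hu _ z h5, hw _ z h5, Uk, Wk, BB_sg, BB_sg, hsq, hsq, div_pow, div_pow,
      mul_div_cancel₀ _ (pow_ne_zero 2 (hne _)), mul_div_cancel₀ _ (pow_ne_zero 2 (hne _))]
    exact h6

end

/-- The existence theorem for two disjoint finite sets of real numbers. -/
theorem exists_mero (L : PeriodPair) (S T : Finset ℝ) (hST : Disjoint S T) :
    ∃ u w : ℂ → ℂ, (∀ z, MeromorphicAt u z) ∧ (∀ z, MeromorphicAt w z) ∧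
      ∀ z₀, ∀ᶠ z in 𝓝[≠] z₀, (∏ a ∈ T, (z - (a : ℂ))) * w z ^ 2 =
        ((∏ a ∈ S, (z - (a : ℂ))) * u z ^ 2 - 3 * e₁ L) ^ 2 -
          4 * ((e₂ L - e₁ L) * (e₃ L - e₁ L)) := by
  classical
  rcases Nat.eq_zero_or_pos (S ∪ T).card with h | h
  · rw [Finset.card_eq_zero, Finset.union_eq_empty] at h
    obtain ⟨rfl, rfl⟩ := h
    obtain ⟨r, hr⟩ := IsAlgClosed.exists_pow_nat_eq
      (4 * ((e₂ L - e₁ L) * (e₃ L - e₁ L))) zero_lt_two
    obtain ⟨v, hv⟩ := IsAlgClosed.exists_pow_nat_eq (3 * e₁ L + r) zero_lt_two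
    refine ⟨fun _ => v, fun _ => 0, fun z => MeromorphicAt.const _ _,
      fun z => MeromorphicAt.const _ _, fun z₀ => Eventually.of_forall fun z => ?_⟩
    simp only [Finset.prod_empty, one_mul]
    rw [hv, ← hr]
    ring
  · obtain ⟨n, hn⟩ : ∃ n, (S ∪ T).card = n + 1 := ⟨_, (Nat.succ_pred_eq_of_pos h).symm⟩
    let e : Fin (n + 1) → ℝ := (S ∪ T).orderEmbOfFin hn
    have he : StrictMono e := ((S ∪ T).orderEmbOfFin hn).strictMono
    let F : Finset (Fin (n + 1)) := Finset.univ.filter fun k => e k ∈ S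
    have hS : F.image e = S := by
      ext a
      simp only [Finset.mem_image, F, Finset.mem_filter, Finset.mem_univ, true_and]
      constructor
      · rintro ⟨k, hk, rfl⟩
        exact hk
      · intro ha
        have h1 : a ∈ Set.range e := by
          rw [show Set.range e = ((S ∪ T : Finset ℝ) : Set ℝ) from
            Finset.range_orderEmbOfFin _ hn]
          exact_mod_cast Finset.mem_union_left _ ha
        obtain ⟨k, rfl⟩ := h1
        exact ⟨k, ha, rfl⟩
    have hT : (Fᶜ).image e = T := by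
      ext a
      simp only [Finset.mem_image, F, Finset.mem_compl, Finset.mem_filter, Finset.mem_univ,
        true_and]
      constructor
      · rintro ⟨k, hk, rfl⟩
        have h1 : e k ∈ S ∪ T := (S ∪ T).orderEmbOfFin_mem hn k
        exact (Finset.mem_union.1 h1).resolve_left hk
      · intro ha
        have h1 : a ∈ Set.range e := by
          rw [show Set.range e = ((S ∪ T : Finset ℝ) : Set ℝ) from
            Finset.range_orderEmbOfFin _ hn]
          exact_mod_cast Finset.mem_union_right _ ha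
        obtain ⟨k, rfl⟩ := h1
        exact ⟨k, fun hk => Finset.disjoint_left.1 hST hk ha, rfl⟩
    obtain ⟨u, w, hu, hw, h1⟩ := exists_uw L e F he
    refine ⟨u, w, hu, hw, fun z₀ => ?_⟩
    filter_upwards [h1 z₀] with z hz
    rw [← hS, ← hT, Finset.prod_image (fun i _ j _ h => he.injective h),
      Finset.prod_image (fun i _ j _ h => he.injective h)]
    exact hz

end Pool.Agent.X237.MF
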