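import Mathlib

/-!
Primitives on star shaped domains, and even functions of a square root.
-/

set_option autoImplicit false

open Filter Topology MeasureTheory intervalIntegral

namespace Pool.Agent.X237.MF

/-- the primitive along rays -/
noncomputable def ray (f : ℂ → ℂ) (ζ : ℂ) : ℂ := ζ * ∫ t in (0 : ℝ)..1, f (t * ζ)

theorem hasDerivAt_ray {Ω : Set ℂ} (hΩ : IsOpen Ω)
    (hstar : ∀ ζ ∈ Ω, ∀ t ∈ Set.Icc (0 : ℝ) 1, (t : ℂ) * ζ ∈ Ω) {f : ℂ → ℂ}
    (hf : DifferentiableOn ℂ f Ω) {ζ : ℂ} (hζ : ζ ∈ Ω) : HasDerivAt (ray f) (f ζ) ζ := by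
  have han : AnalyticOnNhd ℂ f Ω := hf.analyticOnNhd hΩ
  have hcont : ContinuousOn f Ω := hf.continuousOn
  have hd : ContinuousOn (deriv f) Ω := fun z hz => (han z hz).deriv.continuousAt.continuousWithinAt
  have hmul : ∀ ξ ∈ Ω, ContinuousOn (fun t : ℝ => (t : ℂ) * ξ) (Set.Icc 0 1) := fun ξ _ => by
    fun_prop
  have hmaps : ∀ ξ ∈ Ω, Set.MapsTo (fun t : ℝ => (t : ℂ) * ξ) (Set.Icc 0 1) Ω := fun ξ hξ t ht =>
    hstar ξ hξ t ht
  have hc1 : ∀ ξ ∈ Ω, ContinuousOn (fun t : ℝ => f (t * ξ)) (Set.Icc 0 1) := fun ξ hξ =>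
    hcont.comp (hmul ξ hξ) (hmaps ξ hξ)
  have hc2 : ∀ ξ ∈ Ω, ContinuousOn (fun t : ℝ => (t : ℂ) * deriv f (t * ξ)) (Set.Icc 0 1) :=
    fun ξ hξ => ContinuousOn.mul (by fun_prop) (hd.comp (hmul ξ hξ) (hmaps ξ hξ))
  have hi1 : ∀ ξ ∈ Ω, IntervalIntegrable (fun t : ℝ => f (t * ξ)) volume 0 1 := fun ξ hξ =>
    (hc1 ξ hξ).intervalIntegrable_of_Icc zero_le_one
  have hi2 : ∀ ξ ∈ Ω, IntervalIntegrable (fun t : ℝ => (t : ℂ) * deriv f (t * ξ)) volume 0 1 :=
    fun ξ hξ => (hc2 ξ hξ).intervalIntegrable_of_Icc zero_le_one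
  -- a compact neighbourhood
  obtain ⟨r, hr, hball⟩ := Metric.nhds_basis_closedBall.mem_iff.1 (hΩ.mem_nhds hζ)
  have hK : IsCompact ((fun q : ℝ × ℂ => (q.1 : ℂ) * q.2) ''
      (Set.Icc (0 : ℝ) 1 ×ˢ Metric.closedBall ζ r)) :=
    (isCompact_Icc.prod (isCompact_closedBall ζ r)).image (by fun_prop)
  obtain ⟨C, hC⟩ := hK.exists_bound_of_continuousOn (f := deriv f) (hd.mono (by
    rintro _ ⟨⟨t, ξ⟩, ⟨ht, hξ⟩, rfl⟩
    exact hstar ξ (hball hξ) t ht))
  have hder := hasDerivAt_integral_of_dominated_loc_of_deriv_le (𝕜 := ℂ) (μ := volume) (a := 0)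
    (b := 1) (F := fun ξ t => f (t * ξ)) (F' := fun ξ t => (t : ℂ) * deriv f (t * ξ)) (x₀ := ζ)
    (s := Metric.ball ζ r) (bound := fun _ => C) (Metric.ball_mem_nhds ζ hr)
    (by
      filter_upwards [hΩ.mem_nhds hζ] with ξ hξ
      exact (hi1 ξ hξ).aestronglyMeasurable_restrict_uIoc)
    (hi1 ζ hζ) ((hi2 ζ hζ).aestronglyMeasurable_restrict_uIoc)
    (by
      refine ae_of_all _ fun t ht ξ hξ => ?_
      rw [Set.uIoc_of_le zero_le_one] at ht
      have h1 : ‖deriv f (t * ξ)‖ ≤ C := hC _ ⟨(t, ξ), ⟨⟨ht.1.le, ht.2⟩,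
        Metric.ball_subset_closedBall hξ⟩, rfl⟩
      rw [norm_mul]
      have h2 : ‖(t : ℂ)‖ ≤ 1 := by
        rw [Complex.norm_real, Real.norm_of_nonneg ht.1.le]
        exact ht.2
      calc ‖(t : ℂ)‖ * ‖deriv f (t * ξ)‖ ≤ 1 * ‖deriv f (t * ξ)‖ :=
            mul_le_mul_of_nonneg_right h2 (norm_nonneg _)
        _ ≤ C := by rw [one_mul]; exact h1)
    (by simp)
    (by
      refine ae_of_all _ fun t ht ξ hξ => ?_
      rw [Set.uIoc_of_le zero_le_one] at ht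
      have h1 : (t : ℂ) * ξ ∈ Ω :=
        hstar ξ (hball (Metric.ball_subset_closedBall hξ)) t ⟨ht.1.le, ht.2⟩
      have h2 : HasDerivAt (fun x : ℂ => (t : ℂ) * x) (t : ℂ) ξ := by
        simpa using (hasDerivAt_id ξ).const_mul (t : ℂ)
      have h3 := ((han _ h1).differentiableAt.hasDerivAt).comp ξ h2
      rw [mul_comm] at h3
      exact h3)
  have h4 : HasDerivAt (ray f) (1 * (∫ t in (0 : ℝ)..1, f (t * ζ)) +
      ζ * ∫ t in (0 : ℝ)..1, (t : ℂ) * deriv f (t * ζ)) ζ := (hasDerivAt_id ζ).mul hder.2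
  -- the value of the derivative
  have h5 : ∫ t in (0 : ℝ)..1, (f (t * ζ) + ζ * ((t : ℂ) * deriv f (t * ζ))) = f ζ := by
    have h6 : ∀ t ∈ Set.uIcc (0 : ℝ) 1, HasDerivAt (fun t : ℝ => (t : ℂ) * f (t * ζ))
        (f (t * ζ) + ζ * ((t : ℂ) * deriv f (t * ζ))) t := by
      intro t ht
      rw [Set.uIcc_of_le zero_le_one] at ht
      have h7 : HasDerivAt (fun t : ℝ => (t : ℂ)) 1 t := Complex.ofRealCLM.hasDerivAt
      have h8 : HasDerivAt (fun t : ℝ => (t : ℂ) * ζ) ζ t := by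
        simpa using h7.mul_const ζ
      have h9 := ((han _ (hstar ζ hζ t ht)).differentiableAt.hasDerivAt).comp t h8
      have h10 := h7.mul h9
      refine h10.congr_deriv ?_
      simp only [Function.comp_apply]
      ring
    rw [integral_eq_sub_of_hasDerivAt h6
      ((hi1 ζ hζ).add ((hi2 ζ hζ).const_mul ζ))]
    simp
  rw [intervalIntegral.integral_add (hi1 ζ hζ) ((hi2 ζ hζ).const_mul ζ),
    intervalIntegral.integral_const_mul] at h5
  rw [one_mul, h5] at h4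
  exact h4

theorem ray_neg (f : ℂ → ℂ) (hf : ∀ ζ, f (-ζ) = f ζ) (ζ : ℂ) : ray f (-ζ) = -ray f ζ := by
  unfold ray
  have h1 : ∀ t : ℝ, f (t * -ζ) = f (t * ζ) := fun t => by rw [mul_neg, hf]
  simp only [h1]
  ring

/-- principal square root -/
noncomputable def csq (w : ℂ) : ℂ := w ^ (1 / 2 : ℂ)

theorem csq_sq (w : ℂ) : csq w ^ 2 = w := by
  rw [csq, one_div]
  exact Complex.cpow_nat_inv_pow w two_ne_zero

theorem analyticAt_csq {w : ℂ} (hw : w ∈ Complex.slitPlane) : AnalyticAt ℂ csq w :=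
  analyticAt_id.cpow analyticAt_const hw

/-- local branch of a square root -/
theorem exists_branch {ρ : ℂ → ℂ} {e : ℂ} (hρ : ∀ z, ρ z ^ 2 = z - e) {z₀ : ℂ} (hz : z₀ ≠ e) :
    ∃ b : ℂ → ℂ, AnalyticAt ℂ b z₀ ∧ b z₀ = ρ z₀ ∧ ∀ z, ρ z = b z ∨ ρ z = -b z := by
  have hne : z₀ - e ≠ 0 := sub_ne_zero.2 hz
  refine ⟨fun z => ρ z₀ * csq ((z - e) / (z₀ - e)), ?_, ?_, fun z => ?_⟩
  · refine AnalyticAt.mul analyticAt_const ?_
    have h1 : AnalyticAt ℂ (fun z => (z - e) / (z₀ - e)) z₀ := by fun_prop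
    refine AnalyticAt.comp (g := csq) ?_ h1
    refine analyticAt_csq ?_
    simp only [div_self hne]
    exact Complex.one_mem_slitPlane
  · simp only [div_self hne, csq, Complex.one_cpow, mul_one]
  · have h1 : ρ z ^ 2 = (ρ z₀ * csq ((z - e) / (z₀ - e))) ^ 2 := by
      rw [mul_pow, csq_sq, hρ, hρ]
      field_simp
    exact sq_eq_sq_iff_eq_or_eq_neg.1 h1

theorem continuousAt_root {ρ : ℂ → ℂ} {e : ℂ} (hρ : ∀ z, ρ z ^ 2 = z - e) :
    Tendsto ρ (𝓝 e) (𝓝 0) := by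
  rw [tendsto_zero_iff_norm_tendsto_zero]
  have h1 : ∀ z, ‖ρ z‖ = Real.sqrt ‖z - e‖ := by
    intro z
    rw [← hρ z, norm_pow, Real.sqrt_sq (norm_nonneg _)]
  simp only [h1]
  have h2 : Tendsto (fun z : ℂ => Real.sqrt ‖z - e‖) (𝓝 e) (𝓝 (Real.sqrt ‖e - e‖)) :=
    ((Real.continuous_sqrt.comp (continuous_norm.comp (continuous_id.sub continuous_const))).tendsto
      e)
  simpa using h2

/-- even functions of the square root are meromorphic -/
theorem mero_even {ρ : ℂ → ℂ} {e : ℂ} (hρ : ∀ z, ρ z ^ 2 = z - e) {U : ℂ → ℂ}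
    (hU : ∀ ζ, U (-ζ) = U ζ) {z₀ : ℂ} (hm : MeromorphicAt U (ρ z₀)) :
    MeromorphicAt (fun z => U (ρ z)) z₀ := by
  have key : ∀ (P : ℂ → ℂ), (∀ ζ, P (-ζ) = P ζ) → ∀ z₁, z₁ ≠ e →
      ∃ b : ℂ → ℂ, AnalyticAt ℂ b z₁ ∧ b z₁ = ρ z₁ ∧ (fun z => P (ρ z)) = P ∘ b := by
    intro P hP z₁ hz₁
    obtain ⟨b, hb1, hb2, hb3⟩ := exists_branch hρ hz₁
    refine ⟨b, hb1, hb2, ?_⟩
    funext z
    rcases hb3 z with h | h
    · simp only [h, Function.comp_apply]
    · simp only [h, Function.comp_apply, hP]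
  by_cases hz : z₀ = e
  · subst hz
    have h0 : ρ z₀ = 0 := by
      have := hρ z₀
      rw [sub_self] at this
      exact pow_eq_zero_iff two_ne_zero |>.1 this
    rw [h0] at hm
    obtain ⟨n, hn⟩ := hm
    simp only [sub_zero, smul_eq_mul] at hn
    -- the even analytic function
    let P : ℂ → ℂ := fun ζ => ζ ^ (2 * (n + 1)) * U ζ
    have hP : ∀ ζ, P (-ζ) = P ζ := fun ζ => by
      simp only [P]
      rw [hU, pow_mul, neg_sq, ← pow_mul]
    have hPa : AnalyticAt ℂ P 0 := by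
      have h1 : P = fun ζ => ζ ^ (n + 2) * (ζ ^ n * U ζ) := by
        funext ζ
        simp only [P]
        ring
      rw [h1]
      exact (analyticAt_id.pow _).mul hn
    refine ⟨n + 1, ?_⟩
    have h2 : (fun z => (z - z₀) ^ (n + 1) • U (ρ z)) = fun z => P (ρ z) := by
      funext z
      simp only [P, smul_eq_mul]
      rw [pow_mul, hρ]
    rw [h2]
    refine Complex.analyticAt_of_differentiable_on_punctured_nhds_of_continuousAt ?_ ?_
    · have h3 : ∀ᶠ ζ in 𝓝 (0 : ℂ), AnalyticAt ℂ P ζ := hPa.eventually_analyticAt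
      have h4 := (continuousAt_root hρ).eventually h3
      filter_upwards [mem_nhdsWithin_of_mem_nhds h4, self_mem_nhdsWithin] with z hz1 hz2
      obtain ⟨b, hb1, hb2, hb3⟩ := key P hP z hz2
      rw [hb3]
      have h5 : AnalyticAt ℂ P (b z) := by rw [hb2]; exact hz1
      exact (h5.comp hb1).differentiableAt
    · have h3 : Tendsto P (𝓝 0) (𝓝 (P 0)) := hPa.continuousAt.tendsto
      have h4 := h3.comp (continuousAt_root hρ)
      change Tendsto (fun z => P (ρ z)) (𝓝 z₀) (𝓝 (P (ρ z₀)))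
      rw [h0]
      exact h4
  · obtain ⟨b, hb1, hb2, hb3⟩ := key U hU z₀ hz
    rw [hb3]
    refine MeromorphicAt.comp_analyticAt ?_ hb1
    rw [hb2]
    exact hm

/-- punctured neighbourhoods are preserved by the square root -/
theorem tendsto_root {ρ : ℂ → ℂ} {e : ℂ} (hρ : ∀ z, ρ z ^ 2 = z - e) {z₀ : ℂ} {p : ℂ → Prop}
    (hp : ∀ᶠ ζ in 𝓝[≠] (ρ z₀), p ζ) (hp' : ∀ ζ, p ζ → p (-ζ)) :
    ∀ᶠ z in 𝓝[≠] z₀, p (ρ z) := by
  by_cases hz : z₀ = e
  · subst hz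
    have h0 : ρ z₀ = 0 := by
      have := hρ z₀
      rw [sub_self] at this
      exact pow_eq_zero_iff two_ne_zero |>.1 this
    rw [h0] at hp
    have h1 : Tendsto ρ (𝓝[≠] z₀) (𝓝[≠] 0) := by
      refine tendsto_nhdsWithin_of_tendsto_nhds_of_eventually_within _
        ((continuousAt_root hρ).mono_left nhdsWithin_le_nhds) ?_
      filter_upwards [self_mem_nhdsWithin] with z hz h
      apply hz
      have h2 := hρ z
      rw [Set.mem_singleton_iff.1 h, zero_pow two_ne_zero] at h2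
      exact (sub_eq_zero.1 h2.symm)
    exact h1.eventually hp
  · obtain ⟨b, hb1, hb2, hb3⟩ := exists_branch hρ hz
    have h1 : Tendsto b (𝓝[≠] z₀) (𝓝[≠] (ρ z₀)) := by
      rw [← hb2]
      refine tendsto_nhdsWithin_of_tendsto_nhds_of_eventually_within _
        (hb1.continuousAt.tendsto.mono_left nhdsWithin_le_nhds) ?_
      filter_upwards [self_mem_nhdsWithin] with z hz' h
      apply hz'
      have h2 : b z = b z₀ := h
      have h3 : ρ z ^ 2 = b z ^ 2 := by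
        rcases hb3 z with h | h <;> rw [h]
        ring
      have h4 : ρ z₀ ^ 2 = b z₀ ^ 2 := by rw [hb2]
      rw [hρ] at h3 h4
      have h5 : z - e = z₀ - e := by rw [h3, h4, h2]
      exact sub_left_injective h5
    filter_upwards [h1.eventually hp] with z h2
    rcases hb3 z with h | h
    · rw [h]; exact h2
    · rw [h]; exact hp' _ h2

end Pool.Agent.X237.MF
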