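import Pool.Agent.X237.MF.Star
import Pool.Agent.X237.MF.Ell

/-!
The multivalued integral of `p / √D` for a polynomial `D` with real simple roots, on strips.
-/

set_option autoImplicit false

open Filter Topology MeasureTheory

namespace Pool.Agent.X237.MF

/-- a branch of `√(z - a)`, holomorphic outside of the line `Re z = a` -/
noncomputable def sg (a : ℝ) (z : ℂ) : ℂ :=
  if a < z.re then csq (z - a) else Complex.I * csq (a - z)

theorem sg_sq (a : ℝ) (z : ℂ) : sg a z ^ 2 = z - a := by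
  unfold sg
  split_ifs
  · exact csq_sq _
  · rw [mul_pow, csq_sq, Complex.I_sq]
    ring

theorem sg_ne {a : ℝ} {z : ℂ} (h : z.re ≠ a) : sg a z ≠ 0 := by
  intro h0
  have h1 := sg_sq a z
  rw [h0, zero_pow two_ne_zero] at h1
  apply h
  have h2 : z = a := sub_eq_zero.1 h1.symm
  rw [h2, Complex.ofReal_re]

theorem analyticAt_sg_right {a : ℝ} {z : ℂ} (h : a < z.re) : AnalyticAt ℂ (sg a) z := by
  have h1 : sg a =ᶠ[𝓝 z] fun w => csq (w - a) := by
    filter_upwards [(isOpen_lt continuous_const Complex.continuous_re).mem_nhds h] with w hw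
    exact if_pos hw
  refine AnalyticAt.congr ?_ h1.symm
  have h2 : AnalyticAt ℂ (fun w : ℂ => w - a) z := by fun_prop
  refine AnalyticAt.comp (g := csq) (analyticAt_csq ?_) h2
  left
  rw [Complex.sub_re, Complex.ofReal_re]
  linarith

theorem analyticAt_sg_left {a : ℝ} {z : ℂ} (h : z.re < a) : AnalyticAt ℂ (sg a) z := by
  have h1 : sg a =ᶠ[𝓝 z] fun w => Complex.I * csq (a - w) := by
    filter_upwards [(isOpen_lt Complex.continuous_re continuous_const).mem_nhds h] with w hw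
    exact if_neg (not_lt.2 (le_of_lt hw))
  refine AnalyticAt.congr ?_ h1.symm
  have h2 : AnalyticAt ℂ (fun w : ℂ => (a : ℂ) - w) z := by fun_prop
  refine AnalyticAt.mul analyticAt_const ?_
  refine AnalyticAt.comp (g := csq) (analyticAt_csq ?_) h2
  left
  rw [Complex.sub_re, Complex.ofReal_re]
  linarith

theorem analyticAt_sg {a : ℝ} {z : ℂ} (h : z.re ≠ a) : AnalyticAt ℂ (sg a) z := by
  rcases lt_or_gt_of_ne h with h | h
  · exact analyticAt_sg_left h
  · exact analyticAt_sg_right h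

theorem hasDerivAt_sg {a : ℝ} {z : ℂ} (h : z.re ≠ a) : HasDerivAt (sg a) (1 / (2 * sg a z)) z := by
  have h1 := (analyticAt_sg h).differentiableAt.hasDerivAt
  have h2 := h1.pow 2
  have h3 : HasDerivAt (fun z : ℂ => z - (a : ℂ)) 1 z := (hasDerivAt_id z).sub_const _
  have h4 : (sg a) ^ 2 = fun z : ℂ => z - (a : ℂ) := funext fun z => sg_sq a z
  rw [h4] at h2
  have h5 := h2.unique h3
  have h6 : deriv (sg a) z = 1 / (2 * sg a z) := by
    rw [eq_div_iff (mul_ne_zero two_ne_zero (sg_ne h))]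
    simp only [Nat.cast_ofNat, Nat.add_one_sub_one, pow_one] at h5
    linear_combination h5
  rw [← h6]
  exact h1

theorem csq_ofReal {x : ℝ} (hx : 0 ≤ x) : csq x = Real.sqrt x := by
  rw [csq, Real.sqrt_eq_rpow, Complex.ofReal_cpow hx]
  norm_num

theorem sg_ofReal (a x : ℝ) :
    sg a x = (Real.sqrt (x - a) : ℂ) + Complex.I * (Real.sqrt (a - x) : ℂ) := by
  unfold sg
  rw [Complex.ofReal_re]
  split_ifs with h
  · rw [Real.sqrt_eq_zero_of_nonpos (by linarith : a - x ≤ 0), ← Complex.ofReal_sub,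
      csq_ofReal (by linarith)]
    simp
  · rw [Real.sqrt_eq_zero_of_nonpos (by linarith : x - a ≤ 0), ← Complex.ofReal_sub,
      csq_ofReal (by linarith)]
    simp

theorem continuous_sg_ofReal (a : ℝ) : Continuous (fun x : ℝ => sg a x) := by
  simp only [sg_ofReal]
  have h1 : Continuous fun x : ℝ => Real.sqrt (x - a) := by fun_prop
  have h2 : Continuous fun x : ℝ => Real.sqrt (a - x) := by fun_prop
  fun_prop

section

variable {n : ℕ} (e : Fin (n + 1) → ℝ)

/-- the strips -/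
def V (k : Fin (n + 1)) : Set ℂ := {z | (∀ j < k, e j < z.re) ∧ ∀ j > k, z.re < e j}

theorem isOpen_V (k : Fin (n + 1)) : IsOpen (V e k) := by
  have h1 : V e k = (⋂ j : {j // j < k}, {z : ℂ | e j < z.re}) ∩
      ⋂ j : {j // j > k}, {z : ℂ | z.re < e j} := by
    ext z
    simp [V]
  rw [h1]
  refine IsOpen.inter (isOpen_iInter_of_finite fun j => ?_) (isOpen_iInter_of_finite fun j => ?_)
  · exact isOpen_lt continuous_const Complex.continuous_re
  · exact isOpen_lt Complex.continuous_re continuous_const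

variable {e}

theorem exists_V (he : StrictMono e) (z : ℂ) : ∃ k, z ∈ V e k := by
  classical
  by_cases h : ∃ j, z.re ≤ e j
  · -- the least such `j`
    obtain ⟨k, hk, hmin⟩ := WellFounded.has_min (wellFounded_lt (α := Fin (n + 1)))
      {j | z.re ≤ e j} h
    refine ⟨k, fun j hj => ?_, fun j hj => lt_of_le_of_lt hk (he hj)⟩
    by_contra hcon
    exact hmin j (not_lt.1 hcon) hj
  · push Not at h
    refine ⟨Fin.last n, fun j _ => h j, fun j hj => absurd (Fin.le_last j) (not_le.2 hj)⟩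

/-- points in two strips lie between consecutive points -/
theorem succ_of_mem {k l : Fin (n + 1)} (hkl : k < l) {z : ℂ} (hk : z ∈ V e k) (hl : z ∈ V e l) :
    ∃ i : Fin n, k = i.castSucc ∧ l = i.succ := by
  have h1 : (k : ℕ) + 1 = l := by
    by_contra hne
    have h2 : (k : ℕ) < l := hkl
    have h3 : (k : ℕ) + 1 < n + 1 := by omega
    have h4 : k < (⟨(k : ℕ) + 1, h3⟩ : Fin (n + 1)) := by
      rw [Fin.lt_def]; simp
    have h5 : (⟨(k : ℕ) + 1, h3⟩ : Fin (n + 1)) < l := by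
      rw [Fin.lt_def]; simp only []; omega
    exact lt_asymm (hk.2 _ h4) (hl.1 _ h5)
  have h2 : (k : ℕ) < n := by omega
  exact ⟨⟨k, h2⟩, Fin.ext (by simp), Fin.ext (by simp [h1])⟩

variable (e)

/-- the product of the other square roots -/
noncomputable def Dk (k : Fin (n + 1)) (z : ℂ) : ℂ := ∏ j ∈ Finset.univ.erase k, sg (e j) z

theorem re_ne {k j : Fin (n + 1)} (hj : j ≠ k) {z : ℂ} (hz : z ∈ V e k) : z.re ≠ e j := by
  rcases lt_or_gt_of_ne hj with h | h
  · exact (hz.1 j h).ne'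
  · exact (hz.2 j h).ne

theorem Dk_ne {k : Fin (n + 1)} {z : ℂ} (hz : z ∈ V e k) : Dk e k z ≠ 0 :=
  Finset.prod_ne_zero_iff.2 fun _ hj => sg_ne (re_ne e (Finset.ne_of_mem_erase hj) hz)

theorem analyticAt_Dk {k : Fin (n + 1)} {z : ℂ} (hz : z ∈ V e k) : AnalyticAt ℂ (Dk e k) z := by
  unfold Dk
  exact Finset.analyticAt_fun_prod _ fun j hj => analyticAt_sg (re_ne e (Finset.ne_of_mem_erase hj) hz)

/-- domain of the square root at `e k` -/
def Om (k : Fin (n + 1)) : Set ℂ := {ζ | (e k : ℂ) + ζ ^ 2 ∈ V e k}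

theorem isOpen_Om (k : Fin (n + 1)) : IsOpen (Om e k) :=
  (isOpen_V e k).preimage (by fun_prop)

omit e in
theorem cvx {a b r s : ℝ} (h1 : a < b) (h2 : a < b + r) (hs0 : 0 ≤ s) (hs1 : s ≤ 1) :
    a < b + s * r := by
  rcases hs0.eq_or_lt with h | h
  · rw [← h, zero_mul, add_zero]
    exact h1
  · have h3 : 0 < s * (b + r - a) := mul_pos h (by linarith)
    have h4 : 0 ≤ (1 - s) * (b - a) := mul_nonneg (by linarith) (by linarith)
    nlinarith

theorem star_Om (he : StrictMono e) (k : Fin (n + 1)) :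
    ∀ ζ ∈ Om e k, ∀ t ∈ Set.Icc (0 : ℝ) 1, (t : ℂ) * ζ ∈ Om e k := by
  intro ζ hζ t ht
  have h1 : ((e k : ℂ) + ((t : ℂ) * ζ) ^ 2).re = e k + t ^ 2 * (ζ ^ 2).re := by
    rw [mul_pow, ← Complex.ofReal_pow, Complex.add_re, Complex.ofReal_re, Complex.re_ofReal_mul]
  have h2 : ((e k : ℂ) + ζ ^ 2).re = e k + (ζ ^ 2).re := by
    rw [Complex.add_re, Complex.ofReal_re]
  have ht2 : t ^ 2 ≤ 1 := pow_le_one₀ ht.1 ht.2
  have ht0 : 0 ≤ t ^ 2 := sq_nonneg t
  constructor
  · intro j hj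
    have h3 := hζ.1 j hj
    have h4 := he hj
    rw [h1]
    rw [h2] at h3
    exact cvx h4 h3 ht0 ht2
  · intro j hj
    have h3 := hζ.2 j hj
    have h4 := he hj
    rw [h1]
    rw [h2] at h3
    have h5 := cvx (a := -e j) (b := -e k) (r := -(ζ ^ 2).re) (neg_lt_neg h4) (by linarith)
      ht0 ht2
    linarith

variable (p : Polynomial ℂ)

/-- the integrand -/
noncomputable def Rk (k : Fin (n + 1)) (ζ : ℂ) : ℂ :=
  2 * p.eval ((e k : ℂ) + ζ ^ 2) / Dk e k ((e k : ℂ) + ζ ^ 2)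

theorem Rk_neg (k : Fin (n + 1)) (ζ : ℂ) : Rk e p k (-ζ) = Rk e p k ζ := by
  unfold Rk
  rw [neg_sq]

theorem analyticAt_Rk {k : Fin (n + 1)} {ζ : ℂ} (hζ : ζ ∈ Om e k) :
    AnalyticAt ℂ (Rk e p k) ζ := by
  have h1 : AnalyticAt ℂ (fun ζ : ℂ => (e k : ℂ) + ζ ^ 2) ζ := by fun_prop
  have h2 : AnalyticAt ℂ (fun z : ℂ => p.eval z) ((e k : ℂ) + ζ ^ 2) :=
    (p.differentiable.analyticAt _)
  have h3 : AnalyticAt ℂ (fun ζ : ℂ => p.eval ((e k : ℂ) + ζ ^ 2)) ζ :=
    AnalyticAt.comp (g := fun z : ℂ => p.eval z) h2 h1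
  have h4 : AnalyticAt ℂ (fun ζ : ℂ => Dk e k ((e k : ℂ) + ζ ^ 2)) ζ :=
    AnalyticAt.comp (g := Dk e k) (analyticAt_Dk e hζ) h1
  exact (analyticAt_const.mul h3).div h4 (Dk_ne e hζ)

theorem hasDerivAt_Ok (he : StrictMono e) {k : Fin (n + 1)} {ζ : ℂ} (hζ : ζ ∈ Om e k) :
    HasDerivAt (ray (Rk e p k)) (Rk e p k ζ) ζ :=
  hasDerivAt_ray (isOpen_Om e k) (star_Om e he k)
    (fun z hz => (analyticAt_Rk e p hz).differentiableAt.differentiableWithinAt) hζ

theorem sg_mem_Om {k : Fin (n + 1)} {z : ℂ} (hz : z ∈ V e k) : sg (e k) z ∈ Om e k := by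
  change (e k : ℂ) + sg (e k) z ^ 2 ∈ V e k
  rw [sg_sq, add_sub_cancel]
  exact hz

/-- the multivalued integral on the strip -/
noncomputable def Hk (c : Fin (n + 1) → ℂ) (k : Fin (n + 1)) (z : ℂ) : ℂ :=
  c k + ray (Rk e p k) (sg (e k) z)

theorem hasDerivAt_Hk (he : StrictMono e) (c : Fin (n + 1) → ℂ) {k : Fin (n + 1)} {z : ℂ}
    (hz : z ∈ V e k) (hne : z.re ≠ e k) :
    HasDerivAt (Hk e p c k) (p.eval z / ∏ j, sg (e j) z) z := by
  have h1 := (hasDerivAt_Ok e p he (sg_mem_Om e hz)).comp z (hasDerivAt_sg hne)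
  have h2 := h1.const_add (c k)
  refine h2.congr_deriv ?_
  have h3 : (e k : ℂ) + sg (e k) z ^ 2 = z := by rw [sg_sq, add_sub_cancel]
  rw [Rk, h3, ← Finset.mul_prod_erase Finset.univ (fun j => sg (e j) z) (Finset.mem_univ k)]
  change _ = p.eval z / (sg (e k) z * Dk e k z)
  have h4 := Dk_ne e hz
  have h5 := sg_ne hne
  field_simp

/-- the linear functional -/
noncomputable def Ji (i : Fin n) (m : ℝ) (φ : ℝ → ℂ) : ℂ :=
  sg (e i.castSucc) m * (∫ t in (0 : ℝ)..1, 2 * φ (e i.castSucc + t ^ 2 * (m - e i.castSucc)) /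
    Dk e i.castSucc ((e i.castSucc + t ^ 2 * (m - e i.castSucc) : ℝ) : ℂ)) -
  sg (e i.succ) m * ∫ t in (0 : ℝ)..1, 2 * φ (e i.succ + t ^ 2 * (m - e i.succ)) /
    Dk e i.succ ((e i.succ + t ^ 2 * (m - e i.succ) : ℝ) : ℂ)

theorem ray_sg (k : Fin (n + 1)) (m : ℝ) :
    ray (Rk e p k) (sg (e k) m) = sg (e k) m * ∫ t in (0 : ℝ)..1,
      2 * p.eval ((e k + t ^ 2 * (m - e k) : ℝ) : ℂ) / Dk e k ((e k + t ^ 2 * (m - e k) : ℝ) : ℂ) := by
  unfold ray Rk
  congr 1
  refine intervalIntegral.integral_congr fun t _ => ?_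
  have h1 : (e k : ℂ) + ((t : ℂ) * sg (e k) m) ^ 2 = ((e k + t ^ 2 * (m - e k) : ℝ) : ℂ) := by
    rw [mul_pow, sg_sq]
    push_cast
    ring
  simp only [h1]

theorem between_mem_V (he : StrictMono e) {i : Fin n} {z : ℂ} (h1 : e i.castSucc < z.re)
    (h2 : z.re < e i.succ) : z ∈ V e i.castSucc ∧ z ∈ V e i.succ := by
  refine ⟨⟨fun j hj => (he hj).trans h1, fun j hj => ?_⟩, fun j hj => ?_, fun j hj =>
    h2.trans (he hj)⟩
  · refine h2.trans_le (he.monotone ?_)
    rw [Fin.le_def]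
    have h3 : (i.castSucc : ℕ) < j := hj
    simp only [Fin.val_castSucc, Fin.val_succ] at h3 ⊢
    omega
  · refine lt_of_le_of_lt (he.monotone ?_) h1
    rw [Fin.le_def]
    have h3 : (j : ℕ) < i.succ := hj
    simp only [Fin.val_castSucc, Fin.val_succ] at h3 ⊢
    omega

/-- matching of the integrals on neighbouring strips -/
theorem Hk_match (he : StrictMono e) (c : Fin (n + 1) → ℂ) (i : Fin n) (m : ℝ)
    (hm1 : e i.castSucc < m) (hm2 : m < e i.succ)
    (hJ : Ji e i m (fun x => p.eval (x : ℂ)) = c i.succ - c i.castSucc) {z : ℂ}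
    (hz1 : e i.castSucc < z.re) (hz2 : z.re < e i.succ) :
    Hk e p c i.castSucc z = Hk e p c i.succ z := by
  let S : Set ℂ := {z | e i.castSucc < z.re ∧ z.re < e i.succ}
  have hS : IsOpen S := (isOpen_lt continuous_const Complex.continuous_re).inter
    (isOpen_lt Complex.continuous_re continuous_const)
  have hconv : Convex ℝ S := by
    have h1 : S = Complex.re ⁻¹' Set.Ioo (e i.castSucc) (e i.succ) := rfl
    rw [h1]
    exact (convex_Ioo _ _).linear_preimage Complex.reLm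
  have hder : ∀ w ∈ S, HasDerivAt (fun w => Hk e p c i.castSucc w - Hk e p c i.succ w) 0 w := by
    intro w hw
    obtain ⟨h1, h2⟩ := between_mem_V e he hw.1 hw.2
    have h3 := (hasDerivAt_Hk e p he c h1 hw.1.ne').sub (hasDerivAt_Hk e p he c h2 hw.2.ne)
    rw [sub_self] at h3
    exact h3
  have hconst : Hk e p c i.castSucc z - Hk e p c i.succ z =
      Hk e p c i.castSucc m - Hk e p c i.succ m := by
    refine hconv.is_const_of_fderivWithin_eq_zero (𝕜 := ℂ) (f := fun w => Hk e p c i.castSucc w -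
      Hk e p c i.succ w) (fun w hw => (hder w hw).differentiableAt.differentiableWithinAt) ?_
      (show z ∈ S from ⟨hz1, hz2⟩) (show (m : ℂ) ∈ S from ⟨by simpa using hm1, by simpa using hm2⟩)
    intro w hw
    rw [fderivWithin_of_isOpen hS hw]
    have := (hder w hw).hasFDerivAt.fderiv
    rw [this]
    ext
    simp
  have h0 : Hk e p c i.castSucc m - Hk e p c i.succ m = 0 := by
    unfold Hk
    rw [ray_sg, ray_sg]
    unfold Ji at hJ
    linear_combination hJ
  rw [h0] at hconst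
  exact sub_eq_zero.1 hconst

end

end Pool.Agent.X237.MF
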