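import Pool.Agent.X237.MF.Strip

/-!
The linear functionals `Ji` are independent on polynomials.
-/

set_option autoImplicit false

open Filter Topology MeasureTheory

namespace Pool.Agent.X237.MF

section

variable {n : ℕ} (e : Fin (n + 1) → ℝ)

/-- midpoints -/
noncomputable def mid (i : Fin n) : ℝ := (e i.castSucc + e i.succ) / 2

/-- one half of the functional -/
noncomputable def half (k : Fin (n + 1)) (m : ℝ) (φ : ℝ → ℂ) : ℂ :=
  ∫ t in (0 : ℝ)..1, 2 * φ (e k + t ^ 2 * (m - e k)) / Dk e k ((e k + t ^ 2 * (m - e k) : ℝ) : ℂ)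

theorem Ji_eq (i : Fin n) (m : ℝ) (φ : ℝ → ℂ) : Ji e i m φ =
    sg (e i.castSucc) m * half e i.castSucc m φ - sg (e i.succ) m * half e i.succ m φ := rfl

variable {e}

theorem mem_V_of (he : StrictMono e) (k : Fin (n + 1)) {m : ℝ} (hm : (m : ℂ) ∈ V e k) {t : ℝ}
    (ht : t ∈ Set.Icc (0 : ℝ) 1) : ((e k + t ^ 2 * (m - e k) : ℝ) : ℂ) ∈ V e k := by
  have ht2 : t ^ 2 ≤ 1 := pow_le_one₀ ht.1 ht.2
  have ht0 : 0 ≤ t ^ 2 := sq_nonneg t
  constructor
  · intro j hj
    have h3 := hm.1 j hj
    rw [Complex.ofReal_re] at h3 ⊢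
    exact cvx (he hj) (by linarith) ht0 ht2
  · intro j hj
    have h3 := hm.2 j hj
    rw [Complex.ofReal_re] at h3 ⊢
    have h5 := cvx (a := -e j) (b := -e k) (r := -(m - e k)) (neg_lt_neg (he hj)) (by linarith)
      ht0 ht2
    linarith

theorem continuous_Dk (k : Fin (n + 1)) : Continuous fun x : ℝ => Dk e k (x : ℂ) := by
  unfold Dk
  exact continuous_finsetProd _ fun j _ => continuous_sg_ofReal (e j)

theorem cont_integrand (he : StrictMono e) (k : Fin (n + 1)) {m : ℝ} (hm : (m : ℂ) ∈ V e k)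
    {φ : ℝ → ℂ} (hφ : Continuous φ) :
    ContinuousOn (fun t : ℝ => 2 * φ (e k + t ^ 2 * (m - e k)) /
      Dk e k ((e k + t ^ 2 * (m - e k) : ℝ) : ℂ)) (Set.Icc 0 1) := by
  refine ContinuousOn.div ?_ ?_ fun t ht => Dk_ne e (mem_V_of he k hm ht)
  · have : Continuous fun t : ℝ => φ (e k + t ^ 2 * (m - e k)) := hφ.comp (by fun_prop)
    fun_prop
  · have : Continuous fun t : ℝ => Dk e k ((e k + t ^ 2 * (m - e k) : ℝ) : ℂ) :=
      (continuous_Dk k).comp (by fun_prop : Continuous fun t : ℝ => e k + t ^ 2 * (m - e k))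
    exact this.continuousOn

theorem half_add (he : StrictMono e) (k : Fin (n + 1)) {m : ℝ} (hm : (m : ℂ) ∈ V e k)
    {φ ψ : ℝ → ℂ} (hφ : Continuous φ) (hψ : Continuous ψ) :
    half e k m (fun x => φ x + ψ x) = half e k m φ + half e k m ψ := by
  unfold half
  rw [← intervalIntegral.integral_add
    ((cont_integrand he k hm hφ).intervalIntegrable_of_Icc zero_le_one)
    ((cont_integrand he k hm hψ).intervalIntegrable_of_Icc zero_le_one)]
  refine intervalIntegral.integral_congr fun t _ => ?_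
  simp only []
  ring

theorem half_smul (k : Fin (n + 1)) (m : ℝ) (c : ℂ) (φ : ℝ → ℂ) :
    half e k m (fun x => c * φ x) = c * half e k m φ := by
  unfold half
  rw [← intervalIntegral.integral_const_mul]
  refine intervalIntegral.integral_congr fun t _ => ?_
  simp only []
  ring

theorem half_bound (he : StrictMono e) (k : Fin (n + 1)) {m : ℝ} (hm : (m : ℂ) ∈ V e k) :
    ∃ C : ℝ, 0 ≤ C ∧ ∀ (φ : ℝ → ℂ) (B : ℝ), 0 ≤ B →
      (∀ t ∈ Set.Icc (0 : ℝ) 1, ‖φ (e k + t ^ 2 * (m - e k))‖ ≤ B) → ‖half e k m φ‖ ≤ C * B := by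
  have h1 := cont_integrand he k hm (φ := fun _ => 1) continuous_const
  obtain ⟨C, hC⟩ := isCompact_Icc.exists_bound_of_continuousOn h1
  refine ⟨max C 0, le_max_right _ _, fun φ B hB h => ?_⟩
  unfold half
  refine (intervalIntegral.norm_integral_le_of_norm_le_const (C := max C 0 * B) ?_).trans ?_
  · intro t ht
    rw [Set.uIoc_of_le zero_le_one] at ht
    have ht' : t ∈ Set.Icc (0 : ℝ) 1 := ⟨ht.1.le, ht.2⟩
    have h2 := hC t ht'
    have h3 := h t ht'
    have h4 : 2 * φ (e k + t ^ 2 * (m - e k)) / Dk e k ((e k + t ^ 2 * (m - e k) : ℝ) : ℂ) =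
        (2 * 1 / Dk e k ((e k + t ^ 2 * (m - e k) : ℝ) : ℂ)) * φ (e k + t ^ 2 * (m - e k)) := by
      ring
    rw [h4, norm_mul]
    exact mul_le_mul (h2.trans (le_max_left _ _)) h3 (norm_nonneg _) (le_max_right _ _)
  · simp

theorem mid_lt (he : StrictMono e) (i : Fin n) :
    e i.castSucc < mid e i ∧ mid e i < e i.succ := by
  have h := he (Fin.castSucc_lt_succ (i := i))
  unfold mid
  constructor <;> linarith

theorem mid_mem (he : StrictMono e) (i : Fin n) :
    (mid e i : ℂ) ∈ V e i.castSucc ∧ (mid e i : ℂ) ∈ V e i.succ := by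
  have h := mid_lt he i
  exact between_mem_V e he (by rw [Complex.ofReal_re]; exact h.1)
    (by rw [Complex.ofReal_re]; exact h.2)

/-- complex Weierstrass approximation on an interval -/
theorem exists_poly (a b : ℝ) (φ : ℝ → ℂ) (hφ : Continuous φ) (ε : ℝ) (hε : 0 < ε) :
    ∃ p : Polynomial ℂ, ∀ x ∈ Set.Icc a b, ‖p.eval (x : ℂ) - φ x‖ ≤ ε := by
  obtain ⟨p₁, h₁⟩ := exists_polynomial_near_of_continuousOn a b (fun x => (φ x).re)
    (Complex.continuous_re.comp hφ).continuousOn (ε / 2) (by positivity)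
  obtain ⟨p₂, h₂⟩ := exists_polynomial_near_of_continuousOn a b (fun x => (φ x).im)
    (Complex.continuous_im.comp hφ).continuousOn (ε / 2) (by positivity)
  refine ⟨p₁.map (algebraMap ℝ ℂ) + Polynomial.C Complex.I * p₂.map (algebraMap ℝ ℂ),
    fun x hx => ?_⟩
  have e1 : ∀ q : Polynomial ℝ, (q.map (algebraMap ℝ ℂ)).eval (x : ℂ) = ((q.eval x : ℝ) : ℂ) := by
    intro q
    rw [Polynomial.eval_map]
    exact Polynomial.eval₂_at_apply (algebraMap ℝ ℂ) x
  rw [Polynomial.eval_add, Polynomial.eval_mul, Polynomial.eval_C, e1, e1]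
  have e2 : ((p₁.eval x : ℝ) : ℂ) + Complex.I * ((p₂.eval x : ℝ) : ℂ) - φ x =
      ((p₁.eval x - (φ x).re : ℝ) : ℂ) + Complex.I * ((p₂.eval x - (φ x).im : ℝ) : ℂ) := by
    conv_lhs => rw [← Complex.re_add_im (φ x)]
    push_cast
    ring
  rw [e2]
  refine (norm_add_le _ _).trans ?_
  rw [norm_mul, Complex.norm_I, one_mul, Complex.norm_real, Complex.norm_real]
  have h3 := (h₁ x hx).le
  have h4 := (h₂ x hx).le
  rw [Real.norm_eq_abs, Real.norm_eq_abs]
  linarith

/-- tent function -/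
noncomputable def tent (i : Fin n) (x : ℝ) : ℝ := max 0 ((x - e i.castSucc) * (mid e i - x))

theorem continuous_tent (i : Fin n) : Continuous (tent (e := e) i) := by
  unfold tent
  fun_prop

theorem tent_zero {i : Fin n} {x : ℝ} (he : StrictMono e)
    (hx : x ≤ e i.castSucc ∨ mid e i ≤ x) : tent (e := e) i x = 0 := by
  unfold tent
  have h := (mid_lt he i).1
  refine max_eq_left ?_
  rcases hx with hx | hx
  · exact mul_nonpos_of_nonpos_of_nonneg (by linarith) (by linarith)
  · exact mul_nonpos_of_nonneg_of_nonpos (by linarith) (by linarith)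

/-- test functions -/
noncomputable def tst (e : Fin (n + 1) → ℝ) (i : Fin n) (x : ℝ) : ℂ :=
  (tent (e := e) i x : ℂ) * Dk e i.castSucc (x : ℂ)

theorem continuous_tst (i : Fin n) : Continuous (tst e i) := by
  unfold tst
  exact (Complex.continuous_ofReal.comp (continuous_tent i)).mul (continuous_Dk _)

theorem half_tst_zero (i : Fin n) (k : Fin (n + 1)) (m : ℝ)
    (h : ∀ t ∈ Set.Icc (0 : ℝ) 1, tent (e := e) i (e k + t ^ 2 * (m - e k)) = 0) :
    half e k m (tst e i) = 0 := by
  unfold half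
  rw [show (0 : ℂ) = ∫ t in (0 : ℝ)..1, (0 : ℂ) by simp]
  refine intervalIntegral.integral_congr fun t ht => ?_
  rw [Set.uIcc_of_le zero_le_one] at ht
  simp only [tst, h t ht]
  simp

theorem between (he : StrictMono e) (i : Fin n) {t : ℝ} (ht : t ∈ Set.Icc (0 : ℝ) 1) :
    (e i.castSucc ≤ e i.castSucc + t ^ 2 * (mid e i - e i.castSucc) ∧
      e i.castSucc + t ^ 2 * (mid e i - e i.castSucc) ≤ mid e i) ∧
    (mid e i ≤ e i.succ + t ^ 2 * (mid e i - e i.succ) ∧
      e i.succ + t ^ 2 * (mid e i - e i.succ) ≤ e i.succ) := by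
  have ht2 : t ^ 2 ≤ 1 := pow_le_one₀ ht.1 ht.2
  have ht0 : 0 ≤ t ^ 2 := sq_nonneg t
  have h := mid_lt he i
  refine ⟨⟨?_, ?_⟩, ?_, ?_⟩ <;> nlinarith

theorem Ji_tst_ne (he : StrictMono e) {i k : Fin n} (hik : i ≠ k) :
    Ji e i (mid e i) (tst e k) = 0 := by
  have key : ∀ x : ℝ, e i.castSucc ≤ x → x ≤ e i.succ → tent (e := e) k x = 0 := by
    intro x h1 h2
    refine tent_zero he ?_
    rcases lt_or_gt_of_ne hik with h | h
    · left
      refine h2.trans (he.monotone ?_)
      rw [Fin.le_def]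
      have : (i : ℕ) < k := h
      simp only [Fin.val_castSucc, Fin.val_succ]
      omega
    · right
      refine ((mid_lt he k).2.le).trans (le_trans (he.monotone ?_) h1)
      rw [Fin.le_def]
      have : (k : ℕ) < i := h
      simp only [Fin.val_castSucc, Fin.val_succ]
      omega
  have hm := mid_lt he i
  rw [Ji_eq, half_tst_zero, half_tst_zero, mul_zero, mul_zero, sub_zero]
  · intro t ht
    have h := (between he i ht).2
    exact key _ (hm.1.le.trans h.1) h.2
  · intro t ht
    have h := (between he i ht).1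
    exact key _ h.1 (h.2.trans hm.2.le)

theorem Ji_tst_self (he : StrictMono e) (i : Fin n) : Ji e i (mid e i) (tst e i) ≠ 0 := by
  have hm := mid_lt he i
  rw [Ji_eq, half_tst_zero i i.succ, mul_zero, sub_zero]
  swap
  · intro t ht
    exact tent_zero he (Or.inr (between he i ht).2.1)
  refine mul_ne_zero (sg_ne (by rw [Complex.ofReal_re]; exact hm.1.ne')) ?_
  have h1 : half e i.castSucc (mid e i) (tst e i) =
      ∫ t in (0 : ℝ)..1, ((2 * (mid e i - e i.castSucc) ^ 2 * (t ^ 2 - t ^ 4) : ℝ) : ℂ) := by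
    unfold half
    refine intervalIntegral.integral_congr fun t ht => ?_
    rw [Set.uIcc_of_le zero_le_one] at ht
    have h2 := Dk_ne e (mem_V_of he i.castSucc (mid_mem he i).1 ht)
    have ht2 : t ^ 2 ≤ 1 := pow_le_one₀ ht.1 ht.2
    have ht0 : 0 ≤ t ^ 2 := sq_nonneg t
    have h3 : tent (e := e) i (e i.castSucc + t ^ 2 * (mid e i - e i.castSucc)) =
        (mid e i - e i.castSucc) ^ 2 * (t ^ 2 - t ^ 4) := by
      unfold tent
      rw [max_eq_right]
      · ring
      · have h4 := (between he i ht).1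
        exact mul_nonneg (by linarith) (by linarith)
    simp only [tst, h3]
    rw [← mul_assoc, mul_div_assoc, div_self h2, mul_one]
    push_cast
    ring
  rw [h1, intervalIntegral.integral_ofReal]
  have h2 : ∫ t in (0 : ℝ)..1, 2 * (mid e i - e i.castSucc) ^ 2 * (t ^ 2 - t ^ 4) =
      2 * (mid e i - e i.castSucc) ^ 2 * (2 / 15) := by
    rw [intervalIntegral.integral_const_mul, intervalIntegral.integral_sub]
    · rw [integral_pow, integral_pow]
      norm_num
    · exact (continuous_pow 2).intervalIntegrable _ _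
    · exact (continuous_pow 4).intervalIntegrable _ _
  rw [h2]
  have h3 : 0 < mid e i - e i.castSucc := by linarith
  exact_mod_cast (by positivity : 2 * (mid e i - e i.castSucc) ^ 2 * (2 / 15) ≠ 0)

theorem Ji_add (he : StrictMono e) (i : Fin n) {φ ψ : ℝ → ℂ} (hφ : Continuous φ)
    (hψ : Continuous ψ) : Ji e i (mid e i) (fun x => φ x + ψ x) =
      Ji e i (mid e i) φ + Ji e i (mid e i) ψ := by
  rw [Ji_eq, Ji_eq, Ji_eq, half_add he _ (mid_mem he i).1 hφ hψ,
    half_add he _ (mid_mem he i).2 hφ hψ]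
  ring

theorem Ji_smul (i : Fin n) (c : ℂ) (φ : ℝ → ℂ) : Ji e i (mid e i) (fun x => c * φ x) =
      c * Ji e i (mid e i) φ := by
  rw [Ji_eq, Ji_eq, half_smul, half_smul]
  ring

theorem Ji_bound (he : StrictMono e) (i : Fin n) : ∃ C : ℝ, 0 ≤ C ∧ ∀ (φ : ℝ → ℂ) (B : ℝ), 0 ≤ B →
    (∀ x ∈ Set.Icc (e 0) (e (Fin.last n)), ‖φ x‖ ≤ B) → ‖Ji e i (mid e i) φ‖ ≤ C * B := by
  obtain ⟨C₁, hC₁, h₁⟩ := half_bound he _ (mid_mem he i).1
  obtain ⟨C₂, hC₂, h₂⟩ := half_bound he _ (mid_mem he i).2
  have hm := mid_lt he i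
  have h0 : e 0 ≤ e i.castSucc := he.monotone (Fin.zero_le _)
  have h1 : e i.succ ≤ e (Fin.last n) := he.monotone (Fin.le_last _)
  refine ⟨‖sg (e i.castSucc) (mid e i)‖ * C₁ + ‖sg (e i.succ) (mid e i)‖ * C₂, by positivity,
    fun φ B hB h => ?_⟩
  rw [Ji_eq]
  refine (norm_sub_le _ _).trans ?_
  rw [norm_mul, norm_mul, add_mul, mul_assoc, mul_assoc]
  refine add_le_add (mul_le_mul_of_nonneg_left (h₁ φ B hB fun t ht => h _ ?_) (norm_nonneg _))
    (mul_le_mul_of_nonneg_left (h₂ φ B hB fun t ht => h _ ?_) (norm_nonneg _))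
  · have h3 := (between he i ht).1
    constructor <;> linarith
  · have h3 := (between he i ht).2
    constructor <;> linarith

/-- the linear map on polynomials -/
noncomputable def Amap (he : StrictMono e) : Polynomial ℂ →ₗ[ℂ] (Fin n → ℂ) where
  toFun p := fun i => Ji e i (mid e i) (fun x => p.eval (x : ℂ))
  map_add' p q := by
    funext i
    have h1 : ∀ r : Polynomial ℂ, Continuous fun x : ℝ => r.eval (x : ℂ) := fun r =>
      r.continuous.comp Complex.continuous_ofReal
    simp only [Polynomial.eval_add, Pi.add_apply]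
    exact Ji_add he i (h1 p) (h1 q)
  map_smul' c p := by
    funext i
    simp only [Polynomial.eval_smul, smul_eq_mul, RingHom.id_apply, Pi.smul_apply]
    exact Ji_smul i c _

theorem surjective_Amap (he : StrictMono e) : Function.Surjective (Amap he) := by
  classical
  rw [← LinearMap.range_eq_top]
  by_contra hne
  obtain ⟨f, hf0, hf⟩ := Submodule.exists_le_ker_of_lt_top _ (lt_top_iff_ne_top.2 hne)
  have hfp : ∀ p, f (Amap he p) = 0 := fun p => hf ⟨p, rfl⟩
  choose C hC0 hC using Ji_bound he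
  have hfs : ∀ v : Fin n → ℂ, f v = ∑ i, v i * f (Pi.single i 1) := by
    intro v
    rw [LinearMap.pi_apply_eq_sum_univ f v]
    refine Finset.sum_congr rfl fun i _ => ?_
    rw [smul_eq_mul]
    congr 2
    funext j
    rw [Pi.single_apply]
    simp only [eq_comm]
  -- the functional vanishes on continuous functions
  have key : ∀ φ : ℝ → ℂ, Continuous φ → f (fun i => Ji e i (mid e i) φ) = 0 := by
    intro φ hφ
    rw [← norm_eq_zero]
    by_contra hne
    set δ := ‖f (fun i => Ji e i (mid e i) φ)‖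
    have hδ : 0 < δ := lt_of_le_of_ne (norm_nonneg _) (Ne.symm hne)
    set M := ∑ i, C i * ‖f (Pi.single i 1)‖
    have hM : 0 ≤ M := Finset.sum_nonneg fun i _ => mul_nonneg (hC0 i) (norm_nonneg _)
    obtain ⟨p, hp⟩ := exists_poly (e 0) (e (Fin.last n)) φ hφ (δ / (M + 1) / 2) (by positivity)
    have hcp : Continuous fun x : ℝ => p.eval (x : ℂ) := p.continuous.comp Complex.continuous_ofReal
    have h1 : ∀ i, Ji e i (mid e i) φ = Ji e i (mid e i) (fun x => p.eval (x : ℂ)) +
        Ji e i (mid e i) (fun x => φ x + -1 * p.eval (x : ℂ)) := by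
      intro i
      have hc2 : Continuous fun x : ℝ => φ x + -1 * p.eval (x : ℂ) :=
        hφ.add (continuous_const.mul hcp)
      rw [← Ji_add he i hcp hc2]
      congr 1
      funext x
      ring
    have h2 : f (fun i => Ji e i (mid e i) φ) =
        f (fun i => Ji e i (mid e i) (fun x => φ x + -1 * p.eval (x : ℂ))) := by
      have h3 : (fun i => Ji e i (mid e i) φ) = Amap he p +
          fun i => Ji e i (mid e i) (fun x => φ x + -1 * p.eval (x : ℂ)) := funext h1
      rw [h3, map_add, hfp, zero_add]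
    have h4 : δ ≤ M * (δ / (M + 1) / 2) := by
      change ‖f (fun i => Ji e i (mid e i) φ)‖ ≤ _
      rw [h2, hfs]
      refine (norm_sum_le _ _).trans ?_
      rw [Finset.sum_mul]
      refine Finset.sum_le_sum fun i _ => ?_
      rw [norm_mul]
      have h5 := hC i (fun x => φ x + -1 * p.eval (x : ℂ)) (δ / (M + 1) / 2) (by positivity)
        (fun x hx => by
          have := hp x hx
          rw [norm_sub_rev] at this
          rwa [neg_one_mul, ← sub_eq_add_neg])
      calc ‖Ji e i (mid e i) (fun x => φ x + -1 * p.eval (x : ℂ))‖ * ‖f (Pi.single i 1)‖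
          ≤ (C i * (δ / (M + 1) / 2)) * ‖f (Pi.single i 1)‖ :=
            mul_le_mul_of_nonneg_right h5 (norm_nonneg _)
        _ = C i * ‖f (Pi.single i 1)‖ * (δ / (M + 1) / 2) := by ring
    have h6 : M * (δ / (M + 1) / 2) < δ := by
      have h7 : M * (δ / (M + 1) / 2) = (M / (M + 1)) * (δ / 2) := by ring
      have h8 : M / (M + 1) ≤ 1 := by
        rw [div_le_one (by positivity)]
        linarith
      rw [h7]
      nlinarith
    linarith
  apply hf0
  apply LinearMap.ext
  intro v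
  rw [hfs]
  simp only [LinearMap.zero_apply]
  refine Finset.sum_eq_zero fun k _ => ?_
  have h1 := key (tst e k) (continuous_tst k)
  rw [hfs, Finset.sum_eq_single k] at h1
  · rw [(mul_eq_zero.1 h1).resolve_left (Ji_tst_self he k), mul_zero]
  · intro i _ hik
    rw [Ji_tst_ne he hik, zero_mul]
  · intro h
    exact absurd (Finset.mem_univ k) h

end

end Pool.Agent.X237.MF
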