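import Pool.Agent.X237.MF.Core

/-!
Valuations obstruct the elliptic relation.
-/

set_option autoImplicit false

namespace Pool.Agent.X237.MF

/-- the elements whose value is a square -/
def Ev {K Γ : Type} [Field K] [LinearOrderedCommGroupWithZero Γ] (v : Valuation K Γ) :
    Subgroup Kˣ where
  carrier := {x | IsSquare (v (x : K))}
  mul_mem' := by
    intro a b ha hb
    simp only [Set.mem_ofPred_eq, Units.val_mul, map_mul] at *
    exact ha.mul hb
  one_mem' := by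
    simp only [Set.mem_ofPred_eq, Units.val_one, map_one]
    exact IsSquare.one
  inv_mem' := by
    intro a ha
    simp only [Set.mem_ofPred_eq] at *
    rw [Units.val_inv_eq_inv_val, map_inv₀]
    obtain ⟨r, hr⟩ := ha
    exact ⟨r⁻¹, by rw [hr, mul_inv]⟩

theorem mem_Ev {K Γ : Type} [Field K] [LinearOrderedCommGroupWithZero Γ] (v : Valuation K Γ)
    (x : Kˣ) : x ∈ Ev v ↔ IsSquare (v (x : K)) := Iff.rfl

theorem obs_of_valuation {K Γ : Type} [Field K] [LinearOrderedCommGroupWithZero Γ]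
    (v : Valuation K Γ) {α β : K} (hα : v α ≤ 1) (hβ : v β ≤ 1) (hαβ : v (α ^ 2 - β) = 1)
    (f g : Kˣ) (h : Rel α β (f : K) (g : K)) : f ∈ Ev v ∨ g ∈ Ev v := by
  obtain ⟨u, w, h⟩ := h
  rw [mem_Ev, mem_Ev]
  have hf0 : v (f : K) ≠ 0 := (Valuation.ne_zero_iff _).2 f.ne_zero
  have key : ∀ c : Γ, c ≠ 0 → v ((f * u ^ 2 - α) ^ 2 - β) = c ^ 2 → IsSquare (v (g : K)) := by
    intro c hc h1
    rw [← h, map_mul, map_pow] at h1
    have hw : v w ≠ 0 := by
      intro h2
      rw [h2, zero_pow two_ne_zero, mul_zero] at h1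
      exact pow_ne_zero 2 hc h1.symm
    refine ⟨c * (v w)⁻¹, ?_⟩
    have h3 : v (g : K) = c ^ 2 * ((v w) ^ 2)⁻¹ := by
      rw [← h1, mul_assoc, mul_inv_cancel₀ (pow_ne_zero 2 hw), mul_one]
    rw [h3, pow_two, pow_two, mul_inv, mul_mul_mul_comm]
  by_cases hu : u = 0
  · right
    refine key 1 one_ne_zero ?_
    rw [hu, zero_pow two_ne_zero, mul_zero, zero_sub, neg_sq, hαβ, one_pow]
  have hu0 : v u ≠ 0 := (Valuation.ne_zero_iff _).2 hu
  have hc0 : v (f * u ^ 2 : K) ≠ 0 := by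
    rw [map_mul, map_pow]
    exact mul_ne_zero hf0 (pow_ne_zero 2 hu0)
  rcases lt_trichotomy (v ((f : K) * u ^ 2)) 1 with h1 | h1 | h1
  · right
    refine key 1 one_ne_zero ?_
    have e1 : ((f : K) * u ^ 2 - α) ^ 2 - β = (f * u ^ 2) * (f * u ^ 2 - 2 * α) + (α ^ 2 - β) := by
      ring
    rw [e1, one_pow]
    have h2 : v (2 : K) ≤ 1 := by
      rw [← one_add_one_eq_two]
      exact (v.map_add _ _).trans (by rw [map_one, max_self])
    have h3 : v ((f : K) * u ^ 2 - 2 * α) ≤ 1 := by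
      refine (v.map_sub _ _).trans (max_le h1.le ?_)
      rw [map_mul]
      exact mul_le_one' h2 hα
    have h4 : v (((f : K) * u ^ 2) * (f * u ^ 2 - 2 * α)) < 1 := by
      rw [map_mul]
      exact mul_lt_one_of_lt_of_le h1 h3
    rw [Valuation.map_add_eq_of_lt_right v (by rw [hαβ]; exact h4), hαβ]
  · left
    rw [map_mul, map_pow] at h1
    refine ⟨(v u)⁻¹, ?_⟩
    rw [← mul_inv, ← pow_two]
    exact eq_inv_of_mul_eq_one_left h1
  · right
    refine key (v ((f : K) * u ^ 2)) hc0 ?_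
    have h2 : v ((f : K) * u ^ 2 - α) = v ((f : K) * u ^ 2) :=
      Valuation.map_sub_eq_of_lt_left v (lt_of_le_of_lt hα h1)
    have h3 : v (((f : K) * u ^ 2 - α) ^ 2) = v ((f : K) * u ^ 2) ^ 2 := by rw [map_pow, h2]
    rw [Valuation.map_sub_eq_of_lt_left v, h3]
    rw [h3]
    exact lt_of_le_of_lt hβ (one_lt_pow₀ h1 two_ne_zero)

end Pool.Agent.X237.MF
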